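import Mathlib

namespace Pool.Agent.Helper150.Avg

open MeasureTheory
open scoped ENNReal

/-- elementary convexity step in `ℝ≥0∞` -/
theorem add_rpow_le_add (x b : ℝ≥0∞) {q : ℝ} (hq : 1 ≤ q) :
    (x + b) ^ q ≤ x ^ q + ENNReal.ofReal q * (b * (x + b) ^ (q - 1)) := by
  have hq0 : 0 < q := by linarith
  by_cases hx : x = ∞
  · subst hx
    simp [ENNReal.top_rpow_of_pos hq0]
  by_cases hb : b = ∞
  · subst hb
    have h1 : (x + ∞ : ℝ≥0∞) = ∞ := by simp
    rw [h1]
    have h2 : ENNReal.ofReal q * (∞ * ∞ ^ (q - 1)) = ∞ := by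
      have h3 : (∞ : ℝ≥0∞) * ∞ ^ (q - 1) = ∞ := by
        rcases eq_or_lt_of_le hq with h | h
        · subst h; simp
        · rw [ENNReal.top_rpow_of_pos (by linarith)]; simp
      rw [h3, ENNReal.mul_top]
      simp [hq0]
    rw [h2]
    simp
  lift x to NNReal using hx
  lift b to NNReal using hb
  rcases eq_or_lt_of_le (zero_le : 0 ≤ x + b) with h0 | hpos
  · have hx0 : x = 0 := by
      have := h0.symm
      simp at this
      exact this.1
    have hb0 : b = 0 := by
      have := h0.symm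
      simp at this
      exact this.2
    subst hx0; subst hb0
    simp [hq0]
  · have key : ((x + b : NNReal) : ℝ) ^ q ≤ (x : ℝ) ^ q + q * (b * ((x + b : NNReal) : ℝ) ^ (q - 1)) := by
      set T : ℝ := ((x + b : NNReal) : ℝ) with hT
      have hTpos : 0 < T := by exact_mod_cast hpos
      have hxT : (x : ℝ) = T - b := by simp [hT]
      have hbT : (b : ℝ) ≤ T := by simp [hT]
      have hb0 : (0 : ℝ) ≤ b := b.2
      have hbern := one_add_mul_self_le_rpow_one_add (s := -(b / T)) (by
        rw [neg_le_neg_iff, div_le_one hTpos]; exact hbT) hq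
      have hx' : (x : ℝ) = T * (1 + -(b / T)) := by
        rw [hxT]; field_simp; ring
      have h1 : 0 ≤ 1 + -((b : ℝ) / T) := by
        have : (b : ℝ) / T ≤ 1 := by rw [div_le_one hTpos]; exact hbT
        linarith
      rw [hx', Real.mul_rpow hTpos.le h1]
      have h2 : T ^ (q - 1) = T ^ q / T := by
        rw [Real.rpow_sub hTpos, Real.rpow_one]
      rw [h2]
      have h3 : 0 < T ^ q := Real.rpow_pos_of_pos hTpos q
      calc T ^ q = T ^ q * (1 + q * -(b / T)) + q * (b * (T ^ q / T)) := by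
            field_simp; ring
        _ ≤ T ^ q * (1 + -(b / T)) ^ q + q * (b * (T ^ q / T)) := by
            gcongr
    have hc : ((x : ℝ≥0∞) + b) = ((x + b : NNReal) : ℝ≥0∞) := by push_cast; rfl
    rw [hc]
    rw [← ENNReal.coe_rpow_of_nonneg _ hq0.le, ← ENNReal.coe_rpow_of_nonneg _ hq0.le,
      ← ENNReal.coe_rpow_of_nonneg _ (by linarith : (0:ℝ) ≤ q - 1)]
    have hqn : ENNReal.ofReal q = ((Real.toNNReal q : NNReal) : ℝ≥0∞) := rfl
    rw [hqn, ← ENNReal.coe_mul, ← ENNReal.coe_mul, ← ENNReal.coe_add, ENNReal.coe_le_coe,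
      ← NNReal.coe_le_coe]
    push_cast
    rw [Real.coe_toNNReal q hq0.le]
    push_cast at key
    exact key

theorem rpow_sum_le_telescope {ι : Type*} (s : Finset ι) (b : ι → ℝ≥0∞) (h : ι → ℝ) {q : ℝ}
    (hq : 1 ≤ q) :
    (∑ i ∈ s, b i) ^ q ≤
      ENNReal.ofReal q * ∑ i ∈ s, b i * (∑ k ∈ s with h i ≤ h k, b k) ^ (q - 1) := by
  classical
  induction s using Finset.induction_on_min_value h with
  | empty => simp [show 0 < q by linarith]
  | insert a s ha hmin ih =>
    rw [Finset.sum_insert ha, Finset.sum_insert ha]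
    have hfa : (insert a s).filter (fun k => h a ≤ h k) = insert a s := by
      apply Finset.filter_true_of_mem
      intro k hk
      rcases Finset.mem_insert.1 hk with rfl | hk
      · exact le_refl _
      · exact hmin k hk
    rw [hfa, Finset.sum_insert ha]
    calc (b a + ∑ x ∈ s, b x) ^ q = (∑ x ∈ s, b x + b a) ^ q := by rw [add_comm]
      _ ≤ (∑ x ∈ s, b x) ^ q + ENNReal.ofReal q * (b a * (∑ x ∈ s, b x + b a) ^ (q - 1)) :=
          add_rpow_le_add _ _ hq
      _ ≤ ENNReal.ofReal q * ∑ i ∈ s, b i * (∑ k ∈ s with h i ≤ h k, b k) ^ (q - 1) +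
            ENNReal.ofReal q * (b a * (∑ x ∈ s, b x + b a) ^ (q - 1)) := by gcongr
      _ ≤ ENNReal.ofReal q * ∑ i ∈ s, b i * (∑ k ∈ insert a s with h i ≤ h k, b k) ^ (q - 1) +
            ENNReal.ofReal q * (b a * (∑ x ∈ s, b x + b a) ^ (q - 1)) := by
          have hmono : ∀ i ∈ s, b i * (∑ k ∈ s with h i ≤ h k, b k) ^ (q - 1) ≤
              b i * (∑ k ∈ insert a s with h i ≤ h k, b k) ^ (q - 1) := by
            intro i hi
            have h1 : (∑ k ∈ s with h i ≤ h k, b k) ≤ (∑ k ∈ insert a s with h i ≤ h k, b k) :=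
              Finset.sum_le_sum_of_subset
                (Finset.filter_subset_filter _ (Finset.subset_insert a s))
            have h2 := ENNReal.rpow_le_rpow h1 (by linarith : (0:ℝ) ≤ q - 1)
            exact mul_le_mul_right h2 _
          exact add_le_add_left (mul_le_mul_right (Finset.sum_le_sum hmono) _) _
      _ = _ := by
          rw [mul_add, add_comm (b a) (∑ x ∈ s, b x), add_comm]

/-- `F_λ(x) = ∑_i a_i/(2 λ h_i) 1[|x - y_i| ≤ λ h_i]` -/
noncomputable def F {ι : Type*} (P : Finset ι) (y h : ι → ℝ) (a : ι → ℝ≥0∞) (lam x : ℝ) : ℝ≥0∞ :=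
  ∑ i ∈ P, a i / ENNReal.ofReal (2 * lam * h i) *
    (Set.Icc (y i - lam * h i) (y i + lam * h i)).indicator (fun _ => 1) x

theorem measurable_F {ι : Type*} (P : Finset ι) (y h : ι → ℝ) (a : ι → ℝ≥0∞) (lam : ℝ) :
    Measurable (F P y h a lam) := by
  unfold F
  refine Finset.measurable_sum _ fun i _ => ?_
  exact Measurable.const_mul (measurable_const.indicator measurableSet_Icc) _

theorem key_ineq {ι : Type*} (P : Finset ι) (y h : ι → ℝ) (hh : ∀ i ∈ P, 0 < h i)
    (e : ι → ℝ → ℝ≥0∞) (he : ∀ i ∈ P, Measurable (e i))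
    (hsupp : ∀ i ∈ P, ∀ x, e i x ≠ 0 → |x - y i| ≤ h i) {q : ℝ} (hq : 1 ≤ q)
    {lam : ℝ} (hlam : 1 ≤ lam) :
    ∫⁻ x, (F P y h (fun i => ∫⁻ t, e i t) lam x) ^ q ≤
      ENNReal.ofReal q * (3 ^ (q - 1) *
        ∫⁻ x, (∑ i ∈ P, e i x) * (F P y h (fun i => ∫⁻ t, e i t) (3 * lam) x) ^ (q - 1)) := by
  classical
  have hq0 : (0 : ℝ) ≤ q - 1 := by linarith
  have hlam0 : 0 < lam := by linarith
  set a : ι → ℝ≥0∞ := fun i => ∫⁻ t, e i t with ha
  set J : ι → Set ℝ := fun i => Set.Icc (y i - lam * h i) (y i + lam * h i) with hJ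
  set c : ι → ℝ≥0∞ := fun i => a i / ENNReal.ofReal (2 * lam * h i) with hc
  set b : ι → ℝ → ℝ≥0∞ := fun i x => c i * (J i).indicator (fun _ => 1) x with hb
  set S : ι → ℝ → ℝ≥0∞ := fun i x => ∑ k ∈ P with h i ≤ h k, b k x with hS
  have hbmeas : ∀ i, Measurable (b i) := fun i =>
    Measurable.const_mul (measurable_const.indicator measurableSet_Icc) _
  have hSmeas : ∀ i, Measurable (S i) := fun i => Finset.measurable_sum _ fun k _ => hbmeas k
  -- comparison of `S i` at two points of `J i`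
  have hcomp : ∀ i ∈ P, ∀ x ∈ J i, ∀ x' ∈ J i, S i x ≤ 3 * F P y h a (3 * lam) x' := by
    intro i hi x hx x' hx'
    have h3 : (3 : ℝ≥0∞) * F P y h a (3 * lam) x' =
        ∑ k ∈ P, 3 * (a k / ENNReal.ofReal (2 * (3 * lam) * h k) *
          (Set.Icc (y k - 3 * lam * h k) (y k + 3 * lam * h k)).indicator (fun _ => 1) x') := by
      unfold F
      rw [Finset.mul_sum]
    rw [h3]
    refine le_trans (Finset.sum_le_sum (g := fun k => 3 * (a k / ENNReal.ofReal (2 * (3 * lam) * h k) *
          (Set.Icc (y k - 3 * lam * h k) (y k + 3 * lam * h k)).indicator (fun _ => 1) x')) ?_)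
          (Finset.sum_le_sum_of_subset (Finset.filter_subset _ _))
    intro k hk
    rw [Finset.mem_filter] at hk
    have hhk := hh k hk.1
    by_cases hxk : x ∈ J k
    · have hx'k : x' ∈ Set.Icc (y k - 3 * lam * h k) (y k + 3 * lam * h k) := by
        simp only [hJ, Set.mem_Icc] at hx hx' hxk ⊢
        have h5 : lam * h i ≤ lam * h k := by gcongr; exact hk.2
        constructor <;> nlinarith [hx.1, hx.2, hx'.1, hx'.2, hxk.1, hxk.2]
      simp only [hb, Set.indicator_of_mem hxk, Set.indicator_of_mem hx'k, mul_one]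
      have h6 : ENNReal.ofReal (2 * (3 * lam) * h k) = 3 * ENNReal.ofReal (2 * lam * h k) := by
        rw [show 2 * (3 * lam) * h k = 3 * (2 * lam * h k) by ring,
          ENNReal.ofReal_mul (by norm_num)]
        simp
      rw [h6, hc]
      simp only
      have h7 : ENNReal.ofReal (2 * lam * h k) ≠ 0 := by
        simp only [ne_eq, ENNReal.ofReal_eq_zero, not_le]; positivity
      have h8 : ENNReal.ofReal (2 * lam * h k) ≠ ∞ := ENNReal.ofReal_ne_top
      rw [ENNReal.div_eq_inv_mul, ENNReal.div_eq_inv_mul,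
        ENNReal.mul_inv (Or.inl (by norm_num)) (Or.inl (by norm_num))]
      rw [← mul_assoc, ← mul_assoc, ENNReal.mul_inv_cancel (by norm_num) (by norm_num), one_mul]
    · simp only [hb, Set.indicator_of_notMem hxk, mul_zero]
      exact zero_le
  -- pointwise telescoping
  have hpt : ∀ x, (F P y h a lam x) ^ q ≤
      ENNReal.ofReal q * ∑ i ∈ P, b i x * (S i x) ^ (q - 1) := by
    intro x
    exact rpow_sum_le_telescope P (fun i => b i x) h hq
  calc ∫⁻ x, (F P y h a lam x) ^ q
      ≤ ∫⁻ x, ENNReal.ofReal q * ∑ i ∈ P, b i x * (S i x) ^ (q - 1) := lintegral_mono hpt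
    _ = ENNReal.ofReal q * ∑ i ∈ P, ∫⁻ x, b i x * (S i x) ^ (q - 1) := by
        have hm : ∀ i ∈ P, Measurable (fun x => b i x * (S i x) ^ (q - 1)) := fun i _ =>
          (hbmeas i).mul ((hSmeas i).pow_const _)
        rw [lintegral_const_mul _ (Finset.measurable_sum _ hm), lintegral_finsetSum _ hm]
    _ ≤ ENNReal.ofReal q * ∑ i ∈ P, ∫⁻ x', e i x' * (3 * F P y h a (3 * lam) x') ^ (q - 1) := by
        refine mul_le_mul_right (Finset.sum_le_sum fun i hi => ?_) _
        have hhi := hh i hi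
        have h7 : ENNReal.ofReal (2 * lam * h i) ≠ 0 := by
          simp only [ne_eq, ENNReal.ofReal_eq_zero, not_le]; positivity
        have h8 : ENNReal.ofReal (2 * lam * h i) ≠ ∞ := ENNReal.ofReal_ne_top
        have h9 : ∫⁻ x, b i x * (S i x) ^ (q - 1) = c i * ∫⁻ x in J i, (S i x) ^ (q - 1) := by
          rw [← lintegral_indicator measurableSet_Icc, ← lintegral_const_mul _
            (((hSmeas i).pow_const _).indicator measurableSet_Icc)]
          refine lintegral_congr fun x => ?_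
          by_cases hx : x ∈ J i
          · have hx' : x ∈ Set.Icc (y i - lam * h i) (y i + lam * h i) := hx
            simp only [hb, Set.indicator_of_mem hx, Set.indicator_of_mem hx', mul_one]
          · have hx' : x ∉ Set.Icc (y i - lam * h i) (y i + lam * h i) := hx
            simp only [hb, Set.indicator_of_notMem hx, Set.indicator_of_notMem hx', mul_zero,
              zero_mul]
        rw [h9, hc]
        simp only
        rw [ENNReal.div_eq_inv_mul, mul_assoc, mul_comm, mul_assoc, ha]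
        simp only
        rw [← lintegral_mul_const _ (he i hi)]
        refine lintegral_mono fun x' => ?_
        by_cases hex : e i x' = 0
        · simp [hex]
        · have hx' : x' ∈ J i := by
            have := hsupp i hi x' hex
            rw [abs_le] at this
            simp only [hJ, Set.mem_Icc]
            have h10 : h i ≤ lam * h i := by nlinarith
            constructor <;> linarith [this.1, this.2]
          refine mul_le_mul_right ?_ _
          have h11 : ∫⁻ x in J i, (S i x) ^ (q - 1) ≤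
              (3 * F P y h a (3 * lam) x') ^ (q - 1) * ENNReal.ofReal (2 * lam * h i) := by
            calc ∫⁻ x in J i, (S i x) ^ (q - 1)
                ≤ ∫⁻ x in J i, (3 * F P y h a (3 * lam) x') ^ (q - 1) := by
                  refine setLIntegral_mono' measurableSet_Icc fun x hx => ?_
                  exact ENNReal.rpow_le_rpow (hcomp i hi x hx x' hx') hq0
              _ = _ := by
                  rw [setLIntegral_const, Real.volume_Icc]
                  congr 2
                  ring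
          calc (∫⁻ x in J i, (S i x) ^ (q - 1)) * (ENNReal.ofReal (2 * lam * h i))⁻¹
              ≤ ((3 * F P y h a (3 * lam) x') ^ (q - 1) * ENNReal.ofReal (2 * lam * h i)) *
                (ENNReal.ofReal (2 * lam * h i))⁻¹ := by gcongr
            _ = _ := by
                rw [mul_assoc, ENNReal.mul_inv_cancel h7 h8, mul_one]
    _ = _ := by
        congr 1
        have hm1 : ∀ i ∈ P, Measurable
            (fun x' => e i x' * (3 * F P y h a (3 * lam) x') ^ (q - 1)) := fun i hi =>
          (he i hi).mul (((measurable_F P y h a (3 * lam)).const_mul 3).pow_const _)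
        have hm2 : Measurable (fun x => (∑ i ∈ P, e i x) * F P y h a (3 * lam) x ^ (q - 1)) :=
          (Finset.measurable_sum _ fun i hi => he i hi).mul
          ((measurable_F P y h a (3 * lam)).pow_const _)
        rw [← lintegral_finsetSum _ hm1, ← lintegral_const_mul _ hm2]
        refine lintegral_congr fun x => ?_
        rw [← Finset.sum_mul, ENNReal.mul_rpow_of_nonneg _ _ hq0]
        ring

/-- the constant of the one dimensional averaging inequality -/
noncomputable def K (q : ℝ) : ℝ≥0∞ := ENNReal.ofReal q * 3 ^ (q - 1)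

theorem K_ne_top {q : ℝ} (hq : 1 ≤ q) : K q ≠ ∞ := by
  unfold K
  exact ENNReal.mul_ne_top ENNReal.ofReal_ne_top
    (ENNReal.rpow_ne_top_of_nonneg (by linarith) (by norm_num))

theorem K_ne_zero {q : ℝ} (hq : 1 ≤ q) : K q ≠ 0 := by
  unfold K
  refine mul_ne_zero ?_ ?_
  · simp only [ne_eq, ENNReal.ofReal_eq_zero, not_le]; linarith
  · rw [ne_eq, ENNReal.rpow_eq_zero_iff]
    norm_num

theorem U_bound {ι : Type*} (P : Finset ι) (y h : ι → ℝ) (hh : ∀ i ∈ P, 0 < h i)
    (a : ι → ℝ≥0∞) (ha : ∀ i ∈ P, a i ≠ ∞) {q : ℝ} (hq : 1 ≤ q) :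
    ∃ B : ℝ≥0∞, B ≠ ∞ ∧ ∀ lam : ℝ, 1 ≤ lam → ∫⁻ x, (F P y h a lam x) ^ q ≤ B := by
  refine ⟨(P.card : ℝ≥0∞) ^ (q - 1) *
    ∑ i ∈ P, (a i / ENNReal.ofReal (2 * h i)) ^ (q - 1) * a i, ?_, ?_⟩
  · refine ENNReal.mul_ne_top (ENNReal.rpow_ne_top_of_nonneg (by linarith)
      (ENNReal.natCast_ne_top _)) ?_
    refine ENNReal.sum_ne_top.2 fun i hi => ?_
    refine ENNReal.mul_ne_top (ENNReal.rpow_ne_top_of_nonneg (by linarith) ?_) (ha i hi)
    refine ENNReal.div_ne_top (ha i hi) ?_
    have := hh i hi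
    simp only [ne_eq, ENNReal.ofReal_eq_zero, not_le]; positivity
  · intro lam hlam
    have hlam0 : 0 < lam := by linarith
    have hm : ∀ i ∈ P, Measurable (fun x => (a i / ENNReal.ofReal (2 * lam * h i) *
        (Set.Icc (y i - lam * h i) (y i + lam * h i)).indicator (fun _ => (1 : ℝ≥0∞)) x) ^ q) :=
      fun i _ => (Measurable.const_mul (measurable_const.indicator measurableSet_Icc) _).pow_const _
    calc ∫⁻ x, (F P y h a lam x) ^ q
        ≤ ∫⁻ x, (P.card : ℝ≥0∞) ^ (q - 1) * ∑ i ∈ P, (a i / ENNReal.ofReal (2 * lam * h i) *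
        (Set.Icc (y i - lam * h i) (y i + lam * h i)).indicator (fun _ => (1 : ℝ≥0∞)) x) ^ q := by
          refine lintegral_mono fun x => ?_
          exact ENNReal.rpow_sum_le_const_mul_sum_rpow _ _ hq
      _ = (P.card : ℝ≥0∞) ^ (q - 1) * ∑ i ∈ P, ∫⁻ x, (a i / ENNReal.ofReal (2 * lam * h i) *
        (Set.Icc (y i - lam * h i) (y i + lam * h i)).indicator (fun _ => (1 : ℝ≥0∞)) x) ^ q := by
          rw [lintegral_const_mul _ (Finset.measurable_sum _ hm), lintegral_finsetSum _ hm]
      _ ≤ _ := by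
          refine mul_le_mul_right (Finset.sum_le_sum fun i hi => ?_) _
          have hhi := hh i hi
          have h7 : ENNReal.ofReal (2 * lam * h i) ≠ 0 := by
            simp only [ne_eq, ENNReal.ofReal_eq_zero, not_le]; positivity
          have h8 : ENNReal.ofReal (2 * lam * h i) ≠ ∞ := ENNReal.ofReal_ne_top
          have h9 : ∀ x, (a i / ENNReal.ofReal (2 * lam * h i) *
              (Set.Icc (y i - lam * h i) (y i + lam * h i)).indicator
                (fun _ => (1 : ℝ≥0∞)) x) ^ q =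
              (Set.Icc (y i - lam * h i) (y i + lam * h i)).indicator
                (fun _ => (a i / ENNReal.ofReal (2 * lam * h i)) ^ q) x := by
            intro x
            by_cases hx : x ∈ Set.Icc (y i - lam * h i) (y i + lam * h i)
            · simp only [Set.indicator_of_mem hx, mul_one]
            · simp only [Set.indicator_of_notMem hx, mul_zero]
              exact ENNReal.zero_rpow_of_pos (by linarith)
          simp_rw [h9]
          rw [lintegral_indicator measurableSet_Icc, setLIntegral_const, Real.volume_Icc]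
          have h10 : ENNReal.ofReal (y i + lam * h i - (y i - lam * h i)) =
              ENNReal.ofReal (2 * lam * h i) := by congr 1; ring
          rw [h10]
          have h11 : (a i / ENNReal.ofReal (2 * lam * h i)) ^ q =
              (a i / ENNReal.ofReal (2 * lam * h i)) ^ (q - 1) *
                (a i / ENNReal.ofReal (2 * lam * h i)) := by
            conv_lhs => rw [show q = (q - 1) + 1 by ring]
            rw [ENNReal.rpow_add_of_nonneg _ _ (by linarith) zero_le_one, ENNReal.rpow_one]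
          rw [h11, mul_assoc, ENNReal.div_mul_cancel h7 h8]
          refine mul_le_mul_left ?_ _
          refine ENNReal.rpow_le_rpow ?_ (by linarith)
          refine ENNReal.div_le_div_left (ENNReal.ofReal_le_ofReal ?_) _
          nlinarith

/-- one dimensional averaging inequality (dual form of the maximal inequality) -/
theorem F_rpow_le {ι : Type*} (P : Finset ι) (y h : ι → ℝ) (hh : ∀ i ∈ P, 0 < h i)
    (e : ι → ℝ → ℝ≥0∞) (he : ∀ i ∈ P, Measurable (e i))
    (hsupp : ∀ i ∈ P, ∀ x, e i x ≠ 0 → |x - y i| ≤ h i) {q : ℝ} (hq : 1 < q)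
    {lam : ℝ} (hlam : 1 ≤ lam) :
    ∫⁻ x, (F P y h (fun i => ∫⁻ t, e i t) lam x) ^ q ≤
      (K q) ^ q * ∫⁻ x, (∑ i ∈ P, e i x) ^ q := by
  have hq0 : 0 < q := by linarith
  have hq1 : 0 < q - 1 := by linarith
  set E : ℝ≥0∞ := ∫⁻ x, (∑ i ∈ P, e i x) ^ q with hE
  by_cases hEtop : E = ∞
  · rw [hEtop, ENNReal.mul_top]
    · exact le_top
    · rw [ne_eq, ENNReal.rpow_eq_zero_iff]
      push Not
      exact ⟨fun h => absurd h (K_ne_zero hq.le), fun h => absurd h (K_ne_top hq.le)⟩
  -- the masses are finite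
  have hfin : ∀ i ∈ P, (∫⁻ t, e i t) ≠ ∞ := by
    intro i hi
    have h1 : ∫⁻ t, e i t ≤ ∫⁻ t, ((Set.Icc (y i - h i) (y i + h i)).indicator (fun _ => 1) t +
        (∑ i ∈ P, e i t) ^ q) := by
      refine lintegral_mono fun t => ?_
      by_cases het : e i t = 0
      · rw [het]; exact zero_le
      · have ht : t ∈ Set.Icc (y i - h i) (y i + h i) := by
          have := hsupp i hi t het
          rw [abs_le] at this
          exact ⟨by linarith [this.1], by linarith [this.2]⟩
        rw [Set.indicator_of_mem ht]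
        rcases le_total (e i t) 1 with h | h
        · exact le_trans h le_self_add
        · have h2 : e i t ≤ (e i t) ^ q := by
            conv_lhs => rw [← ENNReal.rpow_one (e i t)]
            exact ENNReal.rpow_le_rpow_of_exponent_le h hq.le
          have h3 : (e i t) ^ q ≤ (∑ i ∈ P, e i t) ^ q :=
            ENNReal.rpow_le_rpow (Finset.single_le_sum (f := fun i => e i t)
              (fun _ _ => zero_le) hi) hq0.le
          exact le_trans (h2.trans h3) le_add_self
    refine ne_top_of_le_ne_top ?_ h1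
    rw [lintegral_add_left (measurable_const.indicator measurableSet_Icc)]
    refine ENNReal.add_ne_top.2 ⟨?_, hEtop⟩
    rw [lintegral_indicator measurableSet_Icc, setLIntegral_const, Real.volume_Icc]
    exact ENNReal.mul_ne_top (by simp) ENNReal.ofReal_ne_top
  obtain ⟨B, hB, hUB⟩ := U_bound P y h hh (fun i => ∫⁻ t, e i t) hfin hq.le
  set U : ℝ → ℝ≥0∞ := fun lam => ∫⁻ x, (F P y h (fun i => ∫⁻ t, e i t) lam x) ^ q with hU
  set V : ℝ≥0∞ := ⨆ lam : {l : ℝ // 1 ≤ l}, U lam with hV
  have hVB : V ≤ B := iSup_le fun l => hUB l l.2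
  have hVtop : V ≠ ∞ := ne_top_of_le_ne_top hB hVB
  have hUV : ∀ l : ℝ, 1 ≤ l → U l ≤ V := fun l hl =>
    le_iSup (fun l : {l : ℝ // 1 ≤ l} => U l) ⟨l, hl⟩
  have hconj : q.HolderConjugate (q / (q - 1)) := Real.HolderConjugate.conjExponent hq
  have hstep : ∀ l : ℝ, 1 ≤ l → U l ≤ K q * (E ^ (1 / q) * V ^ (1 - 1 / q)) := by
    intro l hl
    have h1 := key_ineq P y h hh e he hsupp hq.le hl
    have h2 := ENNReal.lintegral_mul_le_Lp_mul_Lq volume hconj
      (f := fun x => ∑ i ∈ P, e i x)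
      (g := fun x => (F P y h (fun i => ∫⁻ t, e i t) (3 * l) x) ^ (q - 1))
      (Finset.measurable_sum _ fun i hi => he i hi).aemeasurable
      ((measurable_F P y h _ (3 * l)).pow_const _).aemeasurable
    have h3 : ∀ x, ((F P y h (fun i => ∫⁻ t, e i t) (3 * l) x) ^ (q - 1)) ^ (q / (q - 1)) =
        (F P y h (fun i => ∫⁻ t, e i t) (3 * l) x) ^ q := by
      intro x
      rw [← ENNReal.rpow_mul]
      congr 1
      field_simp
    simp only [Pi.mul_apply] at h2
    simp_rw [h3] at h2
    have h4 : (1 : ℝ) / (q / (q - 1)) = 1 - 1 / q := by field_simp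
    rw [h4] at h2
    calc U l ≤ ENNReal.ofReal q * (3 ^ (q - 1) *
        ∫⁻ x, (∑ i ∈ P, e i x) * (F P y h (fun i => ∫⁻ t, e i t) (3 * l) x) ^ (q - 1)) := h1
      _ ≤ ENNReal.ofReal q * (3 ^ (q - 1) * (E ^ (1 / q) * (U (3 * l)) ^ (1 - 1 / q))) := by
          gcongr
      _ ≤ ENNReal.ofReal q * (3 ^ (q - 1) * (E ^ (1 / q) * V ^ (1 - 1 / q))) := by
          have h5 : (U (3 * l)) ^ (1 - 1 / q) ≤ V ^ (1 - 1 / q) := by
            refine ENNReal.rpow_le_rpow (hUV _ (by linarith)) ?_
            rw [sub_nonneg, div_le_one hq0]; exact hq.le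
          gcongr
      _ = K q * (E ^ (1 / q) * V ^ (1 - 1 / q)) := by unfold K; ring
  have hVle : V ≤ K q * (E ^ (1 / q) * V ^ (1 - 1 / q)) := iSup_le fun l => hstep l l.2
  have hfinal : V ≤ (K q) ^ q * E := by
    by_cases hV0 : V = 0
    · rw [hV0]; exact zero_le
    · have h1 : V ^ (1 / q) ≤ K q * E ^ (1 / q) := by
        have h2 : V = V ^ (1 / q) * V ^ (1 - 1 / q) := by
          rw [← ENNReal.rpow_add _ _ hV0 hVtop]
          simp
        have h3 : V ^ (1 - 1 / q) ≠ 0 := by
          rw [ne_eq, ENNReal.rpow_eq_zero_iff]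
          push Not
          exact ⟨fun h => absurd h hV0, fun h => absurd h hVtop⟩
        have h4 : V ^ (1 - 1 / q) ≠ ∞ := by
          refine ENNReal.rpow_ne_top_of_nonneg ?_ hVtop
          rw [sub_nonneg, div_le_one hq0]; exact hq.le
        rw [← ENNReal.mul_le_mul_iff_left h3 h4, ← h2]
        calc V ≤ K q * (E ^ (1 / q) * V ^ (1 - 1 / q)) := hVle
          _ = _ := by ring
      calc V = (V ^ (1 / q)) ^ q := by
            rw [← ENNReal.rpow_mul, one_div_mul_cancel hq0.ne', ENNReal.rpow_one]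
        _ ≤ (K q * E ^ (1 / q)) ^ q := ENNReal.rpow_le_rpow h1 hq0.le
        _ = (K q) ^ q * E := by
            rw [ENNReal.mul_rpow_of_nonneg _ _ hq0.le, ← ENNReal.rpow_mul,
              one_div_mul_cancel hq0.ne', ENNReal.rpow_one]
  exact (hUV lam hlam).trans hfinal

theorem jensen_tsum (X : ℕ → ℝ≥0∞) {q : ℝ} (hq : 1 ≤ q) :
    (∑' l : ℕ, (1 / 2 : ℝ≥0∞) ^ (l + 1) * X l) ^ q ≤
      ∑' l : ℕ, (1 / 2 : ℝ≥0∞) ^ (l + 1) * (X l) ^ q := by
  have hq0 : 0 < q := by linarith
  have hsum : ∀ n : ℕ, ∑ l ∈ Finset.range n, (1 / 2 : ℝ≥0∞) ^ (l + 1) + (1 / 2) ^ n = 1 := by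
    intro n
    induction n with
    | zero => simp
    | succ n ih =>
      rw [Finset.sum_range_succ, add_assoc]
      have : (1 / 2 : ℝ≥0∞) ^ (n + 1) + (1 / 2) ^ (n + 1) = (1 / 2) ^ n := by
        rw [pow_succ, ← mul_add]
        simp [ENNReal.inv_two_add_inv_two]
      rw [this, ih]
  have h1 := (ENNReal.continuous_rpow_const (y := q)).tendsto
    (∑' l : ℕ, (1 / 2 : ℝ≥0∞) ^ (l + 1) * X l)
  have h2 := h1.comp (ENNReal.tendsto_nat_tsum (fun l : ℕ => (1 / 2 : ℝ≥0∞) ^ (l + 1) * X l))
  refine le_of_tendsto' h2 fun n => ?_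
  simp only [Function.comp_apply]
  have h3 := ENNReal.rpow_arith_mean_le_arith_mean_rpow (Finset.range (n + 1))
    (fun l => if l < n then (1 / 2 : ℝ≥0∞) ^ (l + 1) else (1 / 2) ^ n)
    (fun l => if l < n then X l else 0) (by
      rw [Finset.sum_range_succ]
      have e1 : ∑ l ∈ Finset.range n, (if l < n then (1 / 2 : ℝ≥0∞) ^ (l + 1) else (1 / 2) ^ n) =
          ∑ l ∈ Finset.range n, (1 / 2 : ℝ≥0∞) ^ (l + 1) := by
        refine Finset.sum_congr rfl fun l hl => ?_
        rw [if_pos (Finset.mem_range.1 hl)]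
      rw [e1, if_neg (lt_irrefl n)]
      exact hsum n) hq
  rw [Finset.sum_range_succ, Finset.sum_range_succ] at h3
  simp only [lt_self_iff_false, if_false, mul_zero, add_zero, ENNReal.zero_rpow_of_pos hq0] at h3
  have h4 : ∑ l ∈ Finset.range n, (1 / 2 : ℝ≥0∞) ^ (l + 1) * X l =
      ∑ l ∈ Finset.range n, (if l < n then (1 / 2 : ℝ≥0∞) ^ (l + 1) else (1 / 2) ^ n) *
        (if l < n then X l else 0) := by
    refine Finset.sum_congr rfl fun l hl => ?_
    rw [if_pos (Finset.mem_range.1 hl), if_pos (Finset.mem_range.1 hl)]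
  have h5 : ∑ l ∈ Finset.range n, (if l < n then (1 / 2 : ℝ≥0∞) ^ (l + 1) else (1 / 2) ^ n) *
        (if l < n then X l else 0) ^ q =
      ∑ l ∈ Finset.range n, (1 / 2 : ℝ≥0∞) ^ (l + 1) * (X l) ^ q := by
    refine Finset.sum_congr rfl fun l hl => ?_
    rw [if_pos (Finset.mem_range.1 hl), if_pos (Finset.mem_range.1 hl)]
  rw [h4]
  refine h3.trans ?_
  rw [h5]
  exact ENNReal.sum_le_tsum _

/-- the weight `1/(1+t^2)` -/
noncomputable def wt (t : ℝ) : ℝ≥0∞ := ENNReal.ofReal (1 / (1 + t ^ 2))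

theorem measurable_wt : Measurable wt := by
  unfold wt
  fun_prop

theorem wt_le_one (t : ℝ) : wt t ≤ 1 := by
  unfold wt
  rw [← ENNReal.ofReal_one]
  apply ENNReal.ofReal_le_ofReal
  rw [div_le_one (by positivity)]
  nlinarith [sq_nonneg t]

theorem wt_le_tsum (t : ℝ) :
    wt t ≤ ∑' l : ℕ, ENNReal.ofReal (4 * (1 / 4) ^ l) *
      (Set.Icc (-(2 : ℝ) ^ l) (2 ^ l)).indicator (fun _ => 1) t := by
  classical
  have hex : ∃ l : ℕ, |t| ≤ 2 ^ l := by
    obtain ⟨l, hl⟩ := pow_unbounded_of_one_lt |t| (by norm_num : (1 : ℝ) < 2)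
    exact ⟨l, hl.le⟩
  set l := Nat.find hex with hl
  have h1 : |t| ≤ 2 ^ l := Nat.find_spec hex
  refine le_trans ?_ (ENNReal.le_tsum l)
  have hmem : t ∈ Set.Icc (-(2 : ℝ) ^ l) (2 ^ l) := by
    rw [abs_le] at h1; exact h1
  rw [Set.indicator_of_mem hmem, mul_one]
  unfold wt
  apply ENNReal.ofReal_le_ofReal
  rcases Nat.eq_zero_or_pos l with h0 | hpos
  · rw [h0]
    simp only [pow_zero, mul_one]
    rw [div_le_iff₀ (by positivity)]
    nlinarith [sq_nonneg t]
  · obtain ⟨m, hm⟩ : ∃ m, l = m + 1 := ⟨l - 1, by omega⟩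
    have h2 : ¬ |t| ≤ 2 ^ m := by
      apply Nat.find_min hex
      rw [← hl]; omega
    push Not at h2
    rw [hm, div_le_iff₀ (by positivity)]
    have h3 : (4 : ℝ) ^ m ≤ t ^ 2 := by
      rw [← sq_abs t]
      calc (4 : ℝ) ^ m = (2 ^ m) ^ 2 := by rw [← pow_mul, mul_comm, pow_mul]; norm_num
        _ ≤ |t| ^ 2 := by gcongr
    have h4 : (0 : ℝ) < 4 ^ m := by positivity
    have h5 : 4 * (1 / 4 : ℝ) ^ (m + 1) * (1 + t ^ 2) = (1 + t ^ 2) / 4 ^ m := by
      rw [pow_succ (1 / 4 : ℝ) m, one_div, inv_pow]; field_simp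
    rw [h5, le_div_iff₀ h4]
    linarith

/-- one dimensional averaging inequality with polynomial tails -/
theorem W_rpow_le {ι : Type*} (P : Finset ι) (y h : ι → ℝ) (hh : ∀ i ∈ P, 0 < h i)
    (e : ι → ℝ → ℝ≥0∞) (he : ∀ i ∈ P, Measurable (e i))
    (hsupp : ∀ i ∈ P, ∀ x, e i x ≠ 0 → |x - y i| ≤ h i) {q : ℝ} (hq : 1 < q) :
    ∫⁻ x, (∑ i ∈ P, wt ((x - y i) / h i) / ENNReal.ofReal (2 * h i) * ∫⁻ t, e i t) ^ q ≤
      (8 * K q) ^ q * ∫⁻ x, (∑ i ∈ P, e i x) ^ q := by
  have hq0 : 0 < q := by linarith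
  set G : ℝ → ℝ → ℝ≥0∞ := F P y h (fun i => ∫⁻ t, e i t) with hG
  have hGm : ∀ l, Measurable (G l) := fun l => measurable_F P y h _ l
  have hpt : ∀ x, (∑ i ∈ P, wt ((x - y i) / h i) / ENNReal.ofReal (2 * h i) * ∫⁻ t, e i t) ≤
      8 * ∑' l : ℕ, (1 / 2 : ℝ≥0∞) ^ (l + 1) * G (2 ^ l) x := by
    intro x
    have h1 : ∀ i ∈ P, wt ((x - y i) / h i) / ENNReal.ofReal (2 * h i) * ∫⁻ t, e i t ≤
        ∑' l : ℕ, 8 * ((1 / 2 : ℝ≥0∞) ^ (l + 1) *
          ((∫⁻ t, e i t) / ENNReal.ofReal (2 * 2 ^ l * h i) *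
          (Set.Icc (y i - 2 ^ l * h i) (y i + 2 ^ l * h i)).indicator (fun _ => 1) x)) := by
      intro i hi
      have hhi := hh i hi
      calc wt ((x - y i) / h i) / ENNReal.ofReal (2 * h i) * ∫⁻ t, e i t
          = wt ((x - y i) / h i) * ((ENNReal.ofReal (2 * h i))⁻¹ * ∫⁻ t, e i t) := by
            rw [ENNReal.div_eq_inv_mul]; ring
        _ ≤ (∑' l : ℕ, ENNReal.ofReal (4 * (1 / 4) ^ l) *
            (Set.Icc (-(2 : ℝ) ^ l) (2 ^ l)).indicator (fun _ => 1) ((x - y i) / h i)) *
            ((ENNReal.ofReal (2 * h i))⁻¹ * ∫⁻ t, e i t) := by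
            gcongr; exact wt_le_tsum _
        _ = ∑' l : ℕ, ENNReal.ofReal (4 * (1 / 4) ^ l) *
            (Set.Icc (-(2 : ℝ) ^ l) (2 ^ l)).indicator (fun _ => 1) ((x - y i) / h i) *
            ((ENNReal.ofReal (2 * h i))⁻¹ * ∫⁻ t, e i t) := by
            rw [ENNReal.tsum_mul_right]
        _ = _ := by
            refine tsum_congr fun l => ?_
            have hind : (Set.Icc (-(2 : ℝ) ^ l) (2 ^ l)).indicator (fun _ => (1 : ℝ≥0∞))
                ((x - y i) / h i) =
                (Set.Icc (y i - 2 ^ l * h i) (y i + 2 ^ l * h i)).indicator (fun _ => 1) x := by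
              by_cases hx : x ∈ Set.Icc (y i - 2 ^ l * h i) (y i + 2 ^ l * h i)
              · have hx' : (x - y i) / h i ∈ Set.Icc (-(2 : ℝ) ^ l) (2 ^ l) := by
                  simp only [Set.mem_Icc] at hx ⊢
                  rw [le_div_iff₀ hhi, div_le_iff₀ hhi]
                  constructor <;> nlinarith [hx.1, hx.2]
                rw [Set.indicator_of_mem hx, Set.indicator_of_mem hx']
              · have hx' : (x - y i) / h i ∉ Set.Icc (-(2 : ℝ) ^ l) (2 ^ l) := by
                  intro hc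
                  apply hx
                  simp only [Set.mem_Icc] at hc ⊢
                  rw [le_div_iff₀ hhi, div_le_iff₀ hhi] at hc
                  constructor <;> nlinarith [hc.1, hc.2]
                rw [Set.indicator_of_notMem hx, Set.indicator_of_notMem hx']
            rw [hind]
            have hc1 : ENNReal.ofReal (4 * (1 / 4) ^ l) =
                8 * ((1 / 2 : ℝ≥0∞) ^ (l + 1) * (2 ^ l)⁻¹) := by
              have h8 : (8 : ℝ≥0∞) * ((1 / 2 : ℝ≥0∞) ^ (l + 1) * (2 ^ l)⁻¹) =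
                  ENNReal.ofReal (8 * ((1 / 2) ^ (l + 1) * (2 ^ l)⁻¹)) := by
                rw [ENNReal.ofReal_mul (by norm_num), ENNReal.ofReal_mul (by positivity),
                  ENNReal.ofReal_pow (by norm_num), ENNReal.ofReal_inv_of_pos (by positivity),
                  ENNReal.ofReal_pow (by norm_num), ENNReal.ofReal_div_of_pos (by norm_num)]
                simp
              rw [h8]
              congr 1
              rw [pow_succ, show (4 : ℝ) * (1 / 4) ^ l = 4 * ((1 / 2) ^ l * (1 / 2) ^ l) by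
                rw [← mul_pow]; norm_num]
              rw [one_div, inv_pow]
              ring
            have hc2 : ENNReal.ofReal (2 * 2 ^ l * h i) = 2 ^ l * ENNReal.ofReal (2 * h i) := by
              rw [show 2 * 2 ^ l * h i = 2 ^ l * (2 * h i) by ring,
                ENNReal.ofReal_mul (by positivity), ENNReal.ofReal_pow (by norm_num)]
              simp
            have hc3 : (∫⁻ t, e i t) / (2 ^ l * ENNReal.ofReal (2 * h i)) =
                (2 ^ l)⁻¹ * ((ENNReal.ofReal (2 * h i))⁻¹ * ∫⁻ t, e i t) := by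
              rw [ENNReal.div_eq_inv_mul, ENNReal.mul_inv (Or.inl (by positivity))
                (Or.inl (by finiteness)), mul_assoc]
            rw [hc1, hc2, hc3]
            ring
    calc (∑ i ∈ P, wt ((x - y i) / h i) / ENNReal.ofReal (2 * h i) * ∫⁻ t, e i t)
        ≤ ∑ i ∈ P, ∑' l : ℕ, 8 * ((1 / 2 : ℝ≥0∞) ^ (l + 1) *
          ((∫⁻ t, e i t) / ENNReal.ofReal (2 * 2 ^ l * h i) *
          (Set.Icc (y i - 2 ^ l * h i) (y i + 2 ^ l * h i)).indicator (fun _ => 1) x)) :=
          Finset.sum_le_sum h1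
      _ = ∑' l : ℕ, ∑ i ∈ P, 8 * ((1 / 2 : ℝ≥0∞) ^ (l + 1) *
          ((∫⁻ t, e i t) / ENNReal.ofReal (2 * 2 ^ l * h i) *
          (Set.Icc (y i - 2 ^ l * h i) (y i + 2 ^ l * h i)).indicator (fun _ => 1) x)) := by
          rw [← Summable.tsum_finsetSum fun i _ => ENNReal.summable]
      _ = _ := by
          rw [← ENNReal.tsum_mul_left]
          refine tsum_congr fun l => ?_
          rw [← Finset.mul_sum, ← Finset.mul_sum]
          rfl
  calc ∫⁻ x, (∑ i ∈ P, wt ((x - y i) / h i) / ENNReal.ofReal (2 * h i) * ∫⁻ t, e i t) ^ q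
      ≤ ∫⁻ x, (8 * ∑' l : ℕ, (1 / 2 : ℝ≥0∞) ^ (l + 1) * G (2 ^ l) x) ^ q :=
        lintegral_mono fun x => ENNReal.rpow_le_rpow (hpt x) hq0.le
    _ ≤ ∫⁻ x, 8 ^ q * ∑' l : ℕ, (1 / 2 : ℝ≥0∞) ^ (l + 1) * (G (2 ^ l) x) ^ q := by
        refine lintegral_mono fun x => ?_
        rw [ENNReal.mul_rpow_of_nonneg _ _ hq0.le]
        exact mul_le_mul_right (jensen_tsum _ hq.le) _
    _ = 8 ^ q * ∑' l : ℕ, (1 / 2 : ℝ≥0∞) ^ (l + 1) * ∫⁻ x, (G (2 ^ l) x) ^ q := by
        rw [lintegral_const_mul _ (Measurable.tsum fun l =>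
          ((hGm _).pow_const _).const_mul _)]
        rw [lintegral_tsum fun l => (((hGm _).pow_const _).const_mul _).aemeasurable]
        congr 1
        refine tsum_congr fun l => ?_
        rw [lintegral_const_mul _ ((hGm _).pow_const _)]
    _ ≤ 8 ^ q * ∑' l : ℕ, (1 / 2 : ℝ≥0∞) ^ (l + 1) *
          ((K q) ^ q * ∫⁻ x, (∑ i ∈ P, e i x) ^ q) := by
        refine mul_le_mul_right (ENNReal.tsum_le_tsum fun l => ?_) _
        refine mul_le_mul_right ?_ _
        exact F_rpow_le P y h hh e he hsupp hq (one_le_pow₀ (by norm_num))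
    _ = _ := by
        rw [ENNReal.tsum_mul_right]
        have hs : ∑' l : ℕ, (1 / 2 : ℝ≥0∞) ^ (l + 1) = 1 := by
          simp_rw [pow_succ]
          rw [ENNReal.tsum_mul_right]
          simp [ENNReal.mul_inv_cancel]
        rw [hs, one_mul, ENNReal.mul_rpow_of_nonneg _ _ hq0.le]
        ring

/-- partially averaged functions -/
noncomputable def et {ι : Type*} {d : ℕ} (y h : ι → Fin d → ℝ) (e : ι → (Fin d → ℝ) → ℝ≥0∞)
    (t : Finset (Fin d)) (i : ι) (x : Fin d → ℝ) : ℝ≥0∞ :=
  (∏ c ∈ t, wt ((x c - y i c) / h i c) / ENNReal.ofReal (2 * h i c)) *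
    (lmarginal (fun _ => volume) t (e i)) x

theorem measurable_et {ι : Type*} {d : ℕ} (y h : ι → Fin d → ℝ)
    (e : ι → (Fin d → ℝ) → ℝ≥0∞) (t : Finset (Fin d)) (i : ι) (he : Measurable (e i)) :
    Measurable (et y h e t i) := by
  unfold et
  refine Measurable.mul ?_ (he.lmarginal _)
  refine Finset.measurable_prod _ fun c _ => ?_
  refine Measurable.div_const ?_ _
  refine measurable_wt.comp ?_
  fun_prop

theorem et_rpow_le {ι : Type*} {d : ℕ} (P : Finset ι) (y h : ι → Fin d → ℝ)
    (hh : ∀ i ∈ P, ∀ c, 0 < h i c)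
    (e : ι → (Fin d → ℝ) → ℝ≥0∞) (he : ∀ i ∈ P, Measurable (e i))
    (hsupp : ∀ i ∈ P, ∀ x, e i x ≠ 0 → ∀ c, |x c - y i c| ≤ h i c) {q : ℝ} (hq : 1 < q)
    (t : Finset (Fin d)) :
    ∫⁻ x, (∑ i ∈ P, et y h e t i x) ^ q ≤
      ((8 * K q) ^ q) ^ t.card * ∫⁻ x, (∑ i ∈ P, e i x) ^ q := by
  classical
  induction t using Finset.induction_on with
  | empty =>
    simp only [Finset.card_empty, pow_zero, one_mul]
    refine le_of_eq (lintegral_congr fun x => ?_)
    congr 1
    refine Finset.sum_congr rfl fun i _ => ?_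
    simp [et]
  | insert c t hct ih =>
    have hm1 : ∀ s : Finset (Fin d), Measurable fun x => (∑ i ∈ P, et y h e s i x) ^ q := fun s =>
      (Finset.measurable_sum _ fun i hi => measurable_et y h e s i (he i hi)).pow_const _
    have hmain : ∫⁻ x, (∑ i ∈ P, et y h e (insert c t) i x) ^ q ≤
        ∫⁻ x, (8 * K q) ^ q * (∑ i ∈ P, et y h e t i x) ^ q := by
      rw [volume_pi]
      refine lintegral_le_of_lmarginal_le {c} (hm1 _) ((hm1 _).const_mul _) ?_
      rw [lmarginal_singleton, lmarginal_singleton]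
      intro x
      simp only
      have hupd : Measurable (fun τ : ℝ => Function.update x c τ) := measurable_update x
      have hm2 : ∀ i ∈ P, Measurable (fun τ : ℝ => et y h e t i (Function.update x c τ)) :=
        fun i hi => (measurable_et y h e t i (he i hi)).comp hupd
      rw [lintegral_const_mul _ ((Finset.measurable_sum _ hm2).pow_const _)]
      have h1 := W_rpow_le P (fun i => y i c) (fun i => h i c) (fun i hi => hh i hi c)
        (fun i τ => et y h e t i (Function.update x c τ)) hm2 (by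
          intro i hi τ hτ
          by_contra hcon
          apply hτ
          simp only [et]
          have h0 : lmarginal (fun _ => volume) t (e i) (Function.update x c τ) = 0 := by
            unfold lmarginal
            rw [lintegral_eq_zero_iff]
            · refine Filter.Eventually.of_forall fun z => ?_
              simp only [Pi.zero_apply]
              by_contra hne
              have := hsupp i hi _ hne c
              rw [Function.updateFinset] at this
              simp only [hct, dif_neg, not_false_eq_true, Function.update_self] at this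
              exact hcon this
            · exact (he i hi).comp measurable_updateFinset
          rw [h0, mul_zero]) hq
      refine le_trans (le_of_eq ?_) h1
      refine lintegral_congr fun τ => ?_
      congr 1
      refine Finset.sum_congr rfl fun i hi => ?_
      simp only [et]
      rw [Finset.prod_insert hct, lmarginal_update_of_mem _ (Finset.mem_insert_self c t),
        lmarginal_insert _ (he i hi) hct]
      have hprod : ∀ τ' : ℝ, ∏ c' ∈ t, wt ((Function.update x c τ' c' - y i c') / h i c') /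
          ENNReal.ofReal (2 * h i c') =
          ∏ c' ∈ t, wt ((x c' - y i c') / h i c') / ENNReal.ofReal (2 * h i c') := by
        intro τ'
        refine Finset.prod_congr rfl fun c' hc' => ?_
        have : c' ≠ c := fun hcc => hct (hcc ▸ hc')
        rw [Function.update_of_ne this]
      simp_rw [hprod]
      have hm3 : Measurable fun τ' : ℝ =>
          lmarginal (fun _ => volume) t (e i) (Function.update x c τ') :=
        ((he i hi).lmarginal _).comp hupd
      rw [lintegral_const_mul _ hm3]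
      simp only [Function.update_self]
      ring
    refine hmain.trans ?_
    rw [lintegral_const_mul _ (hm1 t), Finset.card_insert_of_notMem hct, pow_succ]
    calc (8 * K q) ^ q * ∫⁻ x, (∑ i ∈ P, et y h e t i x) ^ q
        ≤ (8 * K q) ^ q * (((8 * K q) ^ q) ^ t.card * ∫⁻ x, (∑ i ∈ P, e i x) ^ q) := by
          gcongr
      _ = _ := by ring

/-- the `d` dimensional averaging inequality with polynomial tails -/
theorem box_rpow_le {ι : Type*} {d : ℕ} (P : Finset ι) (y h : ι → Fin d → ℝ)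
    (hh : ∀ i ∈ P, ∀ c, 0 < h i c)
    (e : ι → (Fin d → ℝ) → ℝ≥0∞) (he : ∀ i ∈ P, Measurable (e i))
    (hsupp : ∀ i ∈ P, ∀ x, e i x ≠ 0 → ∀ c, |x c - y i c| ≤ h i c) {q : ℝ} (hq : 1 < q) :
    ∫⁻ x : Fin d → ℝ, (∑ i ∈ P, (∏ c, wt ((x c - y i c) / h i c) / ENNReal.ofReal (2 * h i c)) *
      ∫⁻ z, e i z) ^ q ≤
      ((8 * K q) ^ q) ^ d * ∫⁻ x, (∑ i ∈ P, e i x) ^ q := by
  have h1 := et_rpow_le P y h hh e he hsupp hq Finset.univ
  rw [Finset.card_univ, Fintype.card_fin] at h1
  refine le_trans (le_of_eq ?_) h1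
  refine lintegral_congr fun x => ?_
  congr 1
  refine Finset.sum_congr rfl fun i _ => ?_
  simp only [et]
  congr 1
  rw [lmarginal_univ, volume_pi]

end Pool.Agent.Helper150.Avg
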