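import Mathlib

namespace Pool.Agent.Helper150.Frolov

open MeasureTheory
open scoped ENNReal ContDiff

/-- `φ 0, φ 1, φ 2, …` is a smooth dyadic resolution of unity on the real line: the functions are
smooth, `φ 0` lives on `|ξ| ≤ b`, `φ k` lives on `b⁻¹ 2^k ≤ |ξ| ≤ b 2^k` for `k ≥ 1`, the `m`-th
derivative of `φ k` is at most `c_m 2^{-km}`, and the functions sum up to one. -/
structure IsDyadicResolution (φ : ℕ → ℝ → ℝ) : Prop where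
  smooth : ∀ k, ContDiff ℝ ∞ (φ k)
  supp : ∃ b : ℝ, 0 < b ∧ (∀ ξ, φ 0 ξ ≠ 0 → |ξ| ≤ b) ∧
    ∀ k, 1 ≤ k → ∀ ξ, φ k ξ ≠ 0 → b⁻¹ * 2 ^ k ≤ |ξ| ∧ |ξ| ≤ b * 2 ^ k
  deriv_bound : ∀ m : ℕ, ∃ c : ℝ, ∀ k ξ, |iteratedDeriv m (φ k) ξ| ≤ c / (2 ^ k) ^ m
  sum_eq_one : ∀ ξ, ∑' k, φ k ξ = 1

/-- The Fourier transform `F f (ξ) = ∫ exp(-2πi x·ξ) f(x) dx` on `ℝ^d`. -/
noncomputable def fourierT {d : ℕ} (f : (Fin d → ℝ) → ℂ) (ξ : Fin d → ℝ) : ℂ :=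
  ∫ x : Fin d → ℝ, Complex.exp (-(2 * Real.pi * Complex.I * ∑ j, (x j : ℂ) * ξ j)) * f x

/-- The dyadic block `F⁻¹(φ_s F f)(x)` with `φ_s = φ_{s_1} ⊗ ⋯ ⊗ φ_{s_d}`. -/
noncomputable def block {d : ℕ} (φ : ℕ → ℝ → ℝ) (s : Fin d → ℕ) (f : (Fin d → ℝ) → ℂ)
    (x : Fin d → ℝ) : ℂ :=
  ∫ ξ : Fin d → ℝ, Complex.exp (2 * Real.pi * Complex.I * ∑ j, (x j : ℂ) * ξ j) *
    ((∏ j, (φ (s j) (ξ j) : ℂ)) * fourierT f ξ)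

/-- The norm of the Sobolev space `W^r_p(ℝ^d)` of dominating mixed smoothness:
the `L_p` norm of `(∑_s 2^{2r|s|_1} |F⁻¹(φ_s F f)|²)^{1/2}`. -/
noncomputable def mixedNorm {d : ℕ} (φ : ℕ → ℝ → ℝ) (r p : ℝ) (f : (Fin d → ℝ) → ℂ) : ℝ≥0∞ :=
  (∫⁻ x : Fin d → ℝ, (∑' s : Fin d → ℕ,
    ENNReal.ofReal ((2 : ℝ) ^ (2 * r * ∑ j, (s j : ℝ)) * ‖block φ s f x‖ ^ 2)) ^ (p / 2)) ^ (1 / p)

/-- The unit ball `U` of the space of (continuous) functions in `W^r_p(ℝ^d)` that are supported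
in the unit cube `[0,1]^d`. -/
def unitBall {d : ℕ} (φ : ℕ → ℝ → ℝ) (r p : ℝ) : Set ((Fin d → ℝ) → ℂ) :=
  {f | Continuous f ∧ (∀ x, f x ≠ 0 → ∀ j, 0 ≤ x j ∧ x j ≤ 1) ∧ mixedNorm φ r p f ≤ 1}

/-- Frolov's cubature rule `Φ(a,A)(f) = (a^d |det A|)⁻¹ ∑_m f((A⁻¹)ᵀ m / a)`. -/
noncomputable def frolovRule {d : ℕ} (A : Matrix (Fin d) (Fin d) ℝ) (a : ℝ)
    (f : (Fin d → ℝ) → ℂ) : ℂ :=
  ((a ^ d * |A.det| : ℝ) : ℂ)⁻¹ *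
    ∑' m : Fin d → ℤ, f (a⁻¹ • (A⁻¹).transpose.mulVec (fun j => (m j : ℝ)))

/-- The worst-case error of Frolov's rule on the unit ball `U`. -/
noncomputable def worstError {d : ℕ} (φ : ℕ → ℝ → ℝ) (r p : ℝ) (A : Matrix (Fin d) (Fin d) ℝ)
    (a : ℝ) : ℝ≥0∞ :=
  ⨆ f ∈ unitBall φ r p, ENNReal.ofReal ‖frolovRule A a f - ∫ x : Fin d → ℝ, f x‖

/-- The known upper bound: `a^{-rd} (log a)^{(d-1)(1-r)}` for `r < 1/2` and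
`a^{-rd} (log a)^{(d-1)/2} (log log a)^{1/2}` for `r = 1/2`. -/
noncomputable def rate (d : ℕ) (r a : ℝ) : ℝ :=
  if r < 1 / 2 then a ^ (-(r * d)) * Real.log a ^ (((d : ℝ) - 1) * (1 - r))
  else a ^ (-(r * d)) * Real.log a ^ (((d : ℝ) - 1) / 2) * Real.sqrt (Real.log (Real.log a))

end Pool.Agent.Helper150.Frolov
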