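import Mathlib
import Pool.Agent.Helper150.FrolovDefs

namespace Pool.Agent.Helper150.Blocks

open MeasureTheory Complex
open Pool.Agent.Helper150.Frolov

/-- product bump `∏_j β(2^{s_j}(x_j - y_j))` -/
noncomputable def prodBump {d : ℕ} (β : ℝ → ℂ) (s : Fin d → ℕ) (y : Fin d → ℝ)
    (x : Fin d → ℝ) : ℂ :=
  ∏ j, β (2 ^ (s j) * (x j - y j))

variable {β H : ℝ → ℂ}

theorem one_dim_fourier
    (hFT : ∀ ξ : ℝ, ∫ x : ℝ, cexp (-(2 * Real.pi * I * (x * ξ))) * β x = H ξ)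
    (s : ℕ) (y ξ : ℝ) :
    ∫ x : ℝ, cexp (-(2 * Real.pi * I * (x * ξ))) * β (2 ^ s * (x - y)) =
      cexp (-(2 * Real.pi * I * (y * ξ))) * ((((2 : ℝ) ^ s)⁻¹ : ℝ) * H (((2 : ℝ) ^ s)⁻¹ * ξ)) := by
  set a : ℝ := (2 : ℝ) ^ s with ha
  have ha0 : 0 < a := by positivity
  set g : ℝ → ℂ := fun z => cexp (-(2 * Real.pi * I * ((y + a⁻¹ * z : ℝ) * ξ))) * β z with hg
  have h1 : ∀ x : ℝ, cexp (-(2 * Real.pi * I * (x * ξ))) * β (a * (x - y)) =
      g (a * (x - y)) := by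
    intro x
    simp only [hg]
    congr 2
    have : (y + a⁻¹ * (a * (x - y)) : ℝ) = x := by field_simp; ring
    rw [this]
  simp_rw [h1]
  have h2 : ∫ x : ℝ, g (a * (x - y)) = ∫ x : ℝ, g (a * x) :=
    integral_sub_right_eq_self (fun x => g (a * x)) y
  rw [h2, Measure.integral_comp_mul_left]
  rw [abs_of_pos (inv_pos.2 ha0), ← hFT]
  have h3 : ∀ z : ℝ, g z = cexp (-(2 * Real.pi * I * (y * ξ))) *
      (cexp (-(2 * Real.pi * I * (z * ((a⁻¹ * ξ : ℝ) : ℂ)))) * β z) := by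
    intro z
    simp only [hg]
    rw [← mul_assoc (cexp (-(2 * Real.pi * I * (y * ξ)))), ← Complex.exp_add]
    congr 2
    push_cast
    ring
  simp_rw [h3]
  rw [integral_const_mul, Complex.real_smul]
  ring

theorem continuous_prodBump {d : ℕ} (hβ : Continuous β) (s : Fin d → ℕ) (y : Fin d → ℝ) :
    Continuous (prodBump β s y) := by
  unfold prodBump
  fun_prop

theorem prodBump_ne_zero {d : ℕ} (hsupp : ∀ x, β x ≠ 0 → |x| ≤ 1) (s : Fin d → ℕ)
    (y x : Fin d → ℝ) (hx : prodBump β s y x ≠ 0) (j : Fin d) :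
    |x j - y j| ≤ ((2 : ℝ) ^ (s j))⁻¹ := by
  unfold prodBump at hx
  rw [Finset.prod_ne_zero_iff] at hx
  have h1 := hsupp _ (hx j (Finset.mem_univ j))
  rw [abs_mul, abs_of_pos (by positivity : (0 : ℝ) < 2 ^ s j)] at h1
  rw [← one_div, le_div_iff₀ (by positivity), mul_comm]
  exact h1

theorem hasCompactSupport_prodBump {d : ℕ} (hsupp : ∀ x, β x ≠ 0 → |x| ≤ 1) (s : Fin d → ℕ)
    (y : Fin d → ℝ) : HasCompactSupport (prodBump β s y) := by
  refine HasCompactSupport.intro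
    (K := Set.Icc (fun j => y j - ((2 : ℝ) ^ (s j))⁻¹) (fun j => y j + ((2 : ℝ) ^ (s j))⁻¹))
    isCompact_Icc fun x hx => ?_
  by_contra hne
  apply hx
  rw [Set.mem_Icc, Pi.le_def, Pi.le_def]
  constructor <;> intro j <;> have := abs_le.1 (prodBump_ne_zero hsupp s y x hne j) <;>
    linarith [this.1, this.2]

theorem integrable_exp_prodBump {d : ℕ} (hβ : Continuous β) (hsupp : ∀ x, β x ≠ 0 → |x| ≤ 1)
    (s : Fin d → ℕ) (y ξ : Fin d → ℝ) :
    Integrable (fun x : Fin d → ℝ =>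
      cexp (-(2 * Real.pi * I * ∑ j, (x j : ℂ) * ξ j)) * prodBump β s y x) := by
  refine Continuous.integrable_of_hasCompactSupport ?_ ?_
  · exact Continuous.mul (by fun_prop) (continuous_prodBump hβ s y)
  · exact (hasCompactSupport_prodBump hsupp s y).mul_left

theorem fourier_prodBump {d : ℕ}
    (hFT : ∀ ξ : ℝ, ∫ x : ℝ, cexp (-(2 * Real.pi * I * (x * ξ))) * β x = H ξ)
    (s : Fin d → ℕ) (y ξ : Fin d → ℝ) :
    fourierT (prodBump β s y) ξ = ∏ j, (cexp (-(2 * Real.pi * I * (y j * ξ j))) *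
      ((((2 : ℝ) ^ (s j))⁻¹ : ℝ) * H (((2 : ℝ) ^ (s j))⁻¹ * ξ j))) := by
  unfold fourierT
  have h1 : ∀ x : Fin d → ℝ,
      cexp (-(2 * Real.pi * I * ∑ j, (x j : ℂ) * ξ j)) * prodBump β s y x =
      ∏ j, (cexp (-(2 * Real.pi * I * (x j * ξ j))) * β (2 ^ (s j) * (x j - y j))) := by
    intro x
    rw [Finset.prod_mul_distrib, ← Complex.exp_sum, prodBump]
    congr 2
    rw [Finset.sum_neg_distrib, Finset.mul_sum]
  simp_rw [h1]
  rw [integral_fintype_prod_volume_eq_prod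
    (fun j (t : ℝ) => cexp (-(2 * Real.pi * I * (t * ξ j))) * β (2 ^ (s j) * (t - y j)))]
  refine Finset.prod_congr rfl fun j _ => ?_
  exact one_dim_fourier hFT (s j) (y j) (ξ j)

/-- the one dimensional factors of the blocks -/
noncomputable def factor (φ : ℕ → ℝ → ℝ) (H : ℝ → ℂ) (k s : ℕ) (t : ℝ) : ℂ :=
  ((((2 : ℝ) ^ s)⁻¹ : ℝ) : ℂ) * ∫ x : ℝ, cexp (2 * Real.pi * I * (t * x)) *
        (φ k x * H (((2 : ℝ) ^ s)⁻¹ * x))

theorem block_integrand {d : ℕ} (φ : ℕ → ℝ → ℝ)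
    (hFT : ∀ ξ : ℝ, ∫ x : ℝ, cexp (-(2 * Real.pi * I * (x * ξ))) * β x = H ξ)
    (s s' : Fin d → ℕ) (y x ξ : Fin d → ℝ) :
    cexp (2 * Real.pi * I * ∑ j, (x j : ℂ) * ξ j) *
      ((∏ j, (φ (s' j) (ξ j) : ℂ)) * fourierT (prodBump β s y) ξ) =
    ∏ j, (((((2 : ℝ) ^ (s j))⁻¹ : ℝ) : ℂ) * (cexp (2 * Real.pi * I * ((x j - y j : ℝ) * ξ j)) *
        (φ (s' j) (ξ j) * H (((2 : ℝ) ^ (s j))⁻¹ * ξ j)))) := by
  rw [fourier_prodBump hFT, ← Finset.prod_mul_distrib, Finset.mul_sum, Complex.exp_sum,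
    ← Finset.prod_mul_distrib]
  refine Finset.prod_congr rfl fun j _ => ?_
  have h1 : cexp (2 * Real.pi * I * ((x j - y j : ℝ) * ξ j)) =
      cexp (2 * Real.pi * I * (x j * ξ j)) * cexp (-(2 * Real.pi * I * (y j * ξ j))) := by
    rw [← Complex.exp_add]
    congr 1
    push_cast
    ring
  rw [h1]
  ring

theorem block_prodBump {d : ℕ} (φ : ℕ → ℝ → ℝ)
    (hFT : ∀ ξ : ℝ, ∫ x : ℝ, cexp (-(2 * Real.pi * I * (x * ξ))) * β x = H ξ)
    (s s' : Fin d → ℕ) (y x : Fin d → ℝ) :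
    block φ s' (prodBump β s y) x = ∏ j, factor φ H (s' j) (s j) (x j - y j) := by
  unfold block
  simp_rw [block_integrand φ hFT]
  rw [integral_fintype_prod_volume_eq_prod (fun j (t : ℝ) =>
    ((((2 : ℝ) ^ (s j))⁻¹ : ℝ) : ℂ) * (cexp (2 * Real.pi * I * ((x j - y j : ℝ) * t)) *
        (φ (s' j) t * H (((2 : ℝ) ^ (s j))⁻¹ * t))))]
  refine Finset.prod_congr rfl fun j _ => ?_
  rw [integral_const_mul]
  rfl

theorem block_sum {ι : Type*} {d : ℕ} (φ : ℕ → ℝ → ℝ) (hφ : IsDyadicResolution φ)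
    (hβ : Continuous β) (hsupp : ∀ x, β x ≠ 0 → |x| ≤ 1) (hH : Continuous H)
    (hFT : ∀ ξ : ℝ, ∫ x : ℝ, cexp (-(2 * Real.pi * I * (x * ξ))) * β x = H ξ)
    (P : Finset ι) (c : ℂ) (s : ι → Fin d → ℕ) (y : ι → Fin d → ℝ) (s' : Fin d → ℕ)
    (x : Fin d → ℝ) :
    block φ s' (fun z => c * ∑ i ∈ P, prodBump β (s i) (y i) z) x =
      c * ∑ i ∈ P, ∏ j, factor φ H (s' j) (s i j) (x j - y i j) := by
  have h1 : ∀ ξ : Fin d → ℝ, fourierT (fun z => c * ∑ i ∈ P, prodBump β (s i) (y i) z) ξ =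
      c * ∑ i ∈ P, fourierT (prodBump β (s i) (y i)) ξ := by
    intro ξ
    unfold fourierT
    have h2 : ∀ x : Fin d → ℝ, cexp (-(2 * Real.pi * I * ∑ j, (x j : ℂ) * ξ j)) *
        (c * ∑ i ∈ P, prodBump β (s i) (y i) x) =
        c * ∑ i ∈ P, cexp (-(2 * Real.pi * I * ∑ j, (x j : ℂ) * ξ j)) *
          prodBump β (s i) (y i) x := by
      intro x
      rw [← Finset.mul_sum]
      ring
    simp_rw [h2]
    rw [integral_const_mul, integral_finsetSum]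
    intro i _
    exact integrable_exp_prodBump hβ hsupp _ _ _
  have h3 : block φ s' (fun z => c * ∑ i ∈ P, prodBump β (s i) (y i) z) x =
      ∫ ξ : Fin d → ℝ, c * ∑ i ∈ P, (cexp (2 * Real.pi * I * ∑ j, (x j : ℂ) * ξ j) *
      ((∏ j, (φ (s' j) (ξ j) : ℂ)) * fourierT (prodBump β (s i) (y i)) ξ)) := by
    unfold block
    refine integral_congr_ae (Filter.Eventually.of_forall fun ξ => ?_)
    simp only
    rw [h1, ← Finset.mul_sum, ← Finset.mul_sum]
    ring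
  rw [h3, integral_const_mul, integral_finsetSum]
  · congr 1
    refine Finset.sum_congr rfl fun i _ => ?_
    exact block_prodBump φ hFT (s i) s' (y i) x
  · intro i _
    simp_rw [block_integrand φ hFT]
    rw [volume_pi]
    refine Integrable.fintype_prod (f := fun j (t : ℝ) =>
      ((((2 : ℝ) ^ (s i j))⁻¹ : ℝ) : ℂ) * (cexp (2 * Real.pi * I * ((x j - y i j : ℝ) * t)) *
        (φ (s' j) t * H (((2 : ℝ) ^ (s i j))⁻¹ * t)))) fun j => ?_
    refine Integrable.const_mul ?_ _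
    have hcφ : Continuous (φ (s' j)) := (hφ.smooth _).continuous
    refine Continuous.integrable_of_hasCompactSupport (by fun_prop) ?_
    obtain ⟨b, hb, h0, hk⟩ := hφ.supp
    refine HasCompactSupport.intro (isCompact_Icc (a := -(b * 2 ^ (s' j))) (b := b * 2 ^ (s' j)))
      fun t ht => ?_
    have h4 : φ (s' j) t = 0 := by
      by_contra hne
      apply ht
      rw [Set.mem_Icc, ← abs_le]
      rcases Nat.eq_zero_or_pos (s' j) with hz | hpos
      · rw [hz] at hne ⊢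
        simpa using h0 t hne
      · exact (hk _ hpos t hne).2
    rw [h4]
    simp

end Pool.Agent.Helper150.Blocks
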