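import Mathlib

namespace Pool.Agent.Helper150.Bump

open MeasureTheory Complex
open scoped FourierTransform SchwartzMap ContDiff

theorem schwartz_bound (F : 𝓢(ℝ, ℂ)) : ∃ M : ℝ, 0 ≤ M ∧ ∀ k, k ≤ 12 → ∀ ξ : ℝ,
    |ξ| ^ k * ‖F ξ‖ ≤ M := by
  have h : ∀ k : ℕ, ∃ C : ℝ, 0 ≤ C ∧ ∀ ξ : ℝ, |ξ| ^ k * ‖F ξ‖ ≤ C := by
    intro k
    obtain ⟨C, hC, hd⟩ := F.decay k 0
    refine ⟨C, hC.le, fun ξ => ?_⟩
    have := hd ξ
    simpa using this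
  choose C hC hb using h
  refine ⟨∑ k ∈ Finset.range 13, C k, Finset.sum_nonneg fun k _ => hC k, fun k hk ξ => ?_⟩
  exact (hb k ξ).trans (Finset.single_le_sum (f := C) (fun i _ => hC i)
    (Finset.mem_range.2 (by omega)))

/-- Fourier transform of a smooth compactly supported function, with two derivatives -/
theorem symbol_of_smooth (χ : ℝ → ℂ) (hχ : ContDiff ℝ ∞ χ) (hc : HasCompactSupport χ) :
    ∃ (H H1 H2 : ℝ → ℂ) (C : ℝ), 0 ≤ C ∧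
      (∀ ξ : ℝ, ∫ x : ℝ, cexp (-(2 * Real.pi * I * (x * ξ))) * χ x = H ξ) ∧
      (∀ x, HasDerivAt H (H1 x) x) ∧ (∀ x, HasDerivAt H1 (H2 x) x) ∧ Continuous H2 ∧
      (∀ k, k ≤ 12 → ∀ ξ : ℝ, |ξ| ^ k * ‖H ξ‖ ≤ C ∧ |ξ| ^ k * ‖H1 ξ‖ ≤ C ∧
        |ξ| ^ k * ‖H2 ξ‖ ≤ C) := by
  set Ψ : 𝓢(ℝ, ℂ) := hc.toSchwartzMap hχ with hΨ
  set Θ : 𝓢(ℝ, ℂ) := 𝓕 Ψ with hΘ
  set Θ1 : 𝓢(ℝ, ℂ) := SchwartzMap.derivCLM ℝ ℂ Θ with hΘ1
  set Θ2 : 𝓢(ℝ, ℂ) := SchwartzMap.derivCLM ℝ ℂ Θ1 with hΘ2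
  obtain ⟨M0, hM0, hb0⟩ := schwartz_bound Θ
  obtain ⟨M1, hM1, hb1⟩ := schwartz_bound Θ1
  obtain ⟨M2, hM2, hb2⟩ := schwartz_bound Θ2
  refine ⟨Θ, Θ1, Θ2, M0 + M1 + M2, by positivity, ?_, ?_, ?_, Θ2.continuous, ?_⟩
  · intro ξ
    have h1 : Θ ξ = 𝓕 (Ψ : ℝ → ℂ) ξ := by rw [hΘ, SchwartzMap.fourier_coe]
    rw [h1, Real.fourier_real_eq_integral_exp_smul]
    refine integral_congr_ae (Filter.Eventually.of_forall fun x => ?_)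
    simp only [smul_eq_mul]
    congr 2
    push_cast
    ring
  · intro x
    exact Θ.hasDerivAt x
  · intro x
    exact Θ1.hasDerivAt x
  · intro k hk ξ
    refine ⟨(hb0 k hk ξ).trans (by linarith), (hb1 k hk ξ).trans (by linarith),
      (hb2 k hk ξ).trans (by linarith)⟩

/-- the wavelet-like bump `β = (x^6 χ/720)^{(6)}` -/
theorem exists_bump : ∃ (β H H1 H2 : ℝ → ℂ) (C : ℝ), 0 ≤ C ∧ Continuous β ∧
      (∀ x, β x ≠ 0 → |x| ≤ 1) ∧ β 0 = 1 ∧ (∫ x, β x = 0) ∧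
      (∀ ξ : ℝ, ∫ x : ℝ, cexp (-(2 * Real.pi * I * (x * ξ))) * β x = H ξ) ∧
      (∀ x, HasDerivAt H (H1 x) x) ∧ (∀ x, HasDerivAt H1 (H2 x) x) ∧ Continuous H2 ∧
      (∀ ξ : ℝ, |ξ| ^ 4 * ‖H ξ‖ ≤ C ∧ |ξ| ^ 4 * ‖H1 ξ‖ ≤ C ∧ |ξ| ^ 4 * ‖H2 ξ‖ ≤ C) ∧
      (∀ ξ : ℝ, ‖H ξ‖ ≤ C * |ξ| ^ 4 ∧ ‖H1 ξ‖ ≤ C * |ξ| ^ 4 ∧ ‖H2 ξ‖ ≤ C * |ξ| ^ 4) := by
  set χ : ContDiffBump (0 : ℝ) := ⟨1 / 2, 1, by norm_num, by norm_num⟩ with hχ
  set ψ : ℝ → ℝ := fun x => x ^ 6 * χ x / 720 with hψ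
  set Ψ : ℝ → ℂ := fun x => (ψ x : ℂ) with hΨ
  have hψs : ContDiff ℝ ∞ ψ := by
    rw [hψ]
    exact ((contDiff_id.pow 6).mul χ.contDiff).div_const _
  have hΨs : ContDiff ℝ ∞ Ψ := Complex.ofRealCLM.contDiff.comp hψs
  have hψ0 : ∀ x, 1 ≤ |x| → ψ x = 0 := by
    intro x hx
    have : χ x = 0 := by
      apply χ.zero_of_le_dist
      simpa [hχ] using hx
    simp [hψ, this]
  have hcψ : HasCompactSupport Ψ := by
    refine HasCompactSupport.intro (isCompact_Icc (a := (-1 : ℝ)) (b := 1)) fun x hx => ?_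
    rw [Set.mem_Icc, ← abs_le, not_le] at hx
    rw [hΨ]
    simp only [hψ0 x hx.le, ofReal_zero]
  obtain ⟨Θ, Θ1, Θ2, M, hM, hFT, hd, hd1, hc2, hb⟩ := symbol_of_smooth Ψ hΨs hcψ
  set β : ℝ → ℂ := iteratedDeriv 6 Ψ with hβ
  set K0 : ℂ := (2 * Real.pi * I) ^ 6 with hK0
  have hΨ6 : ∀ n : ℕ, ContDiff ℝ ∞ (iteratedDeriv n Ψ) := by
    intro n
    rw [iteratedDeriv_eq_iterate]
    exact ContDiff.iterate_deriv n hΨs
  have hβc : Continuous β := (hΨ6 6).continuous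
  have hcβ : ∀ n : ℕ, HasCompactSupport (iteratedDeriv n Ψ) := by
    intro n
    induction n with
    | zero => simpa using hcψ
    | succ n ih => rw [iteratedDeriv_succ]; exact ih.deriv
  have hH : ∀ ξ : ℝ, ∫ x : ℝ, cexp (-(2 * Real.pi * I * (x * ξ))) * β x =
      K0 * (ξ ^ 6 * Θ ξ) := by
    intro ξ
    have h1 : 𝓕 β ξ = (2 * Real.pi * I * ξ) ^ 6 • 𝓕 Ψ ξ := by
      have := Real.fourier_iteratedDeriv (N := ⊤) (n := 6) hΨs (fun n _ =>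
        (hΨ6 n).continuous.integrable_of_hasCompactSupport (hcβ n)) (by simp)
      rw [hβ, this]
    have h2 : ∀ v : ℝ → ℂ, ∫ x : ℝ, cexp (-(2 * Real.pi * I * (x * ξ))) * v x = 𝓕 v ξ := by
      intro v
      rw [Real.fourier_real_eq_integral_exp_smul]
      refine integral_congr_ae (Filter.Eventually.of_forall fun x => ?_)
      simp only [smul_eq_mul]
      congr 2
      push_cast
      ring
    rw [h2, h1, ← h2, hFT, smul_eq_mul, hK0]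
    ring
  set H : ℝ → ℂ := fun ξ => K0 * ((ξ : ℂ) ^ 6 * Θ ξ) with hHdef
  set H1 : ℝ → ℂ := fun ξ => K0 * (6 * (ξ : ℂ) ^ 5 * Θ ξ + (ξ : ℂ) ^ 6 * Θ1 ξ) with hH1def
  set H2 : ℝ → ℂ := fun ξ => K0 * ((30 * (ξ : ℂ) ^ 4 * Θ ξ + 6 * (ξ : ℂ) ^ 5 * Θ1 ξ) +
    (6 * (ξ : ℂ) ^ 5 * Θ1 ξ + (ξ : ℂ) ^ 6 * Θ2 ξ)) with hH2def
  have hpow : ∀ n : ℕ, ∀ x : ℝ, HasDerivAt (fun ξ : ℝ => (ξ : ℂ) ^ (n + 1))
      (((n : ℂ) + 1) * (x : ℂ) ^ n) x := by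
    intro n x
    have h1 : HasDerivAt (fun ξ : ℝ => ((ξ ^ (n + 1) : ℝ) : ℂ))
        (((n + 1 : ℕ) * x ^ n : ℝ) : ℂ) x := by
      have := (hasDerivAt_pow (n + 1) x).ofReal_comp
      simpa using this
    simpa using h1
  have hcΘ : Continuous Θ := continuous_iff_continuousAt.2 fun x => (hd x).continuousAt
  have hcΘ1 : Continuous Θ1 := continuous_iff_continuousAt.2 fun x => (hd1 x).continuousAt
  have hdH : ∀ x, HasDerivAt H (H1 x) x := by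
    intro x
    have h1 := ((hpow 5 x).mul (hd x)).const_mul K0
    refine h1.congr_deriv ?_
    rw [hH1def]
    push_cast
    ring
  have hdH1 : ∀ x, HasDerivAt H1 (H2 x) x := by
    intro x
    have h1 := ((((hpow 4 x).const_mul (6 : ℂ)).mul (hd x)).add
      ((hpow 5 x).mul (hd1 x))).const_mul K0
    refine h1.congr_deriv ?_
    rw [hH2def]
    push_cast
    ring
  refine ⟨β, H, H1, H2, ‖K0‖ * (43 * M), by positivity, hβc, ?_, ?_, ?_, hH, hdH, hdH1, ?_, ?_, ?_⟩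
  · -- support
    intro x hx
    by_contra hcon
    push Not at hcon
    apply hx
    have hev : Ψ =ᶠ[nhds x] fun _ => (0 : ℂ) := by
      have : {z : ℝ | 1 < |z|} ∈ nhds x :=
        (isOpen_lt continuous_const continuous_abs).mem_nhds hcon
      filter_upwards [this] with z hz
      rw [hΨ]
      simp only [hψ0 z (le_of_lt hz), ofReal_zero]
    rw [hβ, hev.iteratedDeriv_eq]
    simp
  · -- value at zero
    have hev : Ψ =ᶠ[nhds 0] fun x : ℝ => (((1 / 720 : ℝ) * x ^ 6 : ℝ) : ℂ) := by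
      have : Metric.ball (0 : ℝ) (1 / 2) ∈ nhds (0 : ℝ) := Metric.ball_mem_nhds _ (by norm_num)
      filter_upwards [this] with z hz
      have h1 : χ z = 1 := by
        apply χ.one_of_mem_closedBall
        simp only [hχ]
        exact Metric.ball_subset_closedBall hz
      simp only [hΨ, hψ, h1]
      push_cast
      ring
    rw [hβ, hev.iteratedDeriv_eq]
    have hit : ∀ n : ℕ, n ≤ 6 → iteratedDeriv n (fun x : ℝ => (((1 / 720 : ℝ) * x ^ 6 : ℝ) : ℂ)) =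
        fun x : ℝ => ((((Nat.descFactorial 6 n : ℕ) : ℝ) / 720 * x ^ (6 - n) : ℝ) : ℂ) := by
      intro n
      induction n with
      | zero =>
        intro _
        ext x
        simp [iteratedDeriv_zero]
      | succ n ih =>
        intro hn
        rw [iteratedDeriv_succ, ih (by omega)]
        ext x
        have h1 : HasDerivAt (fun x : ℝ => (((Nat.descFactorial 6 n : ℕ) : ℝ) / 720 * x ^ (6 - n)))
            (((Nat.descFactorial 6 n : ℕ) : ℝ) / 720 * (((6 - n : ℕ) : ℝ) * x ^ (6 - n - 1))) x :=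
          (hasDerivAt_pow (6 - n) x).const_mul _
        rw [h1.ofReal_comp.deriv, Nat.descFactorial_succ]
        congr 1
        rw [show 6 - (n + 1) = 6 - n - 1 by omega, Nat.cast_mul]
        ring
    rw [hit 6 le_rfl]
    norm_num [Nat.descFactorial]
  · -- zero mean
    have h1 := hH 0
    simpa using h1
  · rw [hH2def]
    fun_prop
  · intro ξ
    have n1 : ‖(ξ : ℂ)‖ = |ξ| := by rw [Complex.norm_real, Real.norm_eq_abs]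
    have k6 : ‖(6 : ℂ)‖ = 6 := by norm_num
    have k30 : ‖(30 : ℂ)‖ = 30 := by norm_num
    have a1 := (hb 10 (by norm_num) ξ).1
    have a2 := (hb 9 (by norm_num) ξ).1
    have a3 := (hb 8 (by norm_num) ξ).1
    have b1 := (hb 10 (by norm_num) ξ).2.1
    have b2 := (hb 9 (by norm_num) ξ).2.1
    have e1 := (hb 10 (by norm_num) ξ).2.2
    refine ⟨?_, ?_, ?_⟩
    · rw [hHdef]
      simp only [norm_mul, norm_pow, n1]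
      calc |ξ| ^ 4 * (‖K0‖ * (|ξ| ^ 6 * ‖Θ ξ‖)) = ‖K0‖ * (|ξ| ^ 10 * ‖Θ ξ‖) := by ring
        _ ≤ ‖K0‖ * (43 * M) := mul_le_mul_of_nonneg_left (by linarith) (norm_nonneg _)
    · rw [hH1def]
      simp only [norm_mul]
      calc |ξ| ^ 4 * (‖K0‖ * ‖6 * (ξ : ℂ) ^ 5 * Θ ξ + (ξ : ℂ) ^ 6 * Θ1 ξ‖)
          ≤ |ξ| ^ 4 * (‖K0‖ * (‖6 * (ξ : ℂ) ^ 5 * Θ ξ‖ + ‖(ξ : ℂ) ^ 6 * Θ1 ξ‖)) := by
            gcongr; exact norm_add_le _ _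
        _ = ‖K0‖ * (6 * (|ξ| ^ 9 * ‖Θ ξ‖) + |ξ| ^ 10 * ‖Θ1 ξ‖) := by
            simp only [norm_mul, norm_pow, n1, k6, k30]; ring
        _ ≤ ‖K0‖ * (43 * M) := mul_le_mul_of_nonneg_left (by linarith) (norm_nonneg _)
    · rw [hH2def]
      simp only [norm_mul]
      calc |ξ| ^ 4 * (‖K0‖ * ‖(30 * (ξ : ℂ) ^ 4 * Θ ξ + 6 * (ξ : ℂ) ^ 5 * Θ1 ξ) +
            (6 * (ξ : ℂ) ^ 5 * Θ1 ξ + (ξ : ℂ) ^ 6 * Θ2 ξ)‖)
          ≤ |ξ| ^ 4 * (‖K0‖ * ((‖30 * (ξ : ℂ) ^ 4 * Θ ξ‖ + ‖6 * (ξ : ℂ) ^ 5 * Θ1 ξ‖) +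
            (‖6 * (ξ : ℂ) ^ 5 * Θ1 ξ‖ + ‖(ξ : ℂ) ^ 6 * Θ2 ξ‖))) := by
            gcongr
            exact (norm_add_le _ _).trans (add_le_add (norm_add_le _ _) (norm_add_le _ _))
        _ = ‖K0‖ * (30 * (|ξ| ^ 8 * ‖Θ ξ‖) + 12 * (|ξ| ^ 9 * ‖Θ1 ξ‖) + |ξ| ^ 10 * ‖Θ2 ξ‖) := by
            simp only [norm_mul, norm_pow, n1, k6, k30]; ring
        _ ≤ ‖K0‖ * (43 * M) := mul_le_mul_of_nonneg_left (by linarith) (norm_nonneg _)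
  · intro ξ
    have n1 : ‖(ξ : ℂ)‖ = |ξ| := by rw [Complex.norm_real, Real.norm_eq_abs]
    have k6 : ‖(6 : ℂ)‖ = 6 := by norm_num
    have k30 : ‖(30 : ℂ)‖ = 30 := by norm_num
    have a1 := (hb 2 (by norm_num) ξ).1
    have a2 := (hb 1 (by norm_num) ξ).1
    have a3 := (hb 0 (by norm_num) ξ).1
    have b1 := (hb 2 (by norm_num) ξ).2.1
    have b2 := (hb 1 (by norm_num) ξ).2.1
    have e1 := (hb 2 (by norm_num) ξ).2.2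
    refine ⟨?_, ?_, ?_⟩
    · rw [hHdef]
      simp only [norm_mul, norm_pow, n1]
      calc ‖K0‖ * (|ξ| ^ 6 * ‖Θ ξ‖) = ‖K0‖ * (|ξ| ^ 2 * ‖Θ ξ‖) * |ξ| ^ 4 := by ring
        _ ≤ ‖K0‖ * (43 * M) * |ξ| ^ 4 := mul_le_mul_of_nonneg_right
            (mul_le_mul_of_nonneg_left (by linarith) (norm_nonneg _)) (by positivity)
    · rw [hH1def]
      simp only [norm_mul]
      calc ‖K0‖ * ‖6 * (ξ : ℂ) ^ 5 * Θ ξ + (ξ : ℂ) ^ 6 * Θ1 ξ‖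
          ≤ ‖K0‖ * (‖6 * (ξ : ℂ) ^ 5 * Θ ξ‖ + ‖(ξ : ℂ) ^ 6 * Θ1 ξ‖) := by
            gcongr; exact norm_add_le _ _
        _ = ‖K0‖ * (6 * (|ξ| ^ 1 * ‖Θ ξ‖) + |ξ| ^ 2 * ‖Θ1 ξ‖) * |ξ| ^ 4 := by
            simp only [norm_mul, norm_pow, n1, k6, k30]; ring
        _ ≤ ‖K0‖ * (43 * M) * |ξ| ^ 4 := mul_le_mul_of_nonneg_right
            (mul_le_mul_of_nonneg_left (by linarith) (norm_nonneg _)) (by positivity)
    · rw [hH2def]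
      simp only [norm_mul]
      calc ‖K0‖ * ‖(30 * (ξ : ℂ) ^ 4 * Θ ξ + 6 * (ξ : ℂ) ^ 5 * Θ1 ξ) +
            (6 * (ξ : ℂ) ^ 5 * Θ1 ξ + (ξ : ℂ) ^ 6 * Θ2 ξ)‖
          ≤ ‖K0‖ * ((‖30 * (ξ : ℂ) ^ 4 * Θ ξ‖ + ‖6 * (ξ : ℂ) ^ 5 * Θ1 ξ‖) +
            (‖6 * (ξ : ℂ) ^ 5 * Θ1 ξ‖ + ‖(ξ : ℂ) ^ 6 * Θ2 ξ‖)) := by
            gcongr
            exact (norm_add_le _ _).trans (add_le_add (norm_add_le _ _) (norm_add_le _ _))
        _ = ‖K0‖ * (30 * (|ξ| ^ 0 * ‖Θ ξ‖) + 12 * (|ξ| ^ 1 * ‖Θ1 ξ‖) + |ξ| ^ 2 * ‖Θ2 ξ‖) *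
              |ξ| ^ 4 := by
            simp only [norm_mul, norm_pow, n1, k6, k30]; ring
        _ ≤ ‖K0‖ * (43 * M) * |ξ| ^ 4 := mul_le_mul_of_nonneg_right
            (mul_le_mul_of_nonneg_left (by linarith) (norm_nonneg _)) (by positivity)

end Pool.Agent.Helper150.Bump
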