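import Mathlib
import Pool.Agent.Helper150.FrolovDefs

namespace Pool.Agent.Helper150.Kernel

open MeasureTheory Complex
open scoped FourierTransform

/-- compactly supported `C²` symbols: size and decay of the inverse Fourier integral -/
theorem kernel_core (u u1 u2 : ℝ → ℂ) (hu : ∀ x, HasDerivAt u (u1 x) x)
    (hu1 : ∀ x, HasDerivAt u1 (u2 x) x) (hu2 : Continuous u2) (R M0 M2 : ℝ) (hR : 0 ≤ R)
    (hs : ∀ x, R < |x| → u x = 0) (hs1 : ∀ x, R < |x| → u1 x = 0) (hs2 : ∀ x, R < |x| → u2 x = 0)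
    (h0 : ∀ x, ‖u x‖ ≤ M0) (h2 : ∀ x, ‖u2 x‖ ≤ M2) (t : ℝ) :
    ‖∫ x : ℝ, cexp (2 * Real.pi * I * (t * x)) * u x‖ ≤ M0 * (2 * R) ∧
      (2 * Real.pi * t) ^ 2 * ‖∫ x : ℝ, cexp (2 * Real.pi * I * (t * x)) * u x‖ ≤ M2 * (2 * R) := by
  have hcu : Continuous u := continuous_iff_continuousAt.2 fun x => (hu x).continuousAt
  have hcu1 : Continuous u1 := continuous_iff_continuousAt.2 fun x => (hu1 x).continuousAt
  have hcs : ∀ v : ℝ → ℂ, (∀ x, R < |x| → v x = 0) → HasCompactSupport v := by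
    intro v hv
    refine HasCompactSupport.intro (isCompact_Icc (a := -R) (b := R)) fun x hx => hv x ?_
    rw [Set.mem_Icc, ← abs_le] at hx
    exact not_le.1 hx
  have hiu : Integrable u := hcu.integrable_of_hasCompactSupport (hcs u hs)
  have hiu1 : Integrable u1 := hcu1.integrable_of_hasCompactSupport (hcs u1 hs1)
  have hiu2 : Integrable u2 := hu2.integrable_of_hasCompactSupport (hcs u2 hs2)
  have hd : deriv u = u1 := funext fun x => (hu x).deriv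
  have hd1 : deriv u1 = u2 := funext fun x => (hu1 x).deriv
  have hF1 : 𝓕 u1 = fun x : ℝ => (2 * Real.pi * I * x) • (𝓕 u x) := by
    rw [← hd]
    exact Real.fourier_deriv hiu (fun x => (hu x).differentiableAt) (by rw [hd]; exact hiu1)
  have hF2 : 𝓕 u2 = fun x : ℝ => (2 * Real.pi * I * x) • (𝓕 u1 x) := by
    rw [← hd1]
    exact Real.fourier_deriv hiu1 (fun x => (hu1 x).differentiableAt) (by rw [hd1]; exact hiu2)
  have hgen : ∀ v : ℝ → ℂ, 𝓕 v (-t) = ∫ x : ℝ, cexp (2 * Real.pi * I * (t * x)) * v x := by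
    intro v
    rw [Real.fourier_real_eq_integral_exp_smul]
    refine integral_congr_ae (Filter.Eventually.of_forall fun x => ?_)
    simp only [smul_eq_mul]
    congr 2
    push_cast
    ring
  have hbound : ∀ (v : ℝ → ℂ) (M : ℝ), (∀ x, R < |x| → v x = 0) → (∀ x, ‖v x‖ ≤ M) →
      ‖𝓕 v (-t)‖ ≤ M * (2 * R) := by
    intro v M hv hM
    rw [hgen]
    have h3 : ∫ x : ℝ, cexp (2 * Real.pi * I * (t * x)) * v x =
        ∫ x in Set.Icc (-R) R, cexp (2 * Real.pi * I * (t * x)) * v x := by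
      symm
      refine setIntegral_eq_integral_of_forall_compl_eq_zero fun x hx => ?_
      rw [Set.mem_Icc, ← abs_le, not_le] at hx
      rw [hv x hx, mul_zero]
    rw [h3]
    have h4 : ∀ x ∈ Set.Icc (-R) R, ‖cexp (2 * Real.pi * I * (t * x)) * v x‖ ≤ M := by
      intro x _
      rw [norm_mul]
      have h5 : ‖cexp (2 * Real.pi * I * (t * x))‖ = 1 := by
        rw [show (2 * Real.pi * I * (t * x) : ℂ) = ((2 * Real.pi * (t * x) : ℝ) : ℂ) * I by
          push_cast; ring]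
        exact Complex.norm_exp_ofReal_mul_I _
      rw [h5, one_mul]
      exact hM x
    have h6 := norm_setIntegral_le_of_norm_le_const (μ := volume) (by
      rw [Real.volume_Icc]; exact ENNReal.ofReal_lt_top) h4
    refine h6.trans (le_of_eq ?_)
    rw [Measure.real, Real.volume_Icc, ENNReal.toReal_ofReal (by linarith)]
    ring
  constructor
  · rw [← hgen]; exact hbound u M0 hs h0
  · rw [← hgen]
    have h7 := hbound u2 M2 hs2 h2
    rw [hF2] at h7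
    simp only at h7
    rw [hF1] at h7
    simp only [smul_eq_mul, norm_mul] at h7
    have h8 : ‖(2 : ℂ)‖ * ‖((Real.pi : ℝ) : ℂ)‖ * ‖I‖ * ‖(((-t : ℝ)) : ℂ)‖ = 2 * Real.pi * |t| := by
      simp [abs_of_pos Real.pi_pos]
    rw [h8] at h7
    calc (2 * Real.pi * t) ^ 2 * ‖𝓕 u (-t)‖ =
        2 * Real.pi * |t| * (2 * Real.pi * |t| * ‖𝓕 u (-t)‖) := by
          rw [← sq_abs (2 * Real.pi * t), abs_mul, abs_mul, abs_of_pos Real.pi_pos]
          norm_num
          ring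
      _ ≤ M2 * (2 * R) := h7

open Pool.Agent.Helper150.Frolov in
/-- decay of the blocks of a dilated symbol -/
theorem kernel_bound (φ : ℕ → ℝ → ℝ) (hφ : IsDyadicResolution φ) :
    ∃ b : ℝ, 0 < b ∧ ∀ C' : ℝ, 0 ≤ C' → ∃ C : ℝ, 0 ≤ C ∧
    ∀ (H H1 H2 : ℝ → ℂ) (_ : ∀ x, HasDerivAt H (H1 x) x) (_ : ∀ x, HasDerivAt H1 (H2 x) x)
      (_ : Continuous H2) (s : ℕ)
      (_ : ∀ (k : ℕ) (ξ : ℝ), |ξ| ≤ b * 2 ^ k → (1 ≤ k → b⁻¹ * 2 ^ k ≤ |ξ|) →
        ‖H (((2 : ℝ) ^ s)⁻¹ * ξ)‖ ≤ C' * (1 / 16) ^ (Nat.dist k s) ∧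
        ‖H1 (((2 : ℝ) ^ s)⁻¹ * ξ)‖ ≤ C' * (1 / 16) ^ (Nat.dist k s) ∧
        ‖H2 (((2 : ℝ) ^ s)⁻¹ * ξ)‖ ≤ C' * (1 / 16) ^ (Nat.dist k s)) (k : ℕ) (t : ℝ),
      ((2 : ℝ) ^ s)⁻¹ * ‖∫ x : ℝ, cexp (2 * Real.pi * I * (t * x)) *
        (φ k x * H (((2 : ℝ) ^ s)⁻¹ * x))‖ ≤
        C * (1 / 8) ^ (Nat.dist k s) * (1 / (1 + (2 ^ s * t) ^ 2)) := by
  obtain ⟨b, hb, hsupp0, hsuppk⟩ := hφ.supp
  obtain ⟨c0, hc0⟩ := hφ.deriv_bound 0
  obtain ⟨c1, hc1⟩ := hφ.deriv_bound 1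
  obtain ⟨c2, hc2⟩ := hφ.deriv_bound 2
  have hc0' : 0 ≤ c0 := by
    have := (abs_nonneg _).trans (hc0 0 0)
    simpa using this
  have hc1' : 0 ≤ c1 := by
    have := (abs_nonneg _).trans (hc1 0 0)
    simpa using this
  have hc2' : 0 ≤ c2 := by
    have := (abs_nonneg _).trans (hc2 0 0)
    simpa using this
  refine ⟨b, hb, fun C' hC' => ⟨2 * b * C' * (c0 + (c2 + 2 * c1 + c0)), by positivity, ?_⟩⟩
  intro H H1 H2 hH hH1 hH2c s hreg k t
  set σ : ℝ := ((2 : ℝ) ^ s)⁻¹ with hσ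
  have hσpos : 0 < σ := by positivity
  set D : ℕ := Nat.dist k s with hD
  -- the region where `φ k` lives
  set Kset : Set ℝ := {ξ | |ξ| ≤ b * 2 ^ k ∧ (1 ≤ k → b⁻¹ * 2 ^ k ≤ |ξ|)} with hK
  have hKclosed : IsClosed Kset := by
    rw [hK, Set.ofPred_and]
    refine IsClosed.inter (isClosed_le continuous_abs continuous_const) ?_
    by_cases hk : 1 ≤ k
    · simp only [hk, true_imp_iff]
      exact isClosed_le continuous_const continuous_abs
    · simp [hk]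
  have hzero : ∀ x, x ∉ Kset → φ k x = 0 := by
    intro x hx
    by_contra hne
    apply hx
    rcases Nat.eq_zero_or_pos k with h0 | hpos
    · subst h0
      refine ⟨by simpa using hsupp0 x hne, fun h => absurd h (by norm_num)⟩
    · have := hsuppk k hpos x hne
      exact ⟨this.2, fun _ => this.1⟩
  have hzeroN : ∀ m x, x ∉ Kset → iteratedDeriv m (φ k) x = 0 := by
    intro m x hx
    have hev : φ k =ᶠ[nhds x] fun _ => (0 : ℝ) := by
      filter_upwards [hKclosed.isOpen_compl.mem_nhds hx] with z hz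
      exact hzero z hz
    rw [hev.iteratedDeriv_eq]
    simp
  set p0 : ℝ → ℝ := φ k with hp0
  set p1 : ℝ → ℝ := deriv (φ k) with hp1
  set p2 : ℝ → ℝ := deriv (deriv (φ k)) with hp2
  have hsm := hφ.smooth k
  have hdp0 : ∀ x, HasDerivAt p0 (p1 x) x := fun x =>
    (hsm.differentiable (by simp) x).hasDerivAt
  have hsm1 : ContDiff ℝ (⊤ : ℕ∞) (deriv (φ k)) := by
    have := (contDiff_infty_iff_deriv (f := φ k)).1 hsm
    exact this.2
  have hsm2 : ContDiff ℝ (⊤ : ℕ∞) (deriv (deriv (φ k))) := by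
    have := (contDiff_infty_iff_deriv (f := deriv (φ k))).1 hsm1
    exact this.2
  have hdp1 : ∀ x, HasDerivAt p1 (p2 x) x := fun x =>
    (hsm1.differentiable (by simp) x).hasDerivAt
  have hcp2 : Continuous p2 := hsm2.continuous
  have hi1 : iteratedDeriv 1 (φ k) = p1 := by rw [iteratedDeriv_one]
  have hi2 : iteratedDeriv 2 (φ k) = p2 := by
    rw [iteratedDeriv_succ, iteratedDeriv_one]
  have hz0 : ∀ x, x ∉ Kset → p0 x = 0 := hzero
  have hz1 : ∀ x, x ∉ Kset → p1 x = 0 := fun x hx => by rw [← hi1]; exact hzeroN 1 x hx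
  have hz2 : ∀ x, x ∉ Kset → p2 x = 0 := fun x hx => by rw [← hi2]; exact hzeroN 2 x hx
  have hb0 : ∀ x, |p0 x| ≤ c0 := fun x => by simpa using hc0 k x
  have hb1 : ∀ x, |p1 x| ≤ c1 / 2 ^ k := fun x => by
    have := hc1 k x; rw [hi1, pow_one] at this; exact this
  have hb2 : ∀ x, |p2 x| ≤ c2 / (2 ^ k) ^ 2 := fun x => by
    have := hc2 k x; rw [hi2] at this; exact this
  -- derivatives of the symbol
  have hcomp : ∀ (G G' : ℝ → ℂ), (∀ x, HasDerivAt G (G' x) x) →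
      ∀ x, HasDerivAt (fun x => G (σ * x)) (σ * G' (σ * x)) x := by
    intro G G' hG x
    have h1 : HasDerivAt (fun x : ℝ => σ * x) σ x := by
      simpa using (hasDerivAt_id x).const_mul σ
    have h2 := (hG (σ * x)).scomp x h1
    simpa [Function.comp_def] using h2
  have hcastd : ∀ (p p' : ℝ → ℝ), (∀ x, HasDerivAt p (p' x) x) →
      ∀ x, HasDerivAt (fun x => (p x : ℂ)) (p' x : ℂ) x := fun p p' hp x => (hp x).ofReal_comp
  set u : ℝ → ℂ := fun x => p0 x * H (σ * x) with hu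
  set u1 : ℝ → ℂ := fun x => p1 x * H (σ * x) + p0 x * (σ * H1 (σ * x)) with hu1
  set u2 : ℝ → ℂ := fun x => (p2 x * H (σ * x) + p1 x * (σ * H1 (σ * x))) +
    (p1 x * (σ * H1 (σ * x)) + p0 x * (σ * (σ * H2 (σ * x)))) with hu2
  have hdu : ∀ x, HasDerivAt u (u1 x) x := fun x =>
    (hcastd p0 p1 hdp0 x).mul (hcomp H H1 hH x)
  have hdu1 : ∀ x, HasDerivAt u1 (u2 x) x := fun x =>
    ((hcastd p1 p2 hdp1 x).mul (hcomp H H1 hH x)).add
      ((hcastd p0 p1 hdp0 x).mul ((hcomp H1 H2 hH1 x).const_mul (σ : ℂ)))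
  have hcH : Continuous H := continuous_iff_continuousAt.2 fun x => (hH x).continuousAt
  have hcH1 : Continuous H1 := continuous_iff_continuousAt.2 fun x => (hH1 x).continuousAt
  have hcp0 : Continuous p0 := continuous_iff_continuousAt.2 fun x => (hdp0 x).continuousAt
  have hcp1 : Continuous p1 := continuous_iff_continuousAt.2 fun x => (hdp1 x).continuousAt
  have hcu2 : Continuous u2 := by
    rw [hu2]; fun_prop
  -- size bounds
  set E : ℝ := C' * (1 / 16) ^ D with hE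
  have hE0 : 0 ≤ E := by positivity
  have hR : 0 ≤ b * 2 ^ k := by positivity
  have hout : ∀ x, b * 2 ^ k < |x| → x ∉ Kset := fun x hx hx' => absurd hx'.1 (not_le.2 hx)
  have h0 : ∀ x, ‖u x‖ ≤ c0 * E := by
    intro x
    by_cases hx : x ∈ Kset
    · rw [hu]; simp only [norm_mul, Complex.norm_real, Real.norm_eq_abs]
      exact mul_le_mul (hb0 x) (hreg k x hx.1 hx.2).1 (norm_nonneg _) hc0'
    · rw [hu]; simp only [hz0 x hx, ofReal_zero, zero_mul, norm_zero]; positivity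
  have h2 : ∀ x, ‖u2 x‖ ≤ (c2 / (2 ^ k) ^ 2 + 2 * (c1 / 2 ^ k) * σ + c0 * σ ^ 2) * E := by
    intro x
    by_cases hx : x ∈ Kset
    · obtain ⟨g0, g1, g2⟩ := hreg k x hx.1 hx.2
      have e1 : ‖(p2 x : ℂ) * H (σ * x)‖ ≤ c2 / (2 ^ k) ^ 2 * E := by
        rw [norm_mul, Complex.norm_real, Real.norm_eq_abs]
        exact mul_le_mul (hb2 x) g0 (norm_nonneg _) (by positivity)
      have e2 : ‖(p1 x : ℂ) * (σ * H1 (σ * x))‖ ≤ (c1 / 2 ^ k) * (σ * E) := by
        rw [norm_mul, norm_mul, Complex.norm_real, Complex.norm_real, Real.norm_eq_abs,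
          Real.norm_eq_abs, abs_of_pos hσpos]
        exact mul_le_mul (hb1 x) (mul_le_mul_of_nonneg_left g1 hσpos.le) (by positivity)
          (by positivity)
      have e3 : ‖(p0 x : ℂ) * (σ * (σ * H2 (σ * x)))‖ ≤ c0 * (σ * (σ * E)) := by
        rw [norm_mul, norm_mul, norm_mul, Complex.norm_real, Complex.norm_real, Real.norm_eq_abs,
          Real.norm_eq_abs, abs_of_pos hσpos]
        exact mul_le_mul (hb0 x) (mul_le_mul_of_nonneg_left
          (mul_le_mul_of_nonneg_left g2 hσpos.le) hσpos.le) (by positivity) hc0'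
      rw [hu2]
      simp only
      calc ‖((p2 x : ℂ) * H (σ * x) + p1 x * (σ * H1 (σ * x))) +
          (p1 x * (σ * H1 (σ * x)) + p0 x * (σ * (σ * H2 (σ * x))))‖
          ≤ ‖(p2 x : ℂ) * H (σ * x) + p1 x * (σ * H1 (σ * x))‖ +
            ‖(p1 x : ℂ) * (σ * H1 (σ * x)) + p0 x * (σ * (σ * H2 (σ * x)))‖ := norm_add_le _ _
        _ ≤ (‖(p2 x : ℂ) * H (σ * x)‖ + ‖(p1 x : ℂ) * (σ * H1 (σ * x))‖) +
            (‖(p1 x : ℂ) * (σ * H1 (σ * x))‖ + ‖(p0 x : ℂ) * (σ * (σ * H2 (σ * x)))‖) :=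
            add_le_add (norm_add_le _ _) (norm_add_le _ _)
        _ ≤ (c2 / (2 ^ k) ^ 2 * E + (c1 / 2 ^ k) * (σ * E)) +
            ((c1 / 2 ^ k) * (σ * E) + c0 * (σ * (σ * E))) := by gcongr
        _ = _ := by ring
    · rw [hu2]; simp only [hz0 x hx, hz1 x hx, hz2 x hx, ofReal_zero, zero_mul, add_zero,
        norm_zero]; positivity
  have hcore := kernel_core u u1 u2 hdu hdu1 hcu2 (b * 2 ^ k) _ _ hR
    (fun x hx => by rw [hu]; simp only [hz0 x (hout x hx), ofReal_zero, zero_mul])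
    (fun x hx => by rw [hu1]; simp only [hz0 x (hout x hx), hz1 x (hout x hx), ofReal_zero,
      zero_mul, add_zero])
    (fun x hx => by rw [hu2]; simp only [hz0 x (hout x hx), hz1 x (hout x hx), hz2 x (hout x hx),
      ofReal_zero, zero_mul, add_zero]) h0 h2 t
  set g : ℝ := ‖∫ x : ℝ, cexp (2 * Real.pi * I * (t * x)) * u x‖ with hg
  have hg0 : 0 ≤ g := norm_nonneg _
  -- powers of two
  have hr : (2 : ℝ) ^ k * σ ≤ 2 ^ D := by
    rw [hσ, ← div_eq_mul_inv, div_le_iff₀ (by positivity), ← pow_add]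
    apply pow_le_pow_right₀ (by norm_num)
    rw [hD, Nat.dist]; omega
  have hr' : ((2 : ℝ) ^ k)⁻¹ * 2 ^ s ≤ 2 ^ D := by
    rw [mul_comm, ← div_eq_mul_inv, div_le_iff₀ (by positivity), ← pow_add]
    apply pow_le_pow_right₀ (by norm_num)
    rw [hD, Nat.dist]; omega
  have hD2 : (1 : ℝ) ≤ 2 ^ D := one_le_pow₀ (by norm_num)
  have h16 : (2 : ℝ) ^ D * (1 / 16) ^ D = (1 / 8) ^ D := by
    rw [← mul_pow]; norm_num
  have hσs : σ * 2 ^ s = 1 := by rw [hσ]; exact inv_mul_cancel₀ (by positivity)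
  have hA : σ * g ≤ 2 * b * C' * c0 * (1 / 8) ^ D := by
    calc σ * g ≤ σ * (c0 * E * (2 * (b * 2 ^ k))) := by
          exact mul_le_mul_of_nonneg_left hcore.1 hσpos.le
      _ = 2 * b * C' * c0 * ((2 ^ k * σ) * (1 / 16) ^ D) := by rw [hE]; ring
      _ ≤ 2 * b * C' * c0 * (2 ^ D * (1 / 16) ^ D) := by gcongr
      _ = _ := by rw [h16]
  have hB : (2 ^ s * t) ^ 2 * (σ * g) ≤ 2 * b * C' * (c2 + 2 * c1 + c0) * (1 / 8) ^ D := by
    have h5 : t ^ 2 * g ≤ (2 * Real.pi * t) ^ 2 * g := by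
      refine mul_le_mul_of_nonneg_right ?_ hg0
      rw [mul_pow]
      have : (1 : ℝ) ≤ (2 * Real.pi) ^ 2 := by
        have := Real.pi_gt_three
        nlinarith
      nlinarith [sq_nonneg t]
    calc (2 ^ s * t) ^ 2 * (σ * g) = (2 ^ s) ^ 2 * σ * (t ^ 2 * g) := by ring
      _ ≤ (2 ^ s) ^ 2 * σ * ((c2 / (2 ^ k) ^ 2 + 2 * (c1 / 2 ^ k) * σ + c0 * σ ^ 2) * E *
          (2 * (b * 2 ^ k))) := by
          refine mul_le_mul_of_nonneg_left (h5.trans hcore.2) (by positivity)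
      _ = 2 * b * C' * (c2 * (((2 : ℝ) ^ k)⁻¹ * 2 ^ s) * (σ * 2 ^ s) +
            2 * c1 * (σ * 2 ^ s) * (σ * 2 ^ s) +
            c0 * (2 ^ k * σ) * (σ * 2 ^ s) * (σ * 2 ^ s)) * (1 / 16) ^ D := by
          rw [hE]; field_simp
      _ = 2 * b * C' * (c2 * (((2 : ℝ) ^ k)⁻¹ * 2 ^ s) + 2 * c1 * 1 + c0 * (2 ^ k * σ)) *
            (1 / 16) ^ D := by rw [hσs]; ring
      _ ≤ 2 * b * C' * (c2 * 2 ^ D + 2 * c1 * 2 ^ D + c0 * 2 ^ D) * (1 / 16) ^ D := by gcongr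
      _ = 2 * b * C' * (c2 + 2 * c1 + c0) * (2 ^ D * (1 / 16) ^ D) := by ring
      _ = _ := by rw [h16]
  have hpos : 0 < 1 + (2 ^ s * t) ^ 2 := by positivity
  rw [mul_one_div, le_div_iff₀ hpos]
  calc σ * g * (1 + (2 ^ s * t) ^ 2) = σ * g + (2 ^ s * t) ^ 2 * (σ * g) := by ring
    _ ≤ 2 * b * C' * c0 * (1 / 8) ^ D + 2 * b * C' * (c2 + 2 * c1 + c0) * (1 / 8) ^ D :=
        add_le_add hA hB
    _ = _ := by ring

end Pool.Agent.Helper150.Kernel
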