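import Mathlib
import Pool.Agent.Helper150.FrolovDefs
import Pool.Agent.Helper150.Avg
import Pool.Agent.Helper150.Kernel
import Pool.Agent.Helper150.Blocks

namespace Pool.Agent.Helper150.SquareFn

open MeasureTheory
open scoped ENNReal
open Pool.Agent.Helper150.Frolov Pool.Agent.Helper150.Avg Pool.Agent.Helper150.Blocks

theorem tsum_pi_le {d : ℕ} (g : Fin d → ℕ → ℝ≥0∞) :
    ∑' s : Fin d → ℕ, ∏ j, g j (s j) ≤ ∏ j, ∑' k, g j k := by
  classical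
  rw [ENNReal.tsum_eq_iSup_sum]
  refine iSup_le fun F => ?_
  have hsub : F ⊆ Fintype.piFinset (fun j => F.image (fun s => s j)) := by
    intro s hs
    rw [Fintype.mem_piFinset]
    intro j
    exact Finset.mem_image_of_mem _ hs
  calc ∑ s ∈ F, ∏ j, g j (s j)
      ≤ ∑ s ∈ Fintype.piFinset (fun j => F.image (fun s => s j)), ∏ j, g j (s j) :=
        Finset.sum_le_sum_of_subset hsub
    _ = ∏ j, ∑ k ∈ F.image (fun s => s j), g j k := by
        rw [Finset.prod_univ_sum]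
    _ ≤ ∏ j, ∑' k, g j k := Finset.prod_le_prod' fun j _ => ENNReal.sum_le_tsum _

theorem tsum_dist_le (s : ℕ) : ∑' k : ℕ, (1 / 4 : ℝ≥0∞) ^ (Nat.dist k s) ≤ 4 := by
  have hgeo : ∑' m : ℕ, (1 / 4 : ℝ≥0∞) ^ m ≤ 2 := by
    have h1 : ∑' m : ℕ, (1 / 4 : ℝ≥0∞) ^ m ≤ ∑' m : ℕ, (1 / 2 : ℝ≥0∞) ^ m := by
      refine ENNReal.tsum_le_tsum fun m => ?_
      gcongr
      norm_num
    refine h1.trans ?_
    rw [ENNReal.tsum_geometric]
    simp
  have hsplit : ∑' k : ℕ, (1 / 4 : ℝ≥0∞) ^ (Nat.dist k s) =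
      ∑ k ∈ Finset.range s, (1 / 4 : ℝ≥0∞) ^ (Nat.dist k s) +
        ∑' k : ℕ, (1 / 4 : ℝ≥0∞) ^ (Nat.dist (k + s) s) :=
    (Summable.sum_add_tsum_nat_add' (f := fun k => (1 / 4 : ℝ≥0∞) ^ (Nat.dist k s))
      ENNReal.summable).symm
  have h2 : ∑ k ∈ Finset.range s, (1 / 4 : ℝ≥0∞) ^ (Nat.dist k s) ≤ 2 := by
    calc ∑ k ∈ Finset.range s, (1 / 4 : ℝ≥0∞) ^ (Nat.dist k s)
        = ∑ k ∈ Finset.range s, (1 / 4 : ℝ≥0∞) ^ (Nat.dist (s - 1 - k) s) := by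
          rw [Finset.sum_range_reflect (fun k => (1 / 4 : ℝ≥0∞) ^ (Nat.dist k s)) s]
      _ ≤ ∑ k ∈ Finset.range s, (1 / 4 : ℝ≥0∞) ^ k := by
          refine Finset.sum_le_sum fun k hk => ?_
          have hk' := Finset.mem_range.1 hk
          have : Nat.dist (s - 1 - k) s = k + 1 := by unfold Nat.dist; omega
          rw [this]
          exact pow_le_pow_right_of_le_one' (by norm_num) (by omega)
      _ ≤ ∑' m : ℕ, (1 / 4 : ℝ≥0∞) ^ m := ENNReal.sum_le_tsum _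
      _ ≤ 2 := hgeo
  have h3 : ∑' k : ℕ, (1 / 4 : ℝ≥0∞) ^ (Nat.dist (k + s) s) ≤ 2 := by
    refine le_trans (le_of_eq ?_) hgeo
    refine tsum_congr fun k => ?_
    congr 1
    unfold Nat.dist
    omega
  rw [hsplit]
  calc ∑ k ∈ Finset.range s, (1 / 4 : ℝ≥0∞) ^ (Nat.dist k s) +
        ∑' k : ℕ, (1 / 4 : ℝ≥0∞) ^ (Nat.dist (k + s) s) ≤ (2 : ℝ≥0∞) + 2 := add_le_add h2 h3
    _ = 4 := by norm_num

/-- the weight `∏_j 1/(1+(2^{s_j}(x_j-y_j))^2)` -/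
noncomputable def W {d : ℕ} (s : Fin d → ℕ) (y x : Fin d → ℝ) : ℝ≥0∞ :=
  ∏ j, wt (2 ^ (s j) * (x j - y j))

/-- size factor `2^{2r|s|}` -/
noncomputable def rho {d : ℕ} (r : ℝ) (s : Fin d → ℕ) : ℝ≥0∞ :=
  ENNReal.ofReal ((2 : ℝ) ^ (2 * r * ∑ j, (s j : ℝ)))

theorem rho_eq_prod {d : ℕ} (r : ℝ) (s : Fin d → ℕ) :
    rho r s = ∏ j, ENNReal.ofReal ((2 : ℝ) ^ (2 * r * (s j : ℝ))) := by
  unfold rho
  rw [← ENNReal.ofReal_prod_of_nonneg (fun j _ => by positivity), Finset.mul_sum,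
    Real.rpow_sum_of_pos (by norm_num)]

theorem rho_factor {r : ℝ} (hr0 : 0 < r) (hr : r ≤ 1 / 2) (k s : ℕ) :
    ENNReal.ofReal ((2 : ℝ) ^ (2 * r * (k : ℝ))) * (1 / 8 : ℝ≥0∞) ^ (Nat.dist k s) ≤
      ENNReal.ofReal ((2 : ℝ) ^ (2 * r * (s : ℝ))) * (1 / 4 : ℝ≥0∞) ^ (Nat.dist k s) := by
  have h1 : ENNReal.ofReal ((2 : ℝ) ^ (2 * r * (k : ℝ))) ≤
      ENNReal.ofReal ((2 : ℝ) ^ (2 * r * (s : ℝ))) * 2 ^ (Nat.dist k s) := by
    have h2 : (2 : ℝ≥0∞) ^ (Nat.dist k s) = ENNReal.ofReal ((2 : ℝ) ^ ((Nat.dist k s : ℕ) : ℝ)) := by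
      rw [Real.rpow_natCast, ENNReal.ofReal_pow (by norm_num)]
      simp
    rw [h2, ← ENNReal.ofReal_mul (by positivity), ← Real.rpow_add (by norm_num)]
    apply ENNReal.ofReal_le_ofReal
    apply Real.rpow_le_rpow_of_exponent_le (by norm_num)
    have h3 : (k : ℝ) ≤ s + (Nat.dist k s : ℕ) := by
      have : k ≤ s + Nat.dist k s := by unfold Nat.dist; omega
      exact_mod_cast this
    have h4 : (0 : ℝ) ≤ (Nat.dist k s : ℕ) := Nat.cast_nonneg _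
    nlinarith
  calc ENNReal.ofReal ((2 : ℝ) ^ (2 * r * (k : ℝ))) * (1 / 8 : ℝ≥0∞) ^ (Nat.dist k s)
      ≤ (ENNReal.ofReal ((2 : ℝ) ^ (2 * r * (s : ℝ))) * 2 ^ (Nat.dist k s)) *
        (1 / 8 : ℝ≥0∞) ^ (Nat.dist k s) := by gcongr
    _ = _ := by
        rw [mul_assoc, ← mul_pow]
        congr 2
        rw [show (8 : ℝ≥0∞) = 2 * 4 by norm_num, one_div, one_div,
          ENNReal.mul_inv (Or.inl (by norm_num)) (Or.inl (by norm_num)), ← mul_assoc,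
          ENNReal.mul_inv_cancel (by norm_num) (by norm_num), one_mul]

/-- pointwise bound of the square function -/
theorem square_le {ι : Type} {d : ℕ} (φ : ℕ → ℝ → ℝ) (hφ : IsDyadicResolution φ)
    {β H : ℝ → ℂ} (hβ : Continuous β) (hsupp : ∀ x, β x ≠ 0 → |x| ≤ 1) (hH : Continuous H)
    (hFT : ∀ ξ : ℝ, ∫ x : ℝ, Complex.exp (-(2 * Real.pi * Complex.I * (x * ξ))) * β x = H ξ)
    {r : ℝ} (hr0 : 0 < r) (hr : r ≤ 1 / 2) (P : Finset ι) (s : ι → Fin d → ℕ)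
    (y : ι → Fin d → ℝ) {C : ℝ} (hC : 0 ≤ C)
    (hfac : ∀ i ∈ P, ∀ (j : Fin d) (k : ℕ) (t : ℝ), ‖factor φ H k (s i j) t‖ ≤
      C * (1 / 8) ^ (Nat.dist k (s i j)) * (1 / (1 + (2 ^ (s i j) * t) ^ 2)))
    {C0 : ℝ≥0∞} (x : Fin d → ℝ)
    (hC0 : ∀ s' : Fin d → ℕ, ∑ i ∈ P, (∏ j, (1 / 8 : ℝ≥0∞) ^ (Nat.dist (s' j) (s i j))) *
      W (s i) (y i) x ≤ C0) {c : ℝ} (hc : 0 ≤ c) :
    ∑' s' : Fin d → ℕ, ENNReal.ofReal ((2 : ℝ) ^ (2 * r * ∑ j, (s' j : ℝ)) *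
      ‖block φ s' (fun z => (c : ℂ) * ∑ i ∈ P, prodBump β (s i) (y i) z) x‖ ^ 2) ≤
      (ENNReal.ofReal (c * C ^ d)) ^ 2 * C0 * 4 ^ d * ∑ i ∈ P, rho r (s i) * W (s i) (y i) x := by
  set A : ℝ≥0∞ := ENNReal.ofReal (c * C ^ d) with hA
  set X : (Fin d → ℕ) → ℝ≥0∞ := fun s' => ∑ i ∈ P,
    (∏ j, (1 / 8 : ℝ≥0∞) ^ (Nat.dist (s' j) (s i j))) * W (s i) (y i) x with hX
  have hblock : ∀ s' : Fin d → ℕ, ENNReal.ofReal
      ‖block φ s' (fun z => (c : ℂ) * ∑ i ∈ P, prodBump β (s i) (y i) z) x‖ ≤ A * X s' := by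
    intro s'
    rw [block_sum φ hφ hβ hsupp hH hFT]
    have h1 : ‖(c : ℂ) * ∑ i ∈ P, ∏ j, factor φ H (s' j) (s i j) (x j - y i j)‖ ≤
        c * ∑ i ∈ P, ∏ j, (C * (1 / 8) ^ (Nat.dist (s' j) (s i j)) *
          (1 / (1 + (2 ^ (s i j) * (x j - y i j)) ^ 2))) := by
      rw [norm_mul, Complex.norm_real, Real.norm_eq_abs, abs_of_nonneg hc]
      refine mul_le_mul_of_nonneg_left ?_ hc
      refine (norm_sum_le _ _).trans (Finset.sum_le_sum fun i hi => ?_)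
      rw [norm_prod]
      exact Finset.prod_le_prod (fun j _ => norm_nonneg _) fun j _ => hfac i hi j _ _
    refine (ENNReal.ofReal_le_ofReal h1).trans (le_of_eq ?_)
    rw [ENNReal.ofReal_mul hc, ENNReal.ofReal_sum_of_nonneg (fun i _ =>
      Finset.prod_nonneg fun j _ => by positivity)]
    have h2 : ∀ i ∈ P, ENNReal.ofReal (∏ j, (C * (1 / 8) ^ (Nat.dist (s' j) (s i j)) *
          (1 / (1 + (2 ^ (s i j) * (x j - y i j)) ^ 2)))) =
        ENNReal.ofReal (C ^ d) * ((∏ j, (1 / 8 : ℝ≥0∞) ^ (Nat.dist (s' j) (s i j))) *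
          W (s i) (y i) x) := by
      intro i _
      rw [ENNReal.ofReal_prod_of_nonneg (fun j _ => by positivity)]
      have h3 : ∀ j : Fin d, ENNReal.ofReal (C * (1 / 8) ^ (Nat.dist (s' j) (s i j)) *
          (1 / (1 + (2 ^ (s i j) * (x j - y i j)) ^ 2))) =
          ENNReal.ofReal C * ((1 / 8 : ℝ≥0∞) ^ (Nat.dist (s' j) (s i j)) *
            wt (2 ^ (s i j) * (x j - y i j))) := by
        intro j
        rw [mul_assoc, ENNReal.ofReal_mul hC, ENNReal.ofReal_mul (by positivity),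
          ENNReal.ofReal_pow (by norm_num), ENNReal.ofReal_div_of_pos (by norm_num)]
        simp [wt]
      simp_rw [h3]
      rw [Finset.prod_mul_distrib, Finset.prod_mul_distrib, Finset.prod_const, Finset.card_univ,
        Fintype.card_fin, ENNReal.ofReal_pow hC]
      rfl
    rw [Finset.sum_congr rfl h2, ← Finset.mul_sum, hA, hX, ENNReal.ofReal_mul hc, mul_assoc]
  have hterm : ∀ s' : Fin d → ℕ, ENNReal.ofReal ((2 : ℝ) ^ (2 * r * ∑ j, (s' j : ℝ)) *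
      ‖block φ s' (fun z => (c : ℂ) * ∑ i ∈ P, prodBump β (s i) (y i) z) x‖ ^ 2) ≤
      A ^ 2 * C0 * ∑ i ∈ P, (rho r (s i) * W (s i) (y i) x) *
        ∏ j, (1 / 4 : ℝ≥0∞) ^ (Nat.dist (s' j) (s i j)) := by
    intro s'
    rw [ENNReal.ofReal_mul (by positivity), ENNReal.ofReal_pow (norm_nonneg _)]
    calc ENNReal.ofReal ((2 : ℝ) ^ (2 * r * ∑ j, (s' j : ℝ))) *
        (ENNReal.ofReal ‖block φ s'
          (fun z => (c : ℂ) * ∑ i ∈ P, prodBump β (s i) (y i) z) x‖) ^ 2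
        ≤ rho r s' * (A * X s') ^ 2 := by
          unfold rho
          gcongr
          exact hblock s'
      _ = rho r s' * (A ^ 2 * (X s' * X s')) := by ring
      _ ≤ rho r s' * (A ^ 2 * (C0 * X s')) := by gcongr; exact hC0 s'
      _ = A ^ 2 * C0 * ∑ i ∈ P, (rho r s' * ∏ j, (1 / 8 : ℝ≥0∞) ^ (Nat.dist (s' j) (s i j))) *
            W (s i) (y i) x := by
          rw [hX]
          simp only
          rw [show rho r s' * (A ^ 2 * (C0 * ∑ i ∈ P,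
            (∏ j, (1 / 8 : ℝ≥0∞) ^ (Nat.dist (s' j) (s i j))) * W (s i) (y i) x)) =
            A ^ 2 * C0 * (rho r s' * ∑ i ∈ P,
            (∏ j, (1 / 8 : ℝ≥0∞) ^ (Nat.dist (s' j) (s i j))) * W (s i) (y i) x) by ring,
            Finset.mul_sum]
          simp_rw [mul_assoc]
      _ ≤ _ := by
          refine mul_le_mul_right (Finset.sum_le_sum fun i hi => ?_) _
          have h5 : rho r s' * ∏ j, (1 / 8 : ℝ≥0∞) ^ (Nat.dist (s' j) (s i j)) ≤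
              rho r (s i) * ∏ j, (1 / 4 : ℝ≥0∞) ^ (Nat.dist (s' j) (s i j)) := by
            rw [rho_eq_prod, rho_eq_prod, ← Finset.prod_mul_distrib, ← Finset.prod_mul_distrib]
            exact Finset.prod_le_prod' fun j _ => rho_factor hr0 hr _ _
          calc (rho r s' * ∏ j, (1 / 8 : ℝ≥0∞) ^ (Nat.dist (s' j) (s i j))) * W (s i) (y i) x
              ≤ (rho r (s i) * ∏ j, (1 / 4 : ℝ≥0∞) ^ (Nat.dist (s' j) (s i j))) *
                W (s i) (y i) x := by gcongr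
            _ = _ := by ring
  calc _ ≤ ∑' s' : Fin d → ℕ, A ^ 2 * C0 * ∑ i ∈ P, (rho r (s i) * W (s i) (y i) x) *
        ∏ j, (1 / 4 : ℝ≥0∞) ^ (Nat.dist (s' j) (s i j)) := ENNReal.tsum_le_tsum hterm
    _ = A ^ 2 * C0 * ∑ i ∈ P, (rho r (s i) * W (s i) (y i) x) *
        ∑' s' : Fin d → ℕ, ∏ j, (1 / 4 : ℝ≥0∞) ^ (Nat.dist (s' j) (s i j)) := by
        rw [ENNReal.tsum_mul_left, Summable.tsum_finsetSum fun i _ => ENNReal.summable]
        simp_rw [ENNReal.tsum_mul_left]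
    _ ≤ A ^ 2 * C0 * ∑ i ∈ P, (rho r (s i) * W (s i) (y i) x) * 4 ^ d := by
        gcongr with i hi
        refine (tsum_pi_le (fun j k => (1 / 4 : ℝ≥0∞) ^ (Nat.dist k (s i j)))).trans ?_
        calc ∏ j, ∑' k, (1 / 4 : ℝ≥0∞) ^ (Nat.dist k (s i j)) ≤ ∏ _j : Fin d, (4 : ℝ≥0∞) :=
              Finset.prod_le_prod' fun j _ => tsum_dist_le _
          _ = 4 ^ d := by simp
    _ = _ := by
        rw [← Finset.sum_mul]
        ring

theorem volcube {d : ℕ} : volume (Set.Icc (0 : Fin d → ℝ) 1) = 1 := by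
  rw [Real.volume_Icc_pi]
  simp

theorem const_alg (D A T : ℝ≥0∞) {q : ℝ} (hq0 : 0 < q) (d : ℕ) :
    D ^ q * ((A ^ q) ^ d * T ^ q) = (D * A ^ d * T) ^ q := by
  have h1 : (A ^ q) ^ d = (A ^ d) ^ q := by
    rw [← ENNReal.rpow_natCast (A ^ q) d, ← ENNReal.rpow_mul, mul_comm q (d : ℝ),
      ENNReal.rpow_mul, ENNReal.rpow_natCast]
  rw [h1, ENNReal.mul_rpow_of_nonneg (D * A ^ d) T hq0.le,
    ENNReal.mul_rpow_of_nonneg D (A ^ d) hq0.le, mul_assoc]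

theorem sum_rho_W_rpow_le {ι : Type} {d : ℕ} (r : ℝ) (P : Finset ι) (s : ι → Fin d → ℕ)
    (y : ι → Fin d → ℝ) (E : ι → Set (Fin d → ℝ)) (hEm : ∀ i ∈ P, MeasurableSet (E i))
    (hEbox : ∀ i ∈ P, ∀ x ∈ E i, ∀ j, |x j - y i j| ≤ ((2 : ℝ) ^ (s i j))⁻¹)
    (hEcube : ∀ i ∈ P, ∀ x ∈ E i, ∀ j, 0 ≤ x j ∧ x j ≤ 1)
    {D : ℝ≥0∞}
    (hEvol : ∀ i ∈ P, ∏ j, ENNReal.ofReal (2 * ((2 : ℝ) ^ (s i j))⁻¹) ≤ D * volume (E i))
    {T : ℝ≥0∞} (hT : ∀ x, ∑ i ∈ P, rho r (s i) * (E i).indicator (fun _ => 1) x ≤ T)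
    {q : ℝ} (hq : 1 < q) :
    ∫⁻ x, (∑ i ∈ P, rho r (s i) * W (s i) (y i) x) ^ q ≤
      (D * (8 * K q) ^ d * T) ^ q := by
  have hq0 : 0 < q := by linarith
  set h : ι → Fin d → ℝ := fun i j => ((2 : ℝ) ^ (s i j))⁻¹ with hh
  have hhpos : ∀ i j, 0 < h i j := fun i j => by simp only [hh]; positivity
  set e : ι → (Fin d → ℝ) → ℝ≥0∞ := fun i x => rho r (s i) * (E i).indicator (fun _ => 1) x
    with he
  have hem : ∀ i ∈ P, Measurable (e i) := fun i hi =>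
    Measurable.const_mul (measurable_const.indicator (hEm i hi)) _
  have hesupp : ∀ i ∈ P, ∀ x, e i x ≠ 0 → x ∈ E i := by
    intro i _ x hx
    by_contra hcon
    apply hx
    simp only [he, Set.indicator_of_notMem hcon, mul_zero]
  have hint : ∀ i ∈ P, ∫⁻ x, e i x = rho r (s i) * volume (E i) := by
    intro i hi
    simp only [he]
    rw [lintegral_const_mul _ (measurable_const.indicator (hEm i hi)),
      lintegral_indicator (hEm i hi), setLIntegral_const, one_mul]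
  have h1 := box_rpow_le P y h (fun i _ => hhpos i) e hem
    (fun i hi x hx => hEbox i hi x (hesupp i hi x hx)) hq
  have hpt : ∀ x, ∑ i ∈ P, rho r (s i) * W (s i) (y i) x ≤
      D * ∑ i ∈ P, (∏ c, wt ((x c - y i c) / h i c) / ENNReal.ofReal (2 * h i c)) *
        ∫⁻ z, e i z := by
    intro x
    rw [Finset.mul_sum]
    refine Finset.sum_le_sum fun i hi => ?_
    rw [hint i hi]
    have hprod : (∏ c, wt ((x c - y i c) / h i c) / ENNReal.ofReal (2 * h i c)) =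
        W (s i) (y i) x / ∏ c, ENNReal.ofReal (2 * h i c) := by
      rw [W]
      simp_rw [ENNReal.div_eq_inv_mul]
      rw [Finset.prod_mul_distrib, ENNReal.prod_inv_distrib]
      · congr 1
        refine Finset.prod_congr rfl fun c _ => ?_
        congr 1
        simp only [hh]
        rw [div_inv_eq_mul, mul_comm]
      · intro a _ b _ _
        exact Or.inr ENNReal.ofReal_ne_top
    rw [hprod]
    set V : ℝ≥0∞ := ∏ c, ENNReal.ofReal (2 * h i c) with hV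
    have hV0 : V ≠ 0 := by
      rw [hV, Finset.prod_ne_zero_iff]
      intro c _
      have := hhpos i c
      simp only [ne_eq, ENNReal.ofReal_eq_zero, not_le]; positivity
    have hVtop : V ≠ ∞ := ENNReal.prod_ne_top fun c _ => ENNReal.ofReal_ne_top
    calc rho r (s i) * W (s i) (y i) x
        = (W (s i) (y i) x / V) * (rho r (s i) * V) := by
          calc rho r (s i) * W (s i) (y i) x = rho r (s i) * (W (s i) (y i) x / V * V) := by
                rw [ENNReal.div_mul_cancel hV0 hVtop]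
            _ = _ := by ring
      _ ≤ (W (s i) (y i) x / V) * (rho r (s i) * (D * volume (E i))) := by
          gcongr
          exact hEvol i hi
      _ = _ := by ring
  set G : (Fin d → ℝ) → ℝ≥0∞ := fun x => ∑ i ∈ P, (∏ c, wt ((x c - y i c) / h i c) /
    ENNReal.ofReal (2 * h i c)) * ∫⁻ z, e i z with hG
  have hGm : Measurable G := by
    refine Finset.measurable_sum _ fun i _ => ?_
    refine Measurable.mul_const (Finset.measurable_prod _ fun c _ => ?_) _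
    refine Measurable.div_const (measurable_wt.comp ?_) _
    fun_prop
  have h1' : ∫⁻ x, (G x) ^ q ≤ ((8 * K q) ^ q) ^ d * ∫⁻ x, (∑ i ∈ P, e i x) ^ q := h1
  have h2 : ∫⁻ x, (∑ i ∈ P, rho r (s i) * W (s i) (y i) x) ^ q ≤ ∫⁻ x, D ^ q * (G x) ^ q := by
    refine lintegral_mono fun x => ?_
    refine (ENNReal.rpow_le_rpow (hpt x) hq0.le).trans (le_of_eq ?_)
    exact ENNReal.mul_rpow_of_nonneg D (G x) hq0.le
  have h3 : ∫⁻ x, D ^ q * (G x) ^ q = D ^ q * ∫⁻ x, (G x) ^ q :=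
    lintegral_const_mul _ (hGm.pow_const q)
  have h4 : ∫⁻ x, (∑ i ∈ P, e i x) ^ q ≤ T ^ q := by
    have h5 : ∫⁻ x, (∑ i ∈ P, e i x) ^ q ≤
        ∫⁻ x, (Set.Icc (0 : Fin d → ℝ) 1).indicator (fun _ => T ^ q) x := by
      refine lintegral_mono fun x => ?_
      by_cases hx : x ∈ Set.Icc (0 : Fin d → ℝ) 1
      · rw [Set.indicator_of_mem hx]
        exact ENNReal.rpow_le_rpow (hT x) hq0.le
      · have h0 : ∑ i ∈ P, e i x = 0 := by
          refine Finset.sum_eq_zero fun i hi => ?_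
          by_contra hne
          apply hx
          have := hEcube i hi x (hesupp i hi x hne)
          rw [Set.mem_Icc, Pi.le_def, Pi.le_def]
          exact ⟨fun j => (this j).1, fun j => (this j).2⟩
        rw [Set.indicator_of_notMem hx]
        simp only [h0, ENNReal.zero_rpow_of_pos hq0, le_refl]
    refine h5.trans ?_
    rw [lintegral_indicator measurableSet_Icc, setLIntegral_const, volcube, mul_one]
  refine h2.trans ?_
  rw [h3, ← const_alg _ _ _ hq0 d]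
  exact mul_le_mul_right (h1'.trans (mul_le_mul_right h4 _)) _

/-- upper bound for the norm of the test functions -/
theorem norm_bound {ι : Type} {d : ℕ} (φ : ℕ → ℝ → ℝ) (hφ : IsDyadicResolution φ)
    {β H : ℝ → ℂ} (hβ : Continuous β) (hsupp : ∀ x, β x ≠ 0 → |x| ≤ 1) (hH : Continuous H)
    (hFT : ∀ ξ : ℝ, ∫ x : ℝ, Complex.exp (-(2 * Real.pi * Complex.I * (x * ξ))) * β x = H ξ)
    {r p : ℝ} (hr0 : 0 < r) (hr : r ≤ 1 / 2) (hp : 2 < p) (P : Finset ι) (s : ι → Fin d → ℕ)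
    (y : ι → Fin d → ℝ) {C : ℝ} (hC : 0 ≤ C)
    (hfac : ∀ i ∈ P, ∀ (j : Fin d) (k : ℕ) (t : ℝ), ‖factor φ H k (s i j) t‖ ≤
      C * (1 / 8) ^ (Nat.dist k (s i j)) * (1 / (1 + (2 ^ (s i j) * t) ^ 2)))
    {C0 : ℝ≥0∞}
    (hC0 : ∀ (x : Fin d → ℝ) (s' : Fin d → ℕ),
      ∑ i ∈ P, (∏ j, (1 / 8 : ℝ≥0∞) ^ (Nat.dist (s' j) (s i j))) *
      W (s i) (y i) x ≤ C0)
    (E : ι → Set (Fin d → ℝ)) (hEm : ∀ i ∈ P, MeasurableSet (E i))
    (hEbox : ∀ i ∈ P, ∀ x ∈ E i, ∀ j, |x j - y i j| ≤ ((2 : ℝ) ^ (s i j))⁻¹)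
    (hEcube : ∀ i ∈ P, ∀ x ∈ E i, ∀ j, 0 ≤ x j ∧ x j ≤ 1)
    {D : ℝ≥0∞}
    (hEvol : ∀ i ∈ P, ∏ j, ENNReal.ofReal (2 * ((2 : ℝ) ^ (s i j))⁻¹) ≤ D * volume (E i))
    {T : ℝ≥0∞} (hT : ∀ x, ∑ i ∈ P, rho r (s i) * (E i).indicator (fun _ => 1) x ≤ T)
    {c : ℝ} (hc : 0 ≤ c) :
    mixedNorm φ r p (fun z => (c : ℂ) * ∑ i ∈ P, prodBump β (s i) (y i) z) ≤
      ((ENNReal.ofReal (c * C ^ d)) ^ 2 * C0 * 4 ^ d * (D * (8 * K (p / 2)) ^ d * T)) ^
        (1 / 2 : ℝ) := by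
  have hq : 1 < p / 2 := by linarith
  have hq0 : 0 < p / 2 := by linarith
  set M : ℝ≥0∞ := (ENNReal.ofReal (c * C ^ d)) ^ 2 * C0 * 4 ^ d with hM
  have hWm : Measurable fun x => (∑ i ∈ P, rho r (s i) * W (s i) (y i) x) ^ (p / 2) := by
    refine Measurable.pow_const (Finset.measurable_sum _ fun i _ => ?_) _
    refine Measurable.const_mul (Finset.measurable_prod _ fun c _ => ?_) _
    refine measurable_wt.comp ?_
    fun_prop
  have h1 : ∫⁻ x : Fin d → ℝ, (∑' s' : Fin d → ℕ,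
      ENNReal.ofReal ((2 : ℝ) ^ (2 * r * ∑ j, (s' j : ℝ)) *
      ‖block φ s' (fun z => (c : ℂ) * ∑ i ∈ P, prodBump β (s i) (y i) z) x‖ ^ 2)) ^ (p / 2) ≤
      (M * (D * (8 * K (p / 2)) ^ d * T)) ^ (p / 2) := by
    calc _ ≤ ∫⁻ x : Fin d → ℝ, (M * ∑ i ∈ P, rho r (s i) * W (s i) (y i) x) ^ (p / 2) := by
          refine lintegral_mono fun x => ENNReal.rpow_le_rpow ?_ hq0.le
          exact square_le φ hφ hβ hsupp hH hFT hr0 hr P s y hC hfac x (hC0 x) hc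
      _ = M ^ (p / 2) * ∫⁻ x : Fin d → ℝ, (∑ i ∈ P, rho r (s i) * W (s i) (y i) x) ^ (p / 2) := by
          simp_rw [ENNReal.mul_rpow_of_nonneg _ _ hq0.le]
          rw [lintegral_const_mul _ hWm]
      _ ≤ M ^ (p / 2) * (D * (8 * K (p / 2)) ^ d * T) ^ (p / 2) := by
          gcongr
          exact sum_rho_W_rpow_le r P s y E hEm hEbox hEcube hEvol hT hq
      _ = _ := (ENNReal.mul_rpow_of_nonneg M _ hq0.le).symm
  unfold mixedNorm
  calc _ ≤ ((M * (D * (8 * K (p / 2)) ^ d * T)) ^ (p / 2)) ^ (1 / p) :=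
        ENNReal.rpow_le_rpow h1 (by positivity)
    _ = _ := by
        rw [← ENNReal.rpow_mul]
        congr 1
        field_simp

end Pool.Agent.Helper150.SquareFn
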