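import Mathlib
import Pool.Agent.Helper150.Avg
import Pool.Agent.Helper150.SquareFn

namespace Pool.Agent.Helper150.Nodes

open MeasureTheory
open scoped ENNReal
open Pool.Agent.Helper150.Avg Pool.Agent.Helper150.SquareFn

variable {α : Type*}

/-- `δ`-separation in the sense of norm products -/
def Sep {d : ℕ} (nd : α → Fin d → ℝ) (δ : ℝ) : Prop :=
  ∀ m m', m ≠ m' → δ ≤ ∏ j, |nd m j - nd m' j|

theorem count_box {d : ℕ} (hd : 0 < d) (nd : α → Fin d → ℝ) {δ : ℝ} (hδ : 0 < δ)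
    (hsep : Sep nd δ) (u l : Fin d → ℝ) (hl : ∀ j, 0 < l j) (F : Finset α)
    (hF : ∀ m ∈ F, ∀ j, u j ≤ nd m j ∧ nd m j ≤ u j + l j) :
    (F.card : ℝ) ≤ 2 + (∏ j, l j) / δ := by
  classical
  set c0 : Fin d := ⟨0, hd⟩ with hc0
  set K : ℕ := ⌊(∏ j, l j) / δ⌋₊ + 1 with hK
  have hKpos : (0 : ℝ) < K := by rw [hK]; positivity
  have hprodpos : 0 < ∏ j, l j := Finset.prod_pos fun j _ => hl j
  have hKgt : (∏ j, l j) / δ < K := by
    rw [hK]; push_cast; exact Nat.lt_floor_add_one _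
  set g : α → ℕ := fun m => ⌊(K : ℝ) * ((nd m c0 - u c0) / l c0)⌋₊ with hg
  have hmaps : ∀ m ∈ F, g m ∈ Finset.range (K + 1) := by
    intro m hm
    rw [Finset.mem_range, Nat.lt_succ_iff]
    have h1 := hF m hm c0
    have h2 : (nd m c0 - u c0) / l c0 ≤ 1 := by
      rw [div_le_one (hl c0)]; linarith [h1.2]
    have h3 : (K : ℝ) * ((nd m c0 - u c0) / l c0) ≤ K := by nlinarith
    have h4 := Nat.floor_le_floor h3
    rwa [Nat.floor_natCast] at h4
  have hinj : Set.InjOn g F := by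
    intro m hm m' hm' hgg
    by_contra hne
    have h1 := hF m hm c0
    have h2 := hF m' hm' c0
    have e1 : 0 ≤ (K : ℝ) * ((nd m c0 - u c0) / l c0) := by
      have : 0 ≤ (nd m c0 - u c0) / l c0 := div_nonneg (by linarith [h1.1]) (hl c0).le
      positivity
    have e2 : 0 ≤ (K : ℝ) * ((nd m' c0 - u c0) / l c0) := by
      have : 0 ≤ (nd m' c0 - u c0) / l c0 := div_nonneg (by linarith [h2.1]) (hl c0).le
      positivity
    have f1 := Nat.floor_le e1
    have f2 := Nat.floor_le e2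
    have g1 := Nat.lt_floor_add_one ((K : ℝ) * ((nd m c0 - u c0) / l c0))
    have g2 := Nat.lt_floor_add_one ((K : ℝ) * ((nd m' c0 - u c0) / l c0))
    have hgg' : ⌊(K : ℝ) * ((nd m c0 - u c0) / l c0)⌋₊ =
        ⌊(K : ℝ) * ((nd m' c0 - u c0) / l c0)⌋₊ := hgg
    rw [hgg'] at f1 g1
    have h5 : |nd m c0 - nd m' c0| < l c0 / K := by
      rw [lt_div_iff₀ hKpos]
      have h6 : (K : ℝ) * ((nd m c0 - u c0) / l c0) - (K : ℝ) * ((nd m' c0 - u c0) / l c0) =
          (nd m c0 - nd m' c0) * K / l c0 := by ring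
      have h7 : |(nd m c0 - nd m' c0) * K / l c0| < 1 := by
        rw [← h6, abs_lt]
        constructor <;> linarith
      rw [abs_div, abs_mul, abs_of_pos hKpos, abs_of_pos (hl c0), div_lt_one (hl c0)] at h7
      exact h7
    have h8 : ∏ j, |nd m j - nd m' j| ≤ |nd m c0 - nd m' c0| *
        ∏ j ∈ Finset.univ.erase c0, l j := by
      rw [← Finset.mul_prod_erase Finset.univ _ (Finset.mem_univ c0)]
      refine mul_le_mul_of_nonneg_left ?_ (abs_nonneg _)
      refine Finset.prod_le_prod (fun j _ => abs_nonneg _) fun j _ => ?_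
      have k1 := hF m hm j
      have k2 := hF m' hm' j
      rw [abs_le]
      constructor <;> linarith [k1.1, k1.2, k2.1, k2.2]
    have hEpos : 0 < ∏ j ∈ Finset.univ.erase c0, l j := Finset.prod_pos fun j _ => hl j
    have h9 : ∏ j, |nd m j - nd m' j| < (∏ j, l j) / K := by
      calc ∏ j, |nd m j - nd m' j| ≤ |nd m c0 - nd m' c0| *
            ∏ j ∈ Finset.univ.erase c0, l j := h8
        _ < l c0 / K * ∏ j ∈ Finset.univ.erase c0, l j := by
            exact mul_lt_mul_of_pos_right h5 hEpos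
        _ = (∏ j, l j) / K := by
            rw [← Finset.mul_prod_erase Finset.univ l (Finset.mem_univ c0)]; ring
    have h10 : (∏ j, l j) / K < δ := by
      rw [div_lt_iff₀ hKpos]
      rw [div_lt_iff₀ hδ] at hKgt
      linarith
    exact absurd (hsep m m' hne) (not_le.2 (h9.trans h10))
  have hcard : F.card ≤ K + 1 := by
    have := Finset.card_le_card_of_injOn g hmaps hinj
    simpa using this
  have hKle : (K : ℝ) ≤ (∏ j, l j) / δ + 1 := by
    rw [hK]; push_cast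
    have := Nat.floor_le (div_nonneg hprodpos.le hδ.le)
    linarith
  calc (F.card : ℝ) ≤ ((K + 1 : ℕ) : ℝ) := by exact_mod_cast hcard
    _ = (K : ℝ) + 1 := by push_cast; ring
    _ ≤ _ := by linarith

/-- if a box of sides `l` contains two separated nodes then the count is at most `3 |box|/δ` -/
theorem count_box' {d : ℕ} (hd : 0 < d) (nd : α → Fin d → ℝ) {δ : ℝ} (hδ : 0 < δ)
    (hsep : Sep nd δ) (u l : Fin d → ℝ) (hl : ∀ j, 0 < l j) (F : Finset α)
    (hF : ∀ m ∈ F, ∀ j, u j ≤ nd m j ∧ nd m j ≤ u j + l j) (m0 : α) (hm0F : m0 ∉ F)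
    (hm0 : ∀ j, u j ≤ nd m0 j ∧ nd m0 j ≤ u j + l j) :
    (F.card : ℝ) ≤ 3 * ((∏ j, l j) / δ) := by
  classical
  rcases F.eq_empty_or_nonempty with h | ⟨m, hm⟩
  · rw [h]
    simp only [Finset.card_empty, Nat.cast_zero]
    have : 0 < ∏ j, l j := Finset.prod_pos fun j _ => hl j
    positivity
  · have h1 := count_box hd nd hδ hsep u l hl F hF
    have h2 : 1 ≤ (∏ j, l j) / δ := by
      rw [le_div_iff₀ hδ, one_mul]
      refine (hsep m m0 (fun h => hm0F (h ▸ hm))).trans ?_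
      refine Finset.prod_le_prod (fun j _ => abs_nonneg _) fun j _ => ?_
      have k1 := hF m hm j
      have k2 := hm0 j
      rw [abs_le]
      constructor <;> linarith [k1.1, k1.2, k2.1, k2.2]
    linarith

theorem wt_le_sum (t : ℝ) (L : ℕ) (hL : |t| ≤ 2 ^ L) :
    wt t ≤ ∑ l ∈ Finset.range (L + 1), ENNReal.ofReal (4 * (1 / 4) ^ l) *
      (if |t| ≤ 2 ^ l then 1 else 0) := by
  classical
  have hex : ∃ l : ℕ, |t| ≤ 2 ^ l := ⟨L, hL⟩
  obtain ⟨l, hl⟩ : ∃ l, l = Nat.find hex := ⟨_, rfl⟩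
  have h1 : |t| ≤ 2 ^ l := by rw [hl]; exact Nat.find_spec hex
  have hlL : l ≤ L := by rw [hl]; exact Nat.find_min' hex hL
  refine le_trans ?_ (Finset.single_le_sum (f := fun l : ℕ => ENNReal.ofReal (4 * (1 / 4) ^ l) *
      (if |t| ≤ 2 ^ l then 1 else 0)) (fun _ _ => zero_le) (Finset.mem_range.2
        (Nat.lt_succ_iff.2 hlL)))
  simp only [h1, if_true, mul_one]
  unfold wt
  apply ENNReal.ofReal_le_ofReal
  rcases Nat.eq_zero_or_pos l with h0 | hpos
  · rw [h0]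
    simp only [pow_zero, mul_one]
    rw [div_le_iff₀ (by positivity)]
    nlinarith [sq_nonneg t]
  · obtain ⟨m, hm⟩ : ∃ m, l = m + 1 := ⟨l - 1, by omega⟩
    have h2 : ¬ |t| ≤ 2 ^ m := by
      apply Nat.find_min hex
      rw [← hl]; omega
    push Not at h2
    rw [hm, div_le_iff₀ (by positivity)]
    have h3 : (4 : ℝ) ^ m ≤ t ^ 2 := by
      rw [← sq_abs t]
      calc (4 : ℝ) ^ m = (2 ^ m) ^ 2 := by rw [← pow_mul, mul_comm, pow_mul]; norm_num
        _ ≤ |t| ^ 2 := by gcongr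
    have h4 : (0 : ℝ) < 4 ^ m := by positivity
    have h5 : 4 * (1 / 4 : ℝ) ^ (m + 1) * (1 + t ^ 2) = (1 + t ^ 2) / 4 ^ m := by
      rw [pow_succ (1 / 4 : ℝ) m, one_div, inv_pow]; field_simp
    rw [h5, le_div_iff₀ h4]
    linarith

/-- the tail-weighted number of nodes seen at scale `s` is bounded -/
theorem sum_W_le {d : ℕ} (hd : 0 < d) (nd : α → Fin d → ℝ) {δ : ℝ} (hδ : 0 < δ)
    (hsep : Sep nd δ) (F : Finset α) (s : Fin d → ℕ)
    (hs : ∏ j, ((2 : ℝ) ^ (s j))⁻¹ ≤ δ) (x : Fin d → ℝ) :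
    ∑ m ∈ F, W s (nd m) x ≤ 3 * 16 ^ d := by
  classical
  -- a common bound for the levels
  obtain ⟨L, hL⟩ : ∃ L : ℕ, ∀ m ∈ F, ∀ j, |2 ^ (s j) * (x j - nd m j)| ≤ 2 ^ L := by
    have h1 : ∀ m : α, ∀ j : Fin d, ∃ L : ℕ, |2 ^ (s j) * (x j - nd m j)| ≤ 2 ^ L := by
      intro m j
      obtain ⟨l, hl⟩ := pow_unbounded_of_one_lt |2 ^ (s j) * (x j - nd m j)|
        (by norm_num : (1 : ℝ) < 2)
      exact ⟨l, hl.le⟩
    choose f hf using h1
    refine ⟨∑ m ∈ F, ∑ j, f m j, fun m hm j => (hf m j).trans ?_⟩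
    apply pow_le_pow_right₀ (by norm_num)
    calc f m j ≤ ∑ j, f m j := Finset.single_le_sum (fun _ _ => Nat.zero_le _) (Finset.mem_univ j)
      _ ≤ _ := Finset.single_le_sum (f := fun m => ∑ j, f m j) (fun _ _ => Nat.zero_le _) hm
  set Λ : Finset (Fin d → ℕ) := Fintype.piFinset fun _ => Finset.range (L + 1) with hΛ
  have h1 : ∀ m ∈ F, W s (nd m) x ≤ ∑ l ∈ Λ, (∏ j, ENNReal.ofReal (4 * (1 / 4) ^ (l j))) *
      (if ∀ j, |2 ^ (s j) * (x j - nd m j)| ≤ 2 ^ (l j) then 1 else 0) := by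
    intro m hm
    unfold W
    calc ∏ j, wt (2 ^ (s j) * (x j - nd m j))
        ≤ ∏ j, ∑ l ∈ Finset.range (L + 1), ENNReal.ofReal (4 * (1 / 4) ^ l) *
          (if |2 ^ (s j) * (x j - nd m j)| ≤ 2 ^ l then 1 else 0) :=
          Finset.prod_le_prod' fun j _ => wt_le_sum _ L (hL m hm j)
      _ = ∑ l ∈ Λ, ∏ j, (ENNReal.ofReal (4 * (1 / 4) ^ (l j)) *
          (if |2 ^ (s j) * (x j - nd m j)| ≤ 2 ^ (l j) then 1 else 0)) := by
          rw [Finset.prod_univ_sum]
      _ = _ := by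
          refine Finset.sum_congr rfl fun l _ => ?_
          rw [Finset.prod_mul_distrib, Finset.prod_ite_zero]
          simp
  have hcount : ∀ l : Fin d → ℕ,
      (((F.filter fun m => ∀ j, |2 ^ (s j) * (x j - nd m j)| ≤ 2 ^ (l j)).card : ℕ) : ℝ) ≤
        3 * 2 ^ d * ∏ j, (2 : ℝ) ^ (l j) := by
    intro l
    have h2 := count_box hd nd hδ hsep (fun j => x j - 2 ^ (l j) * ((2 : ℝ) ^ (s j))⁻¹)
      (fun j => 2 * (2 ^ (l j) * ((2 : ℝ) ^ (s j))⁻¹)) (fun j => by positivity)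
      (F.filter fun m => ∀ j, |2 ^ (s j) * (x j - nd m j)| ≤ 2 ^ (l j)) (by
        intro m hm j
        have h3 := (Finset.mem_filter.1 hm).2 j
        rw [abs_mul, abs_of_pos (by positivity : (0 : ℝ) < 2 ^ (s j)), mul_comm,
          ← le_div_iff₀ (by positivity), div_eq_mul_inv, abs_le] at h3
        constructor <;> linarith [h3.1, h3.2])
    refine h2.trans ?_
    have h4 : (∏ j, 2 * ((2 : ℝ) ^ (l j) * ((2 : ℝ) ^ (s j))⁻¹)) / δ ≤
        2 ^ d * ∏ j, (2 : ℝ) ^ (l j) := by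
      rw [div_le_iff₀ hδ, Finset.prod_mul_distrib, Finset.prod_mul_distrib, Finset.prod_const,
        Finset.card_univ, Fintype.card_fin, ← mul_assoc]
      gcongr
    have h5 : (1 : ℝ) ≤ 2 ^ d * ∏ j, (2 : ℝ) ^ (l j) := by
      have a1 : (1 : ℝ) ≤ 2 ^ d := one_le_pow₀ (by norm_num)
      have a2 : (1 : ℝ) ≤ ∏ j, (2 : ℝ) ^ (l j) := by
        rw [← Finset.prod_const_one (s := (Finset.univ : Finset (Fin d)))]
        exact Finset.prod_le_prod (fun _ _ => by norm_num) fun j _ => one_le_pow₀ (by norm_num)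
      nlinarith
    linarith
  calc ∑ m ∈ F, W s (nd m) x
      ≤ ∑ m ∈ F, ∑ l ∈ Λ, (∏ j, ENNReal.ofReal (4 * (1 / 4) ^ (l j))) *
      (if ∀ j, |2 ^ (s j) * (x j - nd m j)| ≤ 2 ^ (l j) then 1 else 0) := Finset.sum_le_sum h1
    _ = ∑ l ∈ Λ, (∏ j, ENNReal.ofReal (4 * (1 / 4) ^ (l j))) *
      (((F.filter fun m => ∀ j, |2 ^ (s j) * (x j - nd m j)| ≤ 2 ^ (l j)).card : ℕ) : ℝ≥0∞) := by
        rw [Finset.sum_comm]
        refine Finset.sum_congr rfl fun l _ => ?_
        rw [← Finset.mul_sum, Finset.sum_ite, Finset.sum_const_zero, add_zero, Finset.sum_const,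
          nsmul_eq_mul, mul_one]
    _ ≤ ∑ l ∈ Λ, (∏ j, ENNReal.ofReal (4 * (1 / 4) ^ (l j))) *
      ENNReal.ofReal (3 * 2 ^ d * ∏ j, (2 : ℝ) ^ (l j)) := by
        refine Finset.sum_le_sum fun l _ => mul_le_mul_right ?_ _
        rw [← ENNReal.ofReal_natCast]
        exact ENNReal.ofReal_le_ofReal (hcount l)
    _ = ENNReal.ofReal (3 * 2 ^ d) * ∑ l ∈ Λ, ∏ j, ENNReal.ofReal (4 * (1 / 2) ^ (l j)) := by
        rw [Finset.mul_sum]
        refine Finset.sum_congr rfl fun l _ => ?_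
        rw [ENNReal.ofReal_mul (by positivity), mul_left_comm,
          ENNReal.ofReal_prod_of_nonneg (fun j _ => by positivity), ← Finset.prod_mul_distrib]
        congr 1
        refine Finset.prod_congr rfl fun j _ => ?_
        rw [← ENNReal.ofReal_mul (by positivity)]
        congr 1
        rw [mul_assoc, ← mul_pow]
        norm_num
    _ = ENNReal.ofReal (3 * 2 ^ d) *
        ∏ _j : Fin d, ∑ l ∈ Finset.range (L + 1), ENNReal.ofReal (4 * (1 / 2) ^ l) := by
        rw [Finset.prod_univ_sum]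
    _ ≤ ENNReal.ofReal (3 * 2 ^ d) * ∏ _j : Fin d, (8 : ℝ≥0∞) := by
        gcongr with j _
        have h6 : ∑ l ∈ Finset.range (L + 1), ENNReal.ofReal (4 * (1 / 2) ^ l) =
            ENNReal.ofReal (∑ l ∈ Finset.range (L + 1), 4 * (1 / 2 : ℝ) ^ l) := by
          rw [ENNReal.ofReal_sum_of_nonneg fun l _ => by positivity]
        rw [h6, ← Finset.mul_sum]
        have h7 : ∑ l ∈ Finset.range (L + 1), (1 / 2 : ℝ) ^ l ≤ 2 := by
          rw [geom_sum_eq (by norm_num)]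
          have : (0 : ℝ) < (1 / 2) ^ (L + 1) := by positivity
          rw [div_le_iff_of_neg (by norm_num)]
          linarith
        calc ENNReal.ofReal (4 * ∑ l ∈ Finset.range (L + 1), (1 / 2 : ℝ) ^ l) ≤
            ENNReal.ofReal 8 := ENNReal.ofReal_le_ofReal (by linarith)
          _ = 8 := by simp
    _ = 3 * 16 ^ d := by
        rw [Finset.prod_const, Finset.card_univ, Fintype.card_fin,
          ENNReal.ofReal_mul (by norm_num), ENNReal.ofReal_pow (by norm_num), mul_assoc]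
        congr 1
        · simp
        · rw [← mul_pow]
          norm_num

end Pool.Agent.Helper150.Nodes
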