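import Mathlib
import Pool.Agent.Helper150.Nodes

namespace Pool.Agent.Helper150.NodesExist

open Pool.Agent.Helper150.Nodes

/-- the nodes of Frolov's rule -/
noncomputable def nd {d : ℕ} (A : Matrix (Fin d) (Fin d) ℝ) (a : ℝ) (m : Fin d → ℤ) :
    Fin d → ℝ :=
  a⁻¹ • (A⁻¹).transpose.mulVec (fun j => (m j : ℝ))

theorem sep_nd {d : ℕ} (A : Matrix (Fin d) (Fin d) ℝ) {κ : ℝ}
    (h : ∀ m : Fin d → ℤ, m ≠ 0 →
      κ ≤ |∏ j, (A⁻¹).transpose.mulVec (fun i => (m i : ℝ)) j|) {a : ℝ} (ha : 0 < a) :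
    Sep (nd A a) (κ / a ^ d) := by
  intro m m' hne
  have h1 := h (m - m') (sub_ne_zero.2 hne)
  have h2 : ∀ j, |nd A a m j - nd A a m' j| =
      a⁻¹ * |(A⁻¹).transpose.mulVec (fun i => ((m - m') i : ℝ)) j| := by
    intro j
    have h3 : (fun i => (((m - m') i : ℤ) : ℝ)) = (fun i => (m i : ℝ)) - (fun i => (m' i : ℝ)) := by
      funext i
      simp
    rw [h3, Matrix.mulVec_sub]
    unfold nd
    simp only [Pi.smul_apply, Pi.sub_apply, smul_eq_mul]
    rw [← mul_sub, abs_mul, abs_of_pos (inv_pos.2 ha)]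
  rw [Finset.prod_congr rfl fun j _ => h2 j, Finset.prod_mul_distrib, ← Finset.abs_prod]
  simp only [Finset.prod_const, Finset.card_univ, Fintype.card_fin]
  rw [inv_pow, div_eq_inv_mul]
  exact mul_le_mul_of_nonneg_left h1 (by positivity)

theorem nodes_exist {d : ℕ} (A : Matrix (Fin d) (Fin d) ℝ) (hA : A.det ≠ 0) :
    ∃ ρ : ℝ, 0 < ρ ∧ ∀ a : ℝ, 6 * ρ ≤ a → ∃ Y : Finset (Fin d → ℤ),
      (∀ m ∈ Y, ∀ j, 1 / 4 ≤ nd A a m j ∧ nd A a m j ≤ 3 / 4) ∧
      (a / (12 * ρ)) ^ d ≤ (Y.card : ℝ) := by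
  classical
  obtain ⟨B, hB⟩ : ∃ B : Matrix (Fin d) (Fin d) ℝ, B = (A⁻¹).transpose := ⟨_, rfl⟩
  obtain ⟨ρ, hρ⟩ : ∃ ρ : ℝ, ρ = 1 + ∑ j, ∑ i, |B j i| := ⟨_, rfl⟩
  have hρpos : 0 < ρ := by
    rw [hρ]
    have : 0 ≤ ∑ j, ∑ i, |B j i| :=
      Finset.sum_nonneg fun j _ => Finset.sum_nonneg fun i _ => abs_nonneg _
    linarith
  have hBv : ∀ v : Fin d → ℝ, (∀ i, |v i| ≤ 1) → ∀ j, |B.mulVec v j| ≤ ρ := by
    intro v hv j
    have h1 : |B.mulVec v j| ≤ ∑ i, |B j i| := by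
      unfold Matrix.mulVec dotProduct
      refine (Finset.abs_sum_le_sum_abs _ _).trans (Finset.sum_le_sum fun i _ => ?_)
      rw [abs_mul]
      exact mul_le_of_le_one_right (abs_nonneg _) (hv i)
    have h2 : ∑ i, |B j i| ≤ ∑ j, ∑ i, |B j i| :=
      Finset.single_le_sum (f := fun j => ∑ i, |B j i|)
        (fun j _ => Finset.sum_nonneg fun i _ => abs_nonneg _) (Finset.mem_univ j)
    rw [hρ]
    linarith
  have hBA : B * A.transpose = 1 := by
    rw [hB, ← Matrix.transpose_mul, Matrix.mul_nonsing_inv _ (isUnit_iff_ne_zero.2 hA),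
      Matrix.transpose_one]
  refine ⟨ρ, hρpos, fun a ha => ?_⟩
  have hapos : 0 < a := by linarith
  obtain ⟨η, hη⟩ : ∃ η : ℝ, η = ρ / a := ⟨_, rfl⟩
  have hηpos : 0 < η := by rw [hη]; positivity
  obtain ⟨N0, hN0⟩ : ∃ N0 : ℕ, N0 = ⌊a / (6 * ρ)⌋₊ := ⟨_, rfl⟩
  have hN0le : (N0 : ℝ) ≤ a / (6 * ρ) := by
    rw [hN0]; exact Nat.floor_le (by positivity)
  have h1le : 1 ≤ a / (6 * ρ) := by rw [le_div_iff₀ (by positivity)]; linarith
  have hN0ge : a / (12 * ρ) ≤ (N0 : ℝ) := by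
    have h1 : 1 ≤ N0 := by
      rw [hN0]; exact Nat.le_floor (by push_cast; exact h1le)
    have h2 : a / (6 * ρ) < N0 + 1 := by rw [hN0]; exact Nat.lt_floor_add_one _
    have h3 : a / (12 * ρ) = (a / (6 * ρ)) / 2 := by field_simp; norm_num
    have h4 : (1 : ℝ) ≤ N0 := by exact_mod_cast h1
    rw [h3]
    linarith
  have hηN0 : 3 * η * N0 ≤ 1 / 2 := by
    have : 3 * η * (a / (6 * ρ)) = 1 / 2 := by rw [hη]; field_simp; norm_num
    calc 3 * η * N0 ≤ 3 * η * (a / (6 * ρ)) := by gcongr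
      _ = 1 / 2 := this
  -- targets
  obtain ⟨x, hx⟩ : ∃ x : (Fin d → ℕ) → Fin d → ℝ,
      x = fun z j => 1 / 4 + η + 3 * η * (z j : ℝ) := ⟨_, rfl⟩
  obtain ⟨mz, hmz⟩ : ∃ mz : (Fin d → ℕ) → Fin d → ℤ,
      mz = fun z i => ⌊A.transpose.mulVec (a • x z) i⌋ := ⟨_, rfl⟩
  have hclose : ∀ z j, |nd A a (mz z) j - x z j| ≤ η := by
    intro z j
    have e1 : nd A a (mz z) j - x z j =
        a⁻¹ * B.mulVec ((fun i => (mz z i : ℝ)) - A.transpose.mulVec (a • x z)) j := by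
      rw [Matrix.mulVec_sub, Matrix.mulVec_mulVec, hBA, Matrix.one_mulVec]
      unfold nd
      rw [← hB]
      simp only [Pi.smul_apply, Pi.sub_apply, smul_eq_mul]
      field_simp
    rw [e1, abs_mul, abs_of_pos (inv_pos.2 hapos), hη, div_eq_inv_mul]
    refine mul_le_mul_of_nonneg_left (hBv _ (fun i => ?_) j) (by positivity)
    rw [Pi.sub_apply, hmz]
    simp only
    rw [abs_le]
    constructor
    · have := Int.lt_floor_add_one (A.transpose.mulVec (a • x z) i)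
      linarith
    · have := Int.floor_le (A.transpose.mulVec (a • x z) i)
      linarith
  have hinj : Set.InjOn mz (Fintype.piFinset fun _ : Fin d => Finset.range N0 :
      Finset (Fin d → ℕ)) := by
    intro z _ z' _ h
    by_contra hne
    obtain ⟨j, hj⟩ := Function.ne_iff.1 hne
    have k1 := hclose z j
    have k2 := hclose z' j
    rw [← h] at k2
    have k3 : |x z j - x z' j| ≤ 2 * η := by
      have : x z j - x z' j = (nd A a (mz z) j - x z' j) - (nd A a (mz z) j - x z j) := by ring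
      rw [this]
      exact (abs_sub _ _).trans (by linarith)
    have k4 : x z j - x z' j = 3 * η * ((z j : ℝ) - z' j) := by
      rw [hx]; ring
    have k5 : 1 ≤ |(z j : ℝ) - z' j| := by
      have : ((z j : ℤ) - (z' j : ℤ)) ≠ 0 := by
        intro h0
        apply hj
        omega
      have h6 := Int.one_le_abs this
      have h7 : ((1 : ℤ) : ℝ) ≤ ((|(z j : ℤ) - (z' j : ℤ)| : ℤ) : ℝ) := by exact_mod_cast h6
      rw [Int.cast_abs] at h7
      push_cast at h7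
      exact h7
    rw [k4, abs_mul, abs_of_pos (by positivity : (0 : ℝ) < 3 * η)] at k3
    nlinarith
  refine ⟨(Fintype.piFinset fun _ : Fin d => Finset.range N0).image mz, ?_, ?_⟩
  · intro m hm j
    obtain ⟨z, hz, rfl⟩ := Finset.mem_image.1 hm
    rw [Fintype.mem_piFinset] at hz
    have h1 := hclose z j
    have h2 : (z j : ℝ) ≤ N0 - 1 := by
      have := Finset.mem_range.1 (hz j)
      have h3 : (z j : ℝ) + 1 ≤ N0 := by exact_mod_cast this
      linarith
    have h3 : 0 ≤ (z j : ℝ) := Nat.cast_nonneg _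
    have h4 : x z j = 1 / 4 + η + 3 * η * (z j : ℝ) := by rw [hx]
    rw [abs_le] at h1
    have h5 : 0 ≤ 3 * η * (z j : ℝ) := by positivity
    have h6 : 3 * η * (z j : ℝ) ≤ 3 * η * (N0 - 1) := by gcongr
    constructor
    · linarith [h1.1]
    · linarith [h1.2]
  · rw [Finset.card_image_of_injOn hinj, Fintype.card_piFinset]
    simp only [Finset.card_range, Finset.prod_const, Finset.card_univ, Fintype.card_fin]
    push_cast
    exact pow_le_pow_left₀ (by positivity) hN0ge d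

end Pool.Agent.Helper150.NodesExist
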