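import Mathlib
import Pool.Agent.Helper150.Avg
import Pool.Agent.Helper150.SquareFn
import Pool.Agent.Helper150.Nodes

namespace Pool.Agent.Helper150.Moment

open MeasureTheory
open scoped ENNReal
open Pool.Agent.Helper150.Avg Pool.Agent.Helper150.SquareFn Pool.Agent.Helper150.Nodes

variable {α : Type}

/-- the box with centre `c` and half sides `2^{-s_j}` -/
def box {d : ℕ} (s : Fin d → ℕ) (c : Fin d → ℝ) : Set (Fin d → ℝ) :=
  Set.Icc (fun j => c j - ((2 : ℝ) ^ (s j))⁻¹) (fun j => c j + ((2 : ℝ) ^ (s j))⁻¹)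

theorem mem_box {d : ℕ} {s : Fin d → ℕ} {c x : Fin d → ℝ} :
    x ∈ box s c ↔ ∀ j, |x j - c j| ≤ ((2 : ℝ) ^ (s j))⁻¹ := by
  unfold box
  rw [Set.mem_Icc, Pi.le_def, Pi.le_def]
  constructor
  · rintro ⟨h1, h2⟩ j
    rw [abs_le]
    constructor <;> linarith [h1 j, h2 j]
  · intro h
    constructor <;> intro j <;> have := abs_le.1 (h j) <;> linarith [this.1, this.2]

theorem measurableSet_box {d : ℕ} (s : Fin d → ℕ) (c : Fin d → ℝ) : MeasurableSet (box s c) :=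
  measurableSet_Icc

theorem volume_box {d : ℕ} (s : Fin d → ℕ) (c : Fin d → ℝ) :
    volume (box s c) = ∏ j, ENNReal.ofReal (2 * ((2 : ℝ) ^ (s j))⁻¹) := by
  unfold box
  rw [Real.volume_Icc_pi]
  refine Finset.prod_congr rfl fun j _ => ?_
  congr 1
  ring

theorem ofReal_inv_two_pow (n : ℕ) : ENNReal.ofReal (((2 : ℝ) ^ n)⁻¹) = ((2 : ℝ≥0∞) ^ n)⁻¹ := by
  rw [ENNReal.ofReal_inv_of_pos (by positivity), ENNReal.ofReal_pow (by norm_num)]
  simp

theorem two_pow_mul_volume_box {d : ℕ} (s : Fin d → ℕ) (c : Fin d → ℝ) :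
    (2 : ℝ≥0∞) ^ (∑ j, s j) * volume (box s c) = 2 ^ d := by
  rw [volume_box, ← Finset.prod_pow_eq_pow_sum, ← Finset.prod_mul_distrib]
  calc ∏ j, (2 : ℝ≥0∞) ^ (s j) * ENNReal.ofReal (2 * ((2 : ℝ) ^ (s j))⁻¹) =
      ∏ _j : Fin d, (2 : ℝ≥0∞) := by
        refine Finset.prod_congr rfl fun j _ => ?_
        rw [ENNReal.ofReal_mul (by norm_num), ofReal_inv_two_pow, mul_left_comm,
          ENNReal.mul_inv_cancel (by positivity) (by finiteness)]
        simp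
    _ = 2 ^ d := by simp

theorem pair_le {d : ℕ} (s s' : Fin d → ℕ) (c c' : Fin d → ℝ) :
    (2 : ℝ≥0∞) ^ (∑ j, s j) * 2 ^ (∑ j, s' j) * volume (box s c ∩ box s' c') ≤
      2 ^ d * 2 ^ (∑ j, min (s j) (s' j)) := by
  unfold box
  rw [Set.Icc_inter_Icc, Real.volume_Icc_pi, ← Finset.prod_pow_eq_pow_sum,
    ← Finset.prod_pow_eq_pow_sum, ← Finset.prod_mul_distrib, ← Finset.prod_mul_distrib]
  calc ∏ j, (2 : ℝ≥0∞) ^ (s j) * 2 ^ (s' j) * ENNReal.ofReal
        (((fun j => c j + ((2 : ℝ) ^ (s j))⁻¹) ⊓ fun j => c' j + ((2 : ℝ) ^ (s' j))⁻¹) j -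
        ((fun j => c j - ((2 : ℝ) ^ (s j))⁻¹) ⊔ fun j => c' j - ((2 : ℝ) ^ (s' j))⁻¹) j)
      ≤ ∏ j, (2 * (2 : ℝ≥0∞) ^ (min (s j) (s' j))) := by
        refine Finset.prod_le_prod' fun j _ => ?_
        have h1 : ((fun j => c j + ((2 : ℝ) ^ (s j))⁻¹) ⊓
            fun j => c' j + ((2 : ℝ) ^ (s' j))⁻¹) j -
            ((fun j => c j - ((2 : ℝ) ^ (s j))⁻¹) ⊔ fun j => c' j - ((2 : ℝ) ^ (s' j))⁻¹) j ≤
            2 * ((2 : ℝ) ^ (max (s j) (s' j)))⁻¹ := by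
          simp only [Pi.inf_apply, Pi.sup_apply]
          rcases le_total (s j) (s' j) with h | h
          · rw [max_eq_right h]
            have a1 := min_le_right (c j + ((2 : ℝ) ^ (s j))⁻¹) (c' j + ((2 : ℝ) ^ (s' j))⁻¹)
            have a2 := le_max_right (c j - ((2 : ℝ) ^ (s j))⁻¹) (c' j - ((2 : ℝ) ^ (s' j))⁻¹)
            linarith
          · rw [max_eq_left h]
            have a1 := min_le_left (c j + ((2 : ℝ) ^ (s j))⁻¹) (c' j + ((2 : ℝ) ^ (s' j))⁻¹)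
            have a2 := le_max_left (c j - ((2 : ℝ) ^ (s j))⁻¹) (c' j - ((2 : ℝ) ^ (s' j))⁻¹)
            linarith
        calc _ ≤ (2 : ℝ≥0∞) ^ (s j) * 2 ^ (s' j) *
              ENNReal.ofReal (2 * ((2 : ℝ) ^ (max (s j) (s' j)))⁻¹) := by
              gcongr
          _ = 2 * 2 ^ (min (s j) (s' j)) := by
              rw [ENNReal.ofReal_mul (by norm_num), ofReal_inv_two_pow, ← pow_add,
                ← min_add_max (s j) (s' j), pow_add]
              have h2 : (2 : ℝ≥0∞) ^ (max (s j) (s' j)) * (2 ^ (max (s j) (s' j)))⁻¹ = 1 :=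
                ENNReal.mul_inv_cancel (by positivity) (by finiteness)
              calc (2 : ℝ≥0∞) ^ (min (s j) (s' j)) * 2 ^ (max (s j) (s' j)) *
                  (ENNReal.ofReal 2 * (2 ^ (max (s j) (s' j)))⁻¹) =
                  ENNReal.ofReal 2 * 2 ^ (min (s j) (s' j)) *
                  (2 ^ (max (s j) (s' j)) * (2 ^ (max (s j) (s' j)))⁻¹) := by ring
                _ = _ := by rw [h2, mul_one]; simp
    _ = _ := by
        rw [Finset.prod_mul_distrib, Finset.prod_const, Finset.card_univ, Fintype.card_fin,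
          Finset.prod_pow_eq_pow_sum]

theorem pair_sum_le {d : ℕ} (hd : 0 < d) (nd : α → Fin d → ℝ) {δ : ℝ} (hδ : 0 < δ)
    (hsep : Sep nd δ) (Y : Finset α) (s s' : Fin d → ℕ) (m : α) :
    ∑ m' ∈ Y, (2 : ℝ≥0∞) ^ (∑ j, s j) * 2 ^ (∑ j, s' j) *
      volume (box s (nd m) ∩ box s' (nd m')) ≤
      2 ^ d * 2 ^ (∑ j, min (s j) (s' j)) + ENNReal.ofReal (3 * 8 ^ d / δ) := by
  classical
  have hsplit : ∑ m' ∈ Y, (2 : ℝ≥0∞) ^ (∑ j, s j) * 2 ^ (∑ j, s' j) *
      volume (box s (nd m) ∩ box s' (nd m')) ≤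
      ∑ m' ∈ insert m (Y.erase m), (2 : ℝ≥0∞) ^ (∑ j, s j) * 2 ^ (∑ j, s' j) *
      volume (box s (nd m) ∩ box s' (nd m')) := by
    refine Finset.sum_le_sum_of_subset fun m' hm' => ?_
    rw [Finset.mem_insert, Finset.mem_erase]
    by_cases h : m' = m
    · exact Or.inl h
    · exact Or.inr ⟨h, hm'⟩
  refine hsplit.trans ?_
  rw [Finset.sum_insert (Finset.notMem_erase m Y)]
  refine add_le_add (pair_le _ _ _ _) ?_
  set F : Finset α := (Y.erase m).filter fun m' => (box s (nd m) ∩ box s' (nd m')).Nonempty with hF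
  have hcard := count_box' hd nd hδ hsep
    (fun j => nd m j - 2 * ((2 : ℝ) ^ (min (s j) (s' j)))⁻¹)
    (fun j => 4 * ((2 : ℝ) ^ (min (s j) (s' j)))⁻¹) (fun j => by positivity) F (by
      intro m' hm' j
      obtain ⟨x, hx1, hx2⟩ := (Finset.mem_filter.1 hm').2
      have h1 := abs_le.1 (mem_box.1 hx1 j)
      have h2 := abs_le.1 (mem_box.1 hx2 j)
      have h3 : ((2 : ℝ) ^ (s j))⁻¹ ≤ ((2 : ℝ) ^ (min (s j) (s' j)))⁻¹ := by
        apply inv_anti₀ (by positivity)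
        exact pow_le_pow_right₀ (by norm_num) (min_le_left _ _)
      have h4 : ((2 : ℝ) ^ (s' j))⁻¹ ≤ ((2 : ℝ) ^ (min (s j) (s' j)))⁻¹ := by
        apply inv_anti₀ (by positivity)
        exact pow_le_pow_right₀ (by norm_num) (min_le_right _ _)
      constructor <;> linarith [h1.1, h1.2, h2.1, h2.2]) m
    (fun hm => Finset.notMem_erase m Y (Finset.mem_filter.1 hm).1) (by
      intro j
      have : (0 : ℝ) < ((2 : ℝ) ^ (min (s j) (s' j)))⁻¹ := by positivity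
      constructor <;> linarith)
  have hprod : ∏ j, (4 * ((2 : ℝ) ^ (min (s j) (s' j)))⁻¹) =
      4 ^ d * ((2 : ℝ) ^ (∑ j, min (s j) (s' j)))⁻¹ := by
    rw [Finset.prod_mul_distrib, Finset.prod_const, Finset.card_univ, Fintype.card_fin,
      ← Finset.prod_pow_eq_pow_sum, Finset.prod_inv_distrib]
  rw [hprod] at hcard
  calc ∑ m' ∈ Y.erase m, (2 : ℝ≥0∞) ^ (∑ j, s j) * 2 ^ (∑ j, s' j) *
      volume (box s (nd m) ∩ box s' (nd m'))
      ≤ ∑ m' ∈ F, (2 : ℝ≥0∞) ^ (∑ j, s j) * 2 ^ (∑ j, s' j) *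
      volume (box s (nd m) ∩ box s' (nd m')) := by
        refine le_of_eq ?_
        rw [hF, Finset.sum_filter]
        refine Finset.sum_congr rfl fun m' _ => ?_
        split_ifs with h
        · rfl
        · rw [Set.not_nonempty_iff_eq_empty.1 h, measure_empty, mul_zero]
    _ ≤ ∑ _m' ∈ F, (2 : ℝ≥0∞) ^ d * 2 ^ (∑ j, min (s j) (s' j)) :=
        Finset.sum_le_sum fun m' _ => pair_le _ _ _ _
    _ = (F.card : ℝ≥0∞) * (2 ^ d * 2 ^ (∑ j, min (s j) (s' j))) := by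
        rw [Finset.sum_const, nsmul_eq_mul]
    _ ≤ ENNReal.ofReal (3 * (4 ^ d * ((2 : ℝ) ^ (∑ j, min (s j) (s' j)))⁻¹ / δ)) *
        (2 ^ d * 2 ^ (∑ j, min (s j) (s' j))) := by
        gcongr
        rw [← ENNReal.ofReal_natCast]
        exact ENNReal.ofReal_le_ofReal hcard
    _ = ENNReal.ofReal (3 * 8 ^ d / δ) := by
        have h2 : (2 : ℝ≥0∞) ^ d * 2 ^ (∑ j, min (s j) (s' j)) =
            ENNReal.ofReal ((2 : ℝ) ^ d * 2 ^ (∑ j, min (s j) (s' j))) := by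
          rw [ENNReal.ofReal_mul (by positivity), ENNReal.ofReal_pow (by norm_num),
            ENNReal.ofReal_pow (by norm_num)]
          simp
        rw [h2, ← ENNReal.ofReal_mul (by positivity)]
        congr 1
        have h3 : (8 : ℝ) ^ d = 4 ^ d * 2 ^ d := by rw [← mul_pow]; norm_num
        rw [h3]
        field_simp

theorem tsum_dist34_le (s : ℕ) : ∑' k : ℕ, (ENNReal.ofReal (3 / 4)) ^ (Nat.dist s k) ≤ 8 := by
  have hgeo : ∑' m : ℕ, (ENNReal.ofReal (3 / 4)) ^ m ≤ 4 := by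
    have h1 : ∀ m : ℕ, (ENNReal.ofReal (3 / 4)) ^ m = ENNReal.ofReal ((3 / 4) ^ m) := fun m => by
      rw [ENNReal.ofReal_pow (by norm_num)]
    simp_rw [h1]
    rw [← ENNReal.ofReal_tsum_of_nonneg (fun m => by positivity)
      (summable_geometric_of_lt_one (by norm_num) (by norm_num)),
      tsum_geometric_of_lt_one (by norm_num) (by norm_num)]
    norm_num
  have hle1 : ENNReal.ofReal (3 / 4) ≤ 1 := by
    rw [← ENNReal.ofReal_one]; exact ENNReal.ofReal_le_ofReal (by norm_num)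
  have hsplit : ∑' k : ℕ, (ENNReal.ofReal (3 / 4)) ^ (Nat.dist s k) =
      ∑ k ∈ Finset.range s, (ENNReal.ofReal (3 / 4)) ^ (Nat.dist s k) +
        ∑' k : ℕ, (ENNReal.ofReal (3 / 4)) ^ (Nat.dist s (k + s)) :=
    (Summable.sum_add_tsum_nat_add' (f := fun k => (ENNReal.ofReal (3 / 4)) ^ (Nat.dist s k))
      ENNReal.summable).symm
  have h2 : ∑ k ∈ Finset.range s, (ENNReal.ofReal (3 / 4)) ^ (Nat.dist s k) ≤ 4 := by
    calc ∑ k ∈ Finset.range s, (ENNReal.ofReal (3 / 4)) ^ (Nat.dist s k)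
        = ∑ k ∈ Finset.range s, (ENNReal.ofReal (3 / 4)) ^ (Nat.dist s (s - 1 - k)) := by
          rw [Finset.sum_range_reflect (fun k => (ENNReal.ofReal (3 / 4)) ^ (Nat.dist s k)) s]
      _ ≤ ∑ k ∈ Finset.range s, (ENNReal.ofReal (3 / 4)) ^ k := by
          refine Finset.sum_le_sum fun k hk => ?_
          have hk' := Finset.mem_range.1 hk
          have : Nat.dist s (s - 1 - k) = k + 1 := by unfold Nat.dist; omega
          rw [this]
          exact pow_le_pow_right_of_le_one' hle1 (by omega)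
      _ ≤ ∑' m : ℕ, (ENNReal.ofReal (3 / 4)) ^ m := ENNReal.sum_le_tsum _
      _ ≤ 4 := hgeo
  have h3 : ∑' k : ℕ, (ENNReal.ofReal (3 / 4)) ^ (Nat.dist s (k + s)) ≤ 4 := by
    refine le_trans (le_of_eq ?_) hgeo
    refine tsum_congr fun k => ?_
    congr 1
    unfold Nat.dist
    omega
  rw [hsplit]
  calc _ ≤ (4 : ℝ≥0∞) + 4 := add_le_add h2 h3
    _ = 8 := by norm_num

theorem sum_min_le {d : ℕ} (S : Finset (Fin d → ℕ)) (N : ℕ) (hS : ∀ s ∈ S, ∑ j, s j ≤ N)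
    (s : Fin d → ℕ) (hs : s ∈ S) :
    ∑ s' ∈ S, (2 : ℝ≥0∞) ^ (∑ j, min (s j) (s' j)) ≤ 2 ^ N * 8 ^ d := by
  have h1 : ∀ s' ∈ S, (2 : ℝ≥0∞) ^ (∑ j, min (s j) (s' j)) ≤
      2 ^ N * ∏ j, (ENNReal.ofReal (3 / 4)) ^ (Nat.dist (s j) (s' j)) := by
    intro s' hs'
    have h2 : 2 * (∑ j, min (s j) (s' j)) + ∑ j, Nat.dist (s j) (s' j) ≤ 2 * N := by
      have h3 : 2 * (∑ j, min (s j) (s' j)) + ∑ j, Nat.dist (s j) (s' j) =
          ∑ j, s j + ∑ j, s' j := by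
        rw [Finset.mul_sum, ← Finset.sum_add_distrib, ← Finset.sum_add_distrib]
        refine Finset.sum_congr rfl fun j _ => ?_
        unfold Nat.dist
        omega
      rw [h3]
      have := hS s hs
      have := hS s' hs'
      omega
    have hreal : (2 : ℝ) ^ (∑ j, min (s j) (s' j)) ≤
        2 ^ N * (3 / 4) ^ (∑ j, Nat.dist (s j) (s' j)) := by
      have hsq : ((2 : ℝ) ^ (∑ j, min (s j) (s' j))) ^ 2 ≤
          (2 ^ N * (3 / 4) ^ (∑ j, Nat.dist (s j) (s' j))) ^ 2 := by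
        set a := ∑ j, min (s j) (s' j)
        set D := ∑ j, Nat.dist (s j) (s' j)
        have h5 : (2 : ℝ) ^ (2 * a) * 2 ^ D ≤ 2 ^ (2 * N) := by
          rw [← pow_add]
          exact pow_le_pow_right₀ (by norm_num) h2
        have h6 : (1 : ℝ) ≤ (9 / 8) ^ D := one_le_pow₀ (by norm_num)
        calc ((2 : ℝ) ^ a) ^ 2 = 2 ^ (2 * a) * 1 := by rw [← pow_mul, mul_comm a 2, mul_one]
          _ ≤ 2 ^ (2 * a) * (9 / 8) ^ D := by gcongr
          _ = 2 ^ (2 * a) * 2 ^ D * (9 / 16) ^ D := by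
              rw [mul_assoc, ← mul_pow]
              norm_num
          _ ≤ 2 ^ (2 * N) * (9 / 16) ^ D := by gcongr
          _ = (2 ^ N * (3 / 4) ^ D) ^ 2 := by
              rw [mul_pow, ← pow_mul, ← pow_mul, mul_comm N 2, mul_comm D 2, pow_mul (3 / 4 : ℝ) 2 D]
              norm_num
      exact le_of_sq_le_sq hsq (by positivity)
    have h7 := ENNReal.ofReal_le_ofReal hreal
    rw [ENNReal.ofReal_mul (by positivity), ENNReal.ofReal_pow (by norm_num),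
      ENNReal.ofReal_pow (by norm_num), ENNReal.ofReal_pow (by norm_num)] at h7
    rw [Finset.prod_pow_eq_pow_sum]
    simpa using h7
  calc ∑ s' ∈ S, (2 : ℝ≥0∞) ^ (∑ j, min (s j) (s' j))
      ≤ ∑ s' ∈ S, 2 ^ N * ∏ j, (ENNReal.ofReal (3 / 4)) ^ (Nat.dist (s j) (s' j)) :=
        Finset.sum_le_sum h1
    _ = 2 ^ N * ∑ s' ∈ S, ∏ j, (ENNReal.ofReal (3 / 4)) ^ (Nat.dist (s j) (s' j)) := by
        rw [Finset.mul_sum]
    _ ≤ 2 ^ N * ∑' s' : Fin d → ℕ, ∏ j, (ENNReal.ofReal (3 / 4)) ^ (Nat.dist (s j) (s' j)) := by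
        gcongr
        exact ENNReal.sum_le_tsum _
    _ ≤ 2 ^ N * ∏ j, ∑' k : ℕ, (ENNReal.ofReal (3 / 4)) ^ (Nat.dist (s j) k) := by
        gcongr
        exact tsum_pi_le (fun j k => (ENNReal.ofReal (3 / 4)) ^ (Nat.dist (s j) k))
    _ ≤ 2 ^ N * ∏ _j : Fin d, (8 : ℝ≥0∞) := by
        gcongr with j _
        exact tsum_dist34_le _
    _ = _ := by simp

end Pool.Agent.Helper150.Moment
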