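import Mathlib
import Pool.Agent.Helper150.Moment

namespace Pool.Agent.Helper150.Select

open MeasureTheory
open scoped ENNReal
open Pool.Agent.Helper150.Avg Pool.Agent.Helper150.SquareFn Pool.Agent.Helper150.Nodes
open Pool.Agent.Helper150.Moment

variable {α : Type}

/-- the weighted overlap function -/
noncomputable def V {d : ℕ} (nd : α → Fin d → ℝ) (S : Finset (Fin d → ℕ)) (Y : Finset α)
    (x : Fin d → ℝ) : ℝ≥0∞ :=
  ∑ i ∈ S ×ˢ Y, (2 : ℝ≥0∞) ^ (∑ j, i.1 j) * (box i.1 (nd i.2)).indicator (fun _ => 1) x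

theorem measurable_V {d : ℕ} (nd : α → Fin d → ℝ) (S : Finset (Fin d → ℕ)) (Y : Finset α) :
    Measurable (V nd S Y) := by
  unfold V
  refine Finset.measurable_sum _ fun i _ => ?_
  exact Measurable.const_mul (measurable_const.indicator (measurableSet_box _ _)) _

theorem lintegral_V_sq {d : ℕ} (nd : α → Fin d → ℝ) (S : Finset (Fin d → ℕ)) (Y : Finset α) :
    ∫⁻ x, (V nd S Y x) ^ 2 = ∑ s ∈ S, ∑ m ∈ Y, ∑ s' ∈ S, ∑ m' ∈ Y,
      (2 : ℝ≥0∞) ^ (∑ j, s j) * 2 ^ (∑ j, s' j) * volume (box s (nd m) ∩ box s' (nd m')) := by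
  have h1 : ∀ x, (V nd S Y x) ^ 2 = ∑ i ∈ S ×ˢ Y, ∑ k ∈ S ×ˢ Y,
      ((2 : ℝ≥0∞) ^ (∑ j, i.1 j) * 2 ^ (∑ j, k.1 j)) *
        (box i.1 (nd i.2) ∩ box k.1 (nd k.2)).indicator (fun _ => 1) x := by
    intro x
    rw [V, sq, Finset.sum_mul_sum]
    refine Finset.sum_congr rfl fun i _ => Finset.sum_congr rfl fun k _ => ?_
    have h2 : (box i.1 (nd i.2) ∩ box k.1 (nd k.2)).indicator (fun _ => (1 : ℝ≥0∞)) x =
        (box i.1 (nd i.2)).indicator (fun _ => 1) x *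
        (box k.1 (nd k.2)).indicator (fun _ => 1) x := by
      by_cases ha : x ∈ box i.1 (nd i.2) <;> by_cases hb : x ∈ box k.1 (nd k.2) <;>
        simp [ha, hb]
    rw [h2]
    ring
  simp_rw [h1]
  have hm : ∀ i k : (Fin d → ℕ) × α, Measurable fun x =>
      ((2 : ℝ≥0∞) ^ (∑ j, i.1 j) * 2 ^ (∑ j, k.1 j)) *
        (box i.1 (nd i.2) ∩ box k.1 (nd k.2)).indicator (fun _ => (1 : ℝ≥0∞)) x := fun i k =>
    Measurable.const_mul (measurable_const.indicator
      ((measurableSet_box _ _).inter (measurableSet_box _ _))) _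
  rw [lintegral_finsetSum _ fun i _ => Finset.measurable_sum _ fun k _ => hm i k]
  have h3 : ∀ i ∈ S ×ˢ Y, ∫⁻ x, ∑ k ∈ S ×ˢ Y,
      ((2 : ℝ≥0∞) ^ (∑ j, i.1 j) * 2 ^ (∑ j, k.1 j)) *
        (box i.1 (nd i.2) ∩ box k.1 (nd k.2)).indicator (fun _ => (1 : ℝ≥0∞)) x =
      ∑ s' ∈ S, ∑ m' ∈ Y, (2 : ℝ≥0∞) ^ (∑ j, i.1 j) * 2 ^ (∑ j, s' j) *
        volume (box i.1 (nd i.2) ∩ box s' (nd m')) := by
    intro i _
    rw [lintegral_finsetSum _ fun k _ => hm i k, ← Finset.sum_product']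
    refine Finset.sum_congr rfl fun k _ => ?_
    rw [lintegral_const_mul _ (measurable_const.indicator
      ((measurableSet_box _ _).inter (measurableSet_box _ _))),
      lintegral_indicator ((measurableSet_box _ _).inter (measurableSet_box _ _)),
      setLIntegral_const, one_mul]
  rw [Finset.sum_congr rfl h3, Finset.sum_product]

theorem lintegral_V_sq_le {d : ℕ} (hd : 0 < d) (nd : α → Fin d → ℝ) {δ : ℝ} (hδ : 0 < δ)
    (hsep : Sep nd δ) (S : Finset (Fin d → ℕ)) (Y : Finset α) (N : ℕ)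
    (hS : ∀ s ∈ S, ∑ j, s j ≤ N) :
    ∫⁻ x, (V nd S Y x) ^ 2 ≤ (S.card : ℝ≥0∞) * Y.card *
      (2 ^ d * (2 ^ N * 8 ^ d) + S.card * ENNReal.ofReal (3 * 8 ^ d / δ)) := by
  rw [lintegral_V_sq]
  calc ∑ s ∈ S, ∑ m ∈ Y, ∑ s' ∈ S, ∑ m' ∈ Y,
      (2 : ℝ≥0∞) ^ (∑ j, s j) * 2 ^ (∑ j, s' j) * volume (box s (nd m) ∩ box s' (nd m'))
      ≤ ∑ s ∈ S, ∑ m ∈ Y, ∑ s' ∈ S,
        (2 ^ d * 2 ^ (∑ j, min (s j) (s' j)) + ENNReal.ofReal (3 * 8 ^ d / δ)) :=
        Finset.sum_le_sum fun s _ => Finset.sum_le_sum fun m _ => Finset.sum_le_sum fun s' _ =>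
          pair_sum_le hd nd hδ hsep Y s s' m
    _ ≤ ∑ s ∈ S, ∑ m ∈ Y, (2 ^ d * (2 ^ N * 8 ^ d) +
          S.card * ENNReal.ofReal (3 * 8 ^ d / δ)) := by
        refine Finset.sum_le_sum fun s hs => Finset.sum_le_sum fun m _ => ?_
        rw [Finset.sum_add_distrib, ← Finset.mul_sum, Finset.sum_const, nsmul_eq_mul]
        gcongr
        exact sum_min_le S N hS s hs
    _ = _ := by
        rw [Finset.sum_const, Finset.sum_const, nsmul_eq_mul, nsmul_eq_mul]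
        ring

/-- selection of a positive proportion of the boxes on which the overlap is controlled -/
theorem select {d : ℕ} (hd : 0 < d) (nd : α → Fin d → ℝ) {δ : ℝ} (hδ : 0 < δ)
    (hsep : Sep nd δ) (S : Finset (Fin d → ℕ)) (Y : Finset α) (N : ℕ)
    (hS : ∀ s ∈ S, ∑ j, s j ≤ N) (hSne : S.Nonempty) {Γ : ℝ} (hΓ : 0 < Γ)
    (hN : (2 : ℝ) ^ N ≤ Γ * (S.card / δ)) :
    ∃ (G : Set (Fin d → ℝ)) (P : Finset ((Fin d → ℕ) × α)), MeasurableSet G ∧ P ⊆ S ×ˢ Y ∧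
      (∀ x ∈ G, V nd S Y x ≤ ENNReal.ofReal (2 * (16 ^ d * Γ + 3 * 8 ^ d) * (S.card / δ))) ∧
      (∀ i ∈ P, volume (box i.1 (nd i.2)) ≤ 2 * volume (box i.1 (nd i.2) ∩ G)) ∧
      (S.card : ℝ) * Y.card ≤ 2 * P.card := by
  classical
  set M1 : ℝ := 16 ^ d * Γ + 3 * 8 ^ d with hM1
  have hM1pos : 0 < M1 := by positivity
  have hScard : (0 : ℝ) < S.card := by exact_mod_cast hSne.card_pos
  set τ : ℝ := 2 * M1 * (S.card / δ) with hτ
  have hτpos : 0 < τ := by positivity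
  set G : Set (Fin d → ℝ) := {x | V nd S Y x ≤ ENNReal.ofReal τ} with hG
  have hGm : MeasurableSet G := measurableSet_le (measurable_V nd S Y) measurable_const
  set P : Finset ((Fin d → ℕ) × α) := (S ×ˢ Y).filter fun i =>
    volume (box i.1 (nd i.2)) ≤ 2 * volume (box i.1 (nd i.2) ∩ G) with hP
  refine ⟨G, P, hGm, Finset.filter_subset _ _, fun x hx => hx, fun i hi =>
    (Finset.mem_filter.1 hi).2, ?_⟩
  set Bd : Finset ((Fin d → ℕ) × α) := (S ×ˢ Y).filter fun i =>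
    ¬ volume (box i.1 (nd i.2)) ≤ 2 * volume (box i.1 (nd i.2) ∩ G) with hBd
  have hcardsum : P.card + Bd.card = S.card * Y.card := by
    rw [hP, hBd, Finset.card_filter_add_card_filter_not, Finset.card_product]
  have hsq : ∫⁻ x, (V nd S Y x) ^ 2 ≤ ENNReal.ofReal (S.card * Y.card * (M1 * (S.card / δ))) := by
    refine (lintegral_V_sq_le hd nd hδ hsep S Y N hS).trans ?_
    have h1 : (2 : ℝ≥0∞) ^ d * (2 ^ N * 8 ^ d) + S.card * ENNReal.ofReal (3 * 8 ^ d / δ) =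
        ENNReal.ofReal (2 ^ d * (2 ^ N * 8 ^ d) + S.card * (3 * 8 ^ d / δ)) := by
      rw [ENNReal.ofReal_add (by positivity) (by positivity), ENNReal.ofReal_mul (by positivity),
        ENNReal.ofReal_mul (by positivity), ENNReal.ofReal_mul (by positivity),
        ENNReal.ofReal_pow (by norm_num), ENNReal.ofReal_pow (by norm_num),
        ENNReal.ofReal_pow (by norm_num), ENNReal.ofReal_natCast]
      simp
    rw [h1, ← ENNReal.ofReal_natCast, ← ENNReal.ofReal_natCast,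
      ← ENNReal.ofReal_mul (by positivity), ← ENNReal.ofReal_mul (by positivity)]
    apply ENNReal.ofReal_le_ofReal
    refine mul_le_mul_of_nonneg_left ?_ (by positivity)
    calc (2 : ℝ) ^ d * (2 ^ N * 8 ^ d) + S.card * (3 * 8 ^ d / δ)
        ≤ 2 ^ d * (Γ * (S.card / δ) * 8 ^ d) + S.card * (3 * 8 ^ d / δ) := by gcongr
      _ = M1 * (S.card / δ) := by
          rw [hM1, show (16 : ℝ) ^ d = 2 ^ d * 8 ^ d by rw [← mul_pow]; norm_num]
          ring
  have hout : ∫⁻ x in Gᶜ, V nd S Y x ≤ ENNReal.ofReal (S.card * Y.card / 2) := by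
    have h2 : ∫⁻ x in Gᶜ, V nd S Y x ≤ (ENNReal.ofReal τ)⁻¹ * ∫⁻ x, (V nd S Y x) ^ 2 := by
      rw [← lintegral_const_mul _ ((measurable_V nd S Y).pow_const 2),
        ← lintegral_indicator hGm.compl]
      refine lintegral_mono fun x => ?_
      by_cases hx : x ∈ Gᶜ
      · rw [Set.indicator_of_mem hx]
        have h3 : ENNReal.ofReal τ < V nd S Y x := by
          simpa [hG] using hx
        have h4 : (ENNReal.ofReal τ) ≠ 0 := by simpa using hτpos
        calc V nd S Y x = ((ENNReal.ofReal τ)⁻¹ * ENNReal.ofReal τ) * V nd S Y x := by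
              rw [ENNReal.inv_mul_cancel h4 ENNReal.ofReal_ne_top, one_mul]
          _ ≤ ((ENNReal.ofReal τ)⁻¹ * V nd S Y x) * V nd S Y x := by gcongr
          _ = (ENNReal.ofReal τ)⁻¹ * V nd S Y x ^ 2 := by ring
      · rw [Set.indicator_of_notMem hx]; exact zero_le
    refine h2.trans ?_
    calc (ENNReal.ofReal τ)⁻¹ * ∫⁻ x, (V nd S Y x) ^ 2
        ≤ (ENNReal.ofReal τ)⁻¹ * ENNReal.ofReal (S.card * Y.card * (M1 * (S.card / δ))) := by
          gcongr
      _ = ENNReal.ofReal (τ⁻¹ * (S.card * Y.card * (M1 * (S.card / δ)))) := by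
          rw [ENNReal.ofReal_mul (p := τ⁻¹) (by positivity), ENNReal.ofReal_inv_of_pos hτpos]
      _ = _ := by
          congr 1
          rw [hτ]
          field_simp
  have hbad : (Bd.card : ℝ≥0∞) * 2 ^ d ≤ 2 * ∫⁻ x in Gᶜ, V nd S Y x := by
    have h5 : ∀ i ∈ Bd, (2 : ℝ≥0∞) ^ d ≤
        2 * ((2 : ℝ≥0∞) ^ (∑ j, i.1 j) * volume (box i.1 (nd i.2) ∩ Gᶜ)) := by
      intro i hi
      have h6 := (Finset.mem_filter.1 hi).2
      push Not at h6
      have h7 : volume (box i.1 (nd i.2) ∩ G) + volume (box i.1 (nd i.2) ∩ Gᶜ) =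
          volume (box i.1 (nd i.2)) := by
        have := measure_inter_add_sdiff (μ := volume) (box i.1 (nd i.2)) hGm
        rwa [Set.sdiff_eq] at this
      have hvt : volume (box i.1 (nd i.2) ∩ G) ≠ ∞ := by
        refine ne_top_of_le_ne_top ?_ (measure_mono Set.inter_subset_left)
        rw [volume_box]
        exact ENNReal.prod_ne_top fun j _ => ENNReal.ofReal_ne_top
      have h8 : volume (box i.1 (nd i.2)) ≤ 2 * volume (box i.1 (nd i.2) ∩ Gᶜ) := by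
        rw [← h7] at h6 ⊢
        rw [two_mul] at h6 ⊢
        have h9 : volume (box i.1 (nd i.2) ∩ G) < volume (box i.1 (nd i.2) ∩ Gᶜ) :=
          (ENNReal.add_lt_add_iff_left hvt).1 h6
        gcongr
      calc (2 : ℝ≥0∞) ^ d = (2 : ℝ≥0∞) ^ (∑ j, i.1 j) * volume (box i.1 (nd i.2)) :=
            (two_pow_mul_volume_box _ _).symm
        _ ≤ (2 : ℝ≥0∞) ^ (∑ j, i.1 j) * (2 * volume (box i.1 (nd i.2) ∩ Gᶜ)) := by gcongr
        _ = _ := by ring
    have hVint : ∑ i ∈ Bd, (2 : ℝ≥0∞) ^ (∑ j, i.1 j) * volume (box i.1 (nd i.2) ∩ Gᶜ) ≤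
        ∫⁻ x in Gᶜ, V nd S Y x := by
      have h10 : ∫⁻ x in Gᶜ, V nd S Y x = ∑ i ∈ S ×ˢ Y, (2 : ℝ≥0∞) ^ (∑ j, i.1 j) *
          volume (box i.1 (nd i.2) ∩ Gᶜ) := by
        unfold V
        rw [lintegral_finsetSum _ fun i _ =>
          Measurable.const_mul (measurable_const.indicator (measurableSet_box _ _)) _]
        refine Finset.sum_congr rfl fun i _ => ?_
        rw [lintegral_const_mul _ (measurable_const.indicator (measurableSet_box _ _)),
          lintegral_indicator (measurableSet_box _ _), setLIntegral_const, one_mul,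
          Measure.restrict_apply (measurableSet_box _ _)]
      rw [h10]
      exact Finset.sum_le_sum_of_subset (Finset.filter_subset _ _)
    calc (Bd.card : ℝ≥0∞) * 2 ^ d = ∑ _i ∈ Bd, (2 : ℝ≥0∞) ^ d := by
          rw [Finset.sum_const, nsmul_eq_mul]
      _ ≤ ∑ i ∈ Bd, 2 * ((2 : ℝ≥0∞) ^ (∑ j, i.1 j) * volume (box i.1 (nd i.2) ∩ Gᶜ)) :=
          Finset.sum_le_sum h5
      _ = 2 * ∑ i ∈ Bd, (2 : ℝ≥0∞) ^ (∑ j, i.1 j) * volume (box i.1 (nd i.2) ∩ Gᶜ) := by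
          rw [Finset.mul_sum]
      _ ≤ _ := by gcongr
  have hfin : (Bd.card : ℝ) * 2 ^ d ≤ S.card * Y.card := by
    have h11 : (Bd.card : ℝ≥0∞) * 2 ^ d ≤ ENNReal.ofReal (S.card * Y.card) := by
      refine hbad.trans ?_
      calc 2 * ∫⁻ x in Gᶜ, V nd S Y x ≤ 2 * ENNReal.ofReal (S.card * Y.card / 2) := by gcongr
        _ = ENNReal.ofReal 2 * ENNReal.ofReal (S.card * Y.card / 2) := by simp
        _ = _ := by
            rw [← ENNReal.ofReal_mul (by norm_num)]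
            congr 1
            ring
    have h12 : (Bd.card : ℝ≥0∞) * 2 ^ d = ENNReal.ofReal (Bd.card * 2 ^ d) := by
      rw [ENNReal.ofReal_mul (by positivity), ENNReal.ofReal_pow (by norm_num),
        ENNReal.ofReal_natCast]
      simp
    rw [h12] at h11
    exact (ENNReal.ofReal_le_ofReal_iff (by positivity)).1 h11
  have h13 : (2 : ℝ) ≤ 2 ^ d := by
    calc (2 : ℝ) = 2 ^ 1 := (pow_one _).symm
      _ ≤ 2 ^ d := pow_le_pow_right₀ (by norm_num) hd
  have h14 : (P.card : ℝ) + Bd.card = S.card * Y.card := by exact_mod_cast hcardsum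
  have h15 : (Bd.card : ℝ) * 2 ≤ S.card * Y.card := by
    refine le_trans ?_ hfin
    gcongr
  linarith

end Pool.Agent.Helper150.Select
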