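import Mathlib
import Pool.Agent.Helper150.Select
import Pool.Agent.Helper150.NodesExist
import Pool.Agent.Helper150.Bump
import Pool.Agent.Helper150.Kernel

namespace Pool.Agent.Helper150.Core

open MeasureTheory Complex
open scoped ENNReal
open Pool.Agent.Helper150.Frolov Pool.Agent.Helper150.Avg Pool.Agent.Helper150.Blocks
open Pool.Agent.Helper150.SquareFn Pool.Agent.Helper150.Nodes Pool.Agent.Helper150.Moment
open Pool.Agent.Helper150.Select Pool.Agent.Helper150.NodesExist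

theorem decay_aux {f : ℝ → ℝ} {C b : ℝ} (hC : 0 ≤ C) (hb : 0 < b)
    (h1 : ∀ ξ, |ξ| ^ 4 * f ξ ≤ C) (h2 : ∀ ξ, f ξ ≤ C * |ξ| ^ 4) (s k : ℕ) (ξ : ℝ)
    (hle : |ξ| ≤ b * 2 ^ k) (hge : 1 ≤ k → b⁻¹ * 2 ^ k ≤ |ξ|) :
    f (((2 : ℝ) ^ s)⁻¹ * ξ) ≤ (C * b ^ 4) * (1 / 16) ^ (Nat.dist k s) := by
  have habs : |((2 : ℝ) ^ s)⁻¹ * ξ| = ((2 : ℝ) ^ s)⁻¹ * |ξ| := by
    rw [abs_mul, abs_of_pos (by positivity)]
  rcases le_or_gt k s with h | h
  · obtain ⟨m, rfl⟩ := Nat.exists_eq_add_of_le h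
    have hdist : Nat.dist k (k + m) = m := by unfold Nat.dist; omega
    rw [hdist]
    refine (h2 _).trans ?_
    rw [habs, mul_assoc]
    refine mul_le_mul_of_nonneg_left ?_ hC
    have h3 : ((2 : ℝ) ^ (k + m))⁻¹ * |ξ| ≤ b * (1 / 2) ^ m := by
      calc ((2 : ℝ) ^ (k + m))⁻¹ * |ξ| ≤ ((2 : ℝ) ^ (k + m))⁻¹ * (b * 2 ^ k) := by gcongr
        _ = b * (1 / 2) ^ m := by
          rw [pow_add, one_div, inv_pow]; field_simp
    calc (((2 : ℝ) ^ (k + m))⁻¹ * |ξ|) ^ 4 ≤ (b * (1 / 2) ^ m) ^ 4 := by gcongr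
      _ = b ^ 4 * (1 / 16) ^ m := by
          rw [mul_pow, ← pow_mul, mul_comm m 4, pow_mul]; norm_num
  · obtain ⟨m, rfl⟩ := Nat.exists_eq_add_of_le h.le
    have hdist : Nat.dist (s + m) s = m := by unfold Nat.dist; omega
    rw [hdist]
    have hge' := hge (by omega)
    have h3 : b⁻¹ * 2 ^ m ≤ |((2 : ℝ) ^ s)⁻¹ * ξ| := by
      rw [habs]
      calc b⁻¹ * 2 ^ m = ((2 : ℝ) ^ s)⁻¹ * (b⁻¹ * 2 ^ (s + m)) := by
            rw [pow_add]; field_simp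
        _ ≤ _ := by gcongr
    have hpos : 0 < b⁻¹ * (2 : ℝ) ^ m := by positivity
    rcases le_or_gt (f (((2 : ℝ) ^ s)⁻¹ * ξ)) 0 with h0 | h0
    · exact h0.trans (by positivity)
    · have h4 : (b⁻¹ * 2 ^ m) ^ 4 * f (((2 : ℝ) ^ s)⁻¹ * ξ) ≤ C := by
        refine le_trans ?_ (h1 (((2 : ℝ) ^ s)⁻¹ * ξ))
        gcongr
      have h5 : f (((2 : ℝ) ^ s)⁻¹ * ξ) ≤ C / (b⁻¹ * 2 ^ m) ^ 4 := by
        rw [le_div_iff₀ (by positivity), mul_comm]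
        exact h4
      refine h5.trans (le_of_eq ?_)
      have h6 : (1 / 16 : ℝ) ^ m = (((2 : ℝ) ^ m) ^ 4)⁻¹ := by
        rw [← pow_mul, mul_comm m 4, pow_mul, one_div, inv_pow]
        norm_num
      rw [h6, mul_pow, inv_pow]
      field_simp

theorem good_bump (φ : ℕ → ℝ → ℝ) (hφ : IsDyadicResolution φ) :
    ∃ (β H : ℝ → ℂ) (C : ℝ), 0 ≤ C ∧ Continuous β ∧ (∀ x, β x ≠ 0 → |x| ≤ 1) ∧ β 0 = 1 ∧
      (∫ x, β x = 0) ∧ Continuous H ∧
      (∀ ξ : ℝ, ∫ x : ℝ, cexp (-(2 * Real.pi * I * (x * ξ))) * β x = H ξ) ∧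
      (∀ (k s : ℕ) (t : ℝ), ‖factor φ H k s t‖ ≤
        C * (1 / 8) ^ (Nat.dist k s) * (1 / (1 + (2 ^ s * t) ^ 2))) := by
  obtain ⟨β, H, H1, H2, C1, hC1, hβ, hsupp, hβ0, hint, hFT, hd1, hd2, hcont, hdec, hdec'⟩ :=
    Pool.Agent.Helper150.Bump.exists_bump
  obtain ⟨b, hb, hker⟩ := Pool.Agent.Helper150.Kernel.kernel_bound φ hφ
  obtain ⟨C, hC, hk⟩ := hker (C1 * b ^ 4) (by positivity)
  have hHc : Continuous H := by
    have : Differentiable ℝ H := fun x => (hd1 x).differentiableAt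
    exact this.continuous
  refine ⟨β, H, C, hC, hβ, hsupp, hβ0, hint, hHc, hFT, fun k s t => ?_⟩
  have h := hk H H1 H2 hd1 hd2 hcont s (fun k ξ hle hge =>
    ⟨decay_aux (f := fun ξ => ‖H ξ‖) hC1 hb (fun ξ => (hdec ξ).1) (fun ξ => (hdec' ξ).1) s k ξ
      hle hge,
    decay_aux (f := fun ξ => ‖H1 ξ‖) hC1 hb (fun ξ => (hdec ξ).2.1) (fun ξ => (hdec' ξ).2.1) s k ξ
      hle hge,
    decay_aux (f := fun ξ => ‖H2 ξ‖) hC1 hb (fun ξ => (hdec ξ).2.2) (fun ξ => (hdec' ξ).2.2) s k ξ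
      hle hge⟩) k t
  unfold factor
  rw [norm_mul, Complex.norm_real, Real.norm_eq_abs, abs_of_pos (by positivity)]
  exact h

/-- the shifted bumps overlap boundedly -/
theorem overlap_le {α : Type} {d : ℕ} (hd : 0 < d) (nd : α → Fin d → ℝ) {δ : ℝ} (hδ : 0 < δ)
    (hsep : Sep nd δ) (S : Finset (Fin d → ℕ)) (Y : Finset α)
    (hS : ∀ s ∈ S, ∏ j, ((2 : ℝ) ^ (s j))⁻¹ ≤ δ) (P : Finset ((Fin d → ℕ) × α))
    (hP : P ⊆ S ×ˢ Y) (x : Fin d → ℝ) (s' : Fin d → ℕ) :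
    ∑ i ∈ P, (∏ j, (1 / 8 : ℝ≥0∞) ^ (Nat.dist (s' j) (i.1 j))) * W i.1 (nd i.2) x ≤
      4 ^ d * (3 * 16 ^ d) := by
  classical
  calc ∑ i ∈ P, (∏ j, (1 / 8 : ℝ≥0∞) ^ (Nat.dist (s' j) (i.1 j))) * W i.1 (nd i.2) x
      ≤ ∑ i ∈ S ×ˢ Y, (∏ j, (1 / 8 : ℝ≥0∞) ^ (Nat.dist (s' j) (i.1 j))) * W i.1 (nd i.2) x :=
        Finset.sum_le_sum_of_subset hP
    _ = ∑ s ∈ S, (∏ j, (1 / 8 : ℝ≥0∞) ^ (Nat.dist (s' j) (s j))) * ∑ m ∈ Y, W s (nd m) x := by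
        rw [Finset.sum_product]
        refine Finset.sum_congr rfl fun s _ => ?_
        rw [Finset.mul_sum]
    _ ≤ ∑ s ∈ S, (∏ j, (1 / 4 : ℝ≥0∞) ^ (Nat.dist (s j) (s' j))) * (3 * 16 ^ d) := by
        refine Finset.sum_le_sum fun s hs => ?_
        refine mul_le_mul' ?_ (sum_W_le hd nd hδ hsep Y s (hS s hs) x)
        refine Finset.prod_le_prod' fun j _ => ?_
        rw [Nat.dist_comm]
        gcongr
        norm_num
    _ = (∑ s ∈ S, ∏ j, (1 / 4 : ℝ≥0∞) ^ (Nat.dist (s j) (s' j))) * (3 * 16 ^ d) := by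
        rw [Finset.sum_mul]
    _ ≤ 4 ^ d * (3 * 16 ^ d) := by
        gcongr
        calc ∑ s ∈ S, ∏ j, (1 / 4 : ℝ≥0∞) ^ (Nat.dist (s j) (s' j))
            ≤ ∑' s : Fin d → ℕ, ∏ j, (1 / 4 : ℝ≥0∞) ^ (Nat.dist (s j) (s' j)) :=
              ENNReal.sum_le_tsum _
          _ ≤ ∏ j : Fin d, ∑' k : ℕ, (1 / 4 : ℝ≥0∞) ^ (Nat.dist k (s' j)) :=
              tsum_pi_le (fun j k => (1 / 4 : ℝ≥0∞) ^ (Nat.dist k (s' j)))
          _ ≤ ∏ _j : Fin d, (4 : ℝ≥0∞) := Finset.prod_le_prod' fun j _ => tsum_dist_le _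
          _ = 4 ^ d := by simp

theorem integral_prodBump {d : ℕ} (hd : 0 < d) {β : ℝ → ℂ} (hint : ∫ x, β x = 0)
    (s : Fin d → ℕ) (y : Fin d → ℝ) : ∫ x, prodBump β s y x = 0 := by
  unfold prodBump
  rw [integral_fintype_prod_volume_eq_prod (fun j (t : ℝ) => β (2 ^ (s j) * (t - y j)))]
  refine Finset.prod_eq_zero (Finset.mem_univ ⟨0, hd⟩) ?_
  have h2 : ∫ x : ℝ, β (2 ^ (s ⟨0, hd⟩) * (x - y ⟨0, hd⟩)) =
      ∫ x : ℝ, β (2 ^ (s ⟨0, hd⟩) * x) :=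
    integral_sub_right_eq_self (fun x => β (2 ^ (s ⟨0, hd⟩) * x)) (y ⟨0, hd⟩)
  rw [h2, Measure.integral_comp_mul_left, hint, smul_zero]

theorem integrable_prodBump {d : ℕ} {β : ℝ → ℂ} (hβ : Continuous β)
    (hsupp : ∀ x, β x ≠ 0 → |x| ≤ 1) (s : Fin d → ℕ) (y : Fin d → ℝ) :
    Integrable (prodBump β s y) :=
  (continuous_prodBump hβ s y).integrable_of_hasCompactSupport
    (hasCompactSupport_prodBump hsupp s y)

theorem prodBump_nodes {d : ℕ} {α : Type} [DecidableEq α] {β : ℝ → ℂ}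
    (hsupp : ∀ x, β x ≠ 0 → |x| ≤ 1) (hβ0 : β 0 = 1) (nd : α → Fin d → ℝ) {δ : ℝ}
    (hsep : Sep nd δ) (s : Fin d → ℕ) (hs : ∏ j, ((2 : ℝ) ^ (s j))⁻¹ < δ) (m m' : α) :
    prodBump β s (nd m') (nd m) = if m' = m then 1 else 0 := by
  split_ifs with h
  · subst h
    unfold prodBump
    simp [hβ0]
  · by_contra hne
    have h1 := prodBump_ne_zero hsupp s (nd m') (nd m) hne
    have h2 := hsep m m' (fun h' => h h'.symm)
    have h3 : ∏ j, |nd m j - nd m' j| ≤ ∏ j, ((2 : ℝ) ^ (s j))⁻¹ :=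
      Finset.prod_le_prod (fun j _ => abs_nonneg _) fun j _ => h1 j
    linarith

/-- value of the rule at the test function -/
theorem rule_value {d : ℕ} (A : Matrix (Fin d) (Fin d) ℝ) (a : ℝ) {β : ℝ → ℂ}
    (hsupp : ∀ x, β x ≠ 0 → |x| ≤ 1) (hβ0 : β 0 = 1) {δ : ℝ} (hsep : Sep (nd A a) δ)
    (P : Finset ((Fin d → ℕ) × (Fin d → ℤ)))
    (hP : ∀ i ∈ P, ∏ j, ((2 : ℝ) ^ (i.1 j))⁻¹ < δ) (c : ℝ) :
    frolovRule A a (fun z => (c : ℂ) * ∑ i ∈ P, prodBump β i.1 (nd A a i.2) z) =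
      ((a ^ d * |A.det| : ℝ) : ℂ)⁻¹ * (c * (P.card : ℂ)) := by
  classical
  unfold frolovRule
  congr 1
  have h1 : ∀ m : Fin d → ℤ, (c : ℂ) * ∑ i ∈ P, prodBump β i.1 (nd A a i.2)
      (a⁻¹ • (A⁻¹).transpose.mulVec (fun j => (m j : ℝ))) =
      c * ∑ i ∈ P, (if m = i.2 then (1 : ℂ) else 0) := by
    intro m
    congr 1
    refine Finset.sum_congr rfl fun i hi => ?_
    have h2 := prodBump_nodes hsupp hβ0 (nd A a) hsep i.1 (hP i hi) m i.2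
    have h3 : (if m = i.2 then (1 : ℂ) else 0) = if i.2 = m then 1 else 0 := by
      simp only [eq_comm]
    rw [h3]
    exact h2
  simp_rw [h1]
  rw [tsum_mul_left, Summable.tsum_finsetSum]
  · congr 1
    rw [Finset.sum_congr rfl fun i _ => tsum_ite_eq i.2 (fun _ => (1 : ℂ))]
    simp
  · intro i _
    exact (hasSum_ite_eq i.2 (1 : ℂ)).summable

theorem norm_alg {c C X Z M : ℝ} (hc : 0 ≤ c) (hX : 0 ≤ X) (hZ : 0 ≤ Z)
    {d : ℕ} {C0 K4 : ℝ≥0∞}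
    (hQ : (ENNReal.ofReal (C ^ d)) ^ 2 * C0 * 4 ^ d * (2 * K4 * ENNReal.ofReal Z) ≤
      ENNReal.ofReal M) (hone : c ^ 2 * X * M ≤ 1) :
    ((ENNReal.ofReal (c * C ^ d)) ^ 2 * C0 * 4 ^ d * (2 * K4 * ENNReal.ofReal (Z * X))) ^
      (1 / 2 : ℝ) ≤ 1 := by
  apply ENNReal.rpow_le_one _ (by norm_num)
  rw [ENNReal.ofReal_mul hc, ENNReal.ofReal_mul hZ]
  calc (ENNReal.ofReal c * ENNReal.ofReal (C ^ d)) ^ 2 * C0 * 4 ^ d *
        (2 * K4 * (ENNReal.ofReal Z * ENNReal.ofReal X))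
      = (ENNReal.ofReal c ^ 2 * ENNReal.ofReal X) *
        ((ENNReal.ofReal (C ^ d)) ^ 2 * C0 * 4 ^ d * (2 * K4 * ENNReal.ofReal Z)) := by ring
    _ ≤ (ENNReal.ofReal c ^ 2 * ENNReal.ofReal X) * ENNReal.ofReal M := by gcongr
    _ = ENNReal.ofReal (c ^ 2 * X * M) := by
        rw [ENNReal.ofReal_mul (by positivity), ENNReal.ofReal_mul (by positivity),
          ENNReal.ofReal_pow hc]
    _ ≤ 1 := by
        rw [← ENNReal.ofReal_one]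
        exact ENNReal.ofReal_le_ofReal hone

theorem rho_le {d : ℕ} {r R : ℝ} (hR : 0 < R) (s : Fin d → ℕ)
    (h : (2 : ℝ) ^ (2 * r * ∑ j, (s j : ℝ)) ≤ R * 2 ^ (∑ j, s j)) :
    rho r s ≤ ENNReal.ofReal R * 2 ^ (∑ j, s j) := by
  unfold rho
  refine (ENNReal.ofReal_le_ofReal h).trans (le_of_eq ?_)
  rw [ENNReal.ofReal_mul hR.le, ENNReal.ofReal_pow (by norm_num)]
  simp

theorem core {d : ℕ} (hd : 0 < d) (φ : ℕ → ℝ → ℝ) (hφ : IsDyadicResolution φ) {r p : ℝ}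
    (hr0 : 0 < r) (hr : r ≤ 1 / 2) (hp : 2 < p) (A : Matrix (Fin d) (Fin d) ℝ) {Γ : ℝ}
    (hΓ : 0 < Γ) :
    ∃ M : ℝ, 0 < M ∧ ∀ (a δ R : ℝ) (S : Finset (Fin d → ℕ)) (Y : Finset (Fin d → ℤ)) (N : ℕ),
      0 < a → 0 < δ → Sep (nd A a) δ → S.Nonempty → (∀ s ∈ S, ∀ j, 2 ≤ s j) →
      (∀ s ∈ S, ∑ j, s j ≤ N) → (∀ s ∈ S, ∏ j, ((2 : ℝ) ^ (s j))⁻¹ < δ) →
      (∀ m ∈ Y, ∀ j, 1 / 4 ≤ nd A a m j ∧ nd A a m j ≤ 3 / 4) →
      (2 : ℝ) ^ N ≤ Γ * (S.card / δ) → 0 < R →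
      (∀ s ∈ S, (2 : ℝ) ^ (2 * r * ∑ j, (s j : ℝ)) ≤ R * 2 ^ (∑ j, s j)) →
      ENNReal.ofReal ((Real.sqrt (M * (R * (S.card / δ))))⁻¹ *
        (S.card * Y.card / (2 * (a ^ d * |A.det|)))) ≤ worstError φ r p A a := by
  classical
  obtain ⟨β, H, C, hC, hβ, hsupp, hβ0, hint, hHc, hFT, hfac⟩ := good_bump φ hφ
  have hKtop : K (p / 2) ≠ ∞ := K_ne_top (by linarith)
  obtain ⟨Z, hZ⟩ : ∃ Z : ℝ, Z = 2 * (16 ^ d * Γ + 3 * 8 ^ d) := ⟨_, rfl⟩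
  have hZpos : 0 < Z := by rw [hZ]; positivity
  obtain ⟨Q, hQ⟩ : ∃ Q : ℝ≥0∞, Q = (ENNReal.ofReal (C ^ d)) ^ 2 * (4 ^ d * (3 * 16 ^ d)) * 4 ^ d *
    (2 * (8 * K (p / 2)) ^ d * ENNReal.ofReal Z) := ⟨_, rfl⟩
  have hQtop : Q ≠ ∞ := by
    rw [hQ]
    finiteness
  obtain ⟨M, hM⟩ : ∃ M : ℝ, M = Q.toReal + 1 := ⟨_, rfl⟩
  have hMpos : 0 < M := by
    rw [hM]
    have : 0 ≤ Q.toReal := ENNReal.toReal_nonneg
    linarith
  have hQM : Q ≤ ENNReal.ofReal M := by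
    rw [ENNReal.le_ofReal_iff_toReal_le hQtop hMpos.le, hM]
    linarith
  refine ⟨M, hMpos, ?_⟩
  intro a δ R S Y N ha hδ hsep hSne hS2 hSN hSδ hY hN hR hrho
  obtain ⟨G, P, hGm, hPsub, hGV, hPvol, hPcard⟩ :=
    select hd (nd A a) hδ hsep S Y N hSN hSne hΓ hN
  have hScard : (0 : ℝ) < S.card := by exact_mod_cast hSne.card_pos
  obtain ⟨X, hX⟩ : ∃ X : ℝ, X = R * (S.card / δ) := ⟨_, rfl⟩
  have hXpos : 0 < X := by rw [hX]; positivity
  obtain ⟨c, hc⟩ : ∃ c : ℝ, c = (Real.sqrt (M * X))⁻¹ := ⟨_, rfl⟩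
  have hcpos : 0 < c := by rw [hc]; positivity
  have hc2 : c ^ 2 * X * M ≤ 1 := by
    rw [hc, inv_pow, Real.sq_sqrt (by positivity)]
    apply le_of_eq
    field_simp
  have hPmem : ∀ i ∈ P, i.1 ∈ S ∧ i.2 ∈ Y := fun i hi => Finset.mem_product.1 (hPsub hi)
  -- the test function
  obtain ⟨f, hf⟩ : ∃ f : (Fin d → ℝ) → ℂ,
    f = fun z => (c : ℂ) * ∑ i ∈ P, prodBump β i.1 (nd A a i.2) z := ⟨_, rfl⟩
  have hfcont : Continuous f := by
    rw [hf]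
    exact continuous_const.mul (continuous_finsetSum _ fun i _ => continuous_prodBump hβ _ _)
  have hinbox : ∀ i ∈ P, ∀ x : Fin d → ℝ, (∀ j, |x j - nd A a i.2 j| ≤ ((2 : ℝ) ^ (i.1 j))⁻¹) →
      ∀ j, 0 ≤ x j ∧ x j ≤ 1 := by
    intro i hi x hx j
    have h1 := hY i.2 (hPmem i hi).2 j
    have h2 := hS2 i.1 (hPmem i hi).1 j
    have h3 : ((2 : ℝ) ^ (i.1 j))⁻¹ ≤ 1 / 4 := by
      have : (2 : ℝ) ^ 2 ≤ 2 ^ (i.1 j) := pow_le_pow_right₀ (by norm_num) h2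
      rw [one_div]
      apply inv_anti₀ (by norm_num)
      linarith
    have h4 := abs_le.1 (hx j)
    constructor <;> linarith [h1.1, h1.2, h4.1, h4.2]
  have hfsupp : ∀ x, f x ≠ 0 → ∀ j, 0 ≤ x j ∧ x j ≤ 1 := by
    intro x hx
    rw [hf] at hx
    have h1 : ∑ i ∈ P, prodBump β i.1 (nd A a i.2) x ≠ 0 := right_ne_zero_of_mul hx
    obtain ⟨i, hi, hne⟩ := Finset.exists_ne_zero_of_sum_ne_zero h1
    exact hinbox i hi x (prodBump_ne_zero hsupp i.1 (nd A a i.2) x hne)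
  have hnorm : mixedNorm φ r p f ≤ 1 := by
    have hnb := norm_bound (r := r) φ hφ hβ hsupp hHc hFT hr0 hr hp P (fun i => i.1)
      (fun i => nd A a i.2)
      hC (fun i _ j k t => hfac k (i.1 j) t) (C0 := 4 ^ d * (3 * 16 ^ d))
      (fun x s' => overlap_le hd (nd A a) hδ hsep S Y (fun s hs => (hSδ s hs).le) P hPsub x s')
      (fun i => box i.1 (nd A a i.2) ∩ G)
      (fun i _ => (measurableSet_box _ _).inter hGm)
      (fun i _ x hx j => mem_box.1 hx.1 j)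
      (fun i hi x hx j => hinbox i hi x (mem_box.1 hx.1) j)
      (D := 2) (fun i hi => by rw [← volume_box i.1 (nd A a i.2)]; exact hPvol i hi)
      (T := ENNReal.ofReal (Z * X)) (fun x => by
        by_cases hxG : x ∈ G
        · calc ∑ i ∈ P, rho r i.1 * (box i.1 (nd A a i.2) ∩ G).indicator (fun _ => 1) x
              ≤ ∑ i ∈ P, ENNReal.ofReal R * ((2 : ℝ≥0∞) ^ (∑ j, i.1 j) *
                (box i.1 (nd A a i.2)).indicator (fun _ => 1) x) := by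
                refine Finset.sum_le_sum fun i hi => ?_
                rw [← mul_assoc]
                refine mul_le_mul' (rho_le hR i.1 (hrho i.1 (hPmem i hi).1)) ?_
                exact Set.indicator_le_indicator_of_subset Set.inter_subset_left
                  (fun _ => zero_le) x
            _ = ENNReal.ofReal R * ∑ i ∈ P, ((2 : ℝ≥0∞) ^ (∑ j, i.1 j) *
                (box i.1 (nd A a i.2)).indicator (fun _ => 1) x) := by
                rw [Finset.mul_sum]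
            _ ≤ ENNReal.ofReal R * V (nd A a) S Y x := by
                gcongr
                exact Finset.sum_le_sum_of_subset hPsub
            _ ≤ ENNReal.ofReal R * ENNReal.ofReal (2 * (16 ^ d * Γ + 3 * 8 ^ d) *
                (S.card / δ)) := by
                gcongr
                exact hGV x hxG
            _ = ENNReal.ofReal (Z * X) := by
                rw [← ENNReal.ofReal_mul hR.le, hZ, hX]
                congr 1
                ring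
        · rw [Finset.sum_eq_zero fun i _ => ?_]
          · exact zero_le
          · rw [Set.indicator_of_notMem (fun h => hxG h.2), mul_zero]) hcpos.le
    rw [hf]
    refine hnb.trans ?_
    exact norm_alg hcpos.le hXpos.le hZpos.le (hQ ▸ hQM) hc2
  have hmem : f ∈ unitBall φ r p := ⟨hfcont, hfsupp, hnorm⟩
  have hI : ∫ x, f x = 0 := by
    rw [hf, integral_const_mul, integral_finsetSum _ fun i _ =>
      integrable_prodBump hβ hsupp i.1 (nd A a i.2)]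
    rw [Finset.sum_eq_zero fun i _ => integral_prodBump hd hint i.1 (nd A a i.2), mul_zero]
  have hval : ‖frolovRule A a f - ∫ x, f x‖ = c * P.card / (a ^ d * |A.det|) := by
    have hD : (0 : ℝ) ≤ a ^ d * |A.det| := by positivity
    rw [hI, sub_zero, hf, rule_value A a hsupp hβ0 hsep P
      (fun i hi => hSδ i.1 (hPmem i hi).1) c, norm_mul, norm_inv, Complex.norm_of_nonneg hD,
      norm_mul, Complex.norm_of_nonneg hcpos.le, Complex.norm_natCast]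
    rw [mul_comm, div_eq_mul_inv]
  unfold worstError
  refine le_iSup₂_of_le f hmem ?_
  apply ENNReal.ofReal_le_ofReal
  rw [hval, ← hX, ← hc]
  calc c * (S.card * Y.card / (2 * (a ^ d * |A.det|))) =
      c * ((S.card * Y.card) / 2) / (a ^ d * |A.det|) := by
        rw [div_mul_eq_div_div]
        ring
    _ ≤ c * P.card / (a ^ d * |A.det|) := by
        gcongr
        linarith

end Pool.Agent.Helper150.Core
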