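import Mathlib

namespace Pool.Agent.Helper150.Lattice

open MeasureTheory
open scoped ENNReal

/-- Minkowski's theorem on linear forms -/
theorem linear_forms {d : ℕ} (M : Matrix (Fin d) (Fin d) ℝ) (hM : M.det ≠ 0) (c : Fin d → ℝ)
    (hc : ∀ j, 0 < c j) (h : |M.det| < ∏ j, c j) :
    ∃ k : Fin d → ℤ, k ≠ 0 ∧ ∀ j, |M.mulVec (fun i => (k i : ℝ)) j| < c j := by
  classical
  set b := Pi.basisFun ℝ (Fin d) with hb
  set L : AddSubgroup (Fin d → ℝ) := (Submodule.span ℤ (Set.range b)).toAddSubgroup with hL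
  have fund : IsAddFundamentalDomain L (ZSpan.fundamentalDomain b) (volume : Measure (Fin d → ℝ)) :=
    ZSpan.isAddFundamentalDomain' b volume
  set s : Set (Fin d → ℝ) := {x | ∀ j, |M.mulVec x j| < c j} with hs
  have hconv : Convex ℝ s := by
    intro x hx y hy a b' ha hb' hab j
    have h1 : M.mulVec (a • x + b' • y) j = a * M.mulVec x j + b' * M.mulVec y j := by
      rw [Matrix.mulVec_add, Matrix.mulVec_smul, Matrix.mulVec_smul]
      simp
    rw [h1]
    have hxj := abs_lt.1 (hx j)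
    have hyj := abs_lt.1 (hy j)
    rw [abs_lt]
    have hcj := hc j
    rcases eq_or_lt_of_le ha with h0 | hpos
    · have : b' = 1 := by linarith
      subst this
      rw [← h0]
      constructor <;> linarith [hyj.1, hyj.2]
    · constructor
      · nlinarith [hxj.1, hyj.1, mul_pos hpos (by linarith [hxj.1] : 0 < M.mulVec x j + c j),
          mul_nonneg hb' (by linarith [hyj.1] : 0 ≤ M.mulVec y j + c j)]
      · nlinarith [hxj.2, hyj.2, mul_pos hpos (by linarith [hxj.2] : 0 < c j - M.mulVec x j),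
          mul_nonneg hb' (by linarith [hyj.2] : 0 ≤ c j - M.mulVec y j)]
  have hsymm : ∀ x ∈ s, -x ∈ s := by
    intro x hx j
    rw [Matrix.mulVec_neg, Pi.neg_apply, abs_neg]
    exact hx j
  have hpre : s = (Matrix.toLin' M) ⁻¹' (Set.pi Set.univ fun j => Set.Ioo (-c j) (c j)) := by
    ext x
    simp only [hs, Set.mem_preimage, Set.mem_pi, Set.mem_univ, true_imp_iff, Set.mem_Ioo,
      Matrix.toLin'_apply]
    exact forall_congr' fun j => abs_lt
  have hvol : volume s = ENNReal.ofReal |(M.det)⁻¹| * ∏ j, ENNReal.ofReal (2 * c j) := by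
    rw [hpre, Measure.addHaar_preimage_linearMap]
    · rw [LinearMap.det_toLin', Real.volume_pi_Ioo]
      congr 1
      refine Finset.prod_congr rfl fun j _ => ?_
      congr 1
      ring
    · rw [LinearMap.det_toLin']; exact hM
  have hlt : volume (ZSpan.fundamentalDomain b) * 2 ^ Module.finrank ℝ (Fin d → ℝ) < volume s := by
    have hF : volume (ZSpan.fundamentalDomain b) = 1 := by
      rw [ZSpan.volume_fundamentalDomain]
      have : (Matrix.of (⇑b) : Matrix (Fin d) (Fin d) ℝ) = 1 := by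
        ext i j
        simp [hb, Matrix.one_apply, Pi.single_apply, eq_comm]
      rw [this]
      simp
    rw [hF, one_mul, hvol, Module.finrank_fintype_fun_eq_card, Fintype.card_fin,
      ← ENNReal.ofReal_prod_of_nonneg (fun j _ => by have := hc j; positivity),
      ← ENNReal.ofReal_mul (abs_nonneg _)]
    have h2 : (2 : ℝ≥0∞) ^ d = ENNReal.ofReal (2 ^ d) := by
      rw [ENNReal.ofReal_pow (by norm_num)]; simp
    rw [h2, ENNReal.ofReal_lt_ofReal_iff']
    have hdet : 0 < |M.det| := abs_pos.2 hM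
    have h3 : |(M.det)⁻¹| * ∏ j, (2 * c j) = 2 ^ d * ((∏ j, c j) / |M.det|) := by
      rw [Finset.prod_mul_distrib, Finset.prod_const, Finset.card_univ, Fintype.card_fin, abs_inv]
      field_simp
    rw [h3]
    have h4 : 1 < (∏ j, c j) / |M.det| := by rw [lt_div_iff₀ hdet, one_mul]; exact h
    constructor
    · nlinarith [pow_pos (by norm_num : (0 : ℝ) < 2) d]
    · positivity
  have : Countable L := by
    change Countable (Submodule.span ℤ (Set.range b))
    infer_instance
  obtain ⟨x, hx0, hxs⟩ := exists_ne_zero_mem_lattice_of_measure_mul_two_pow_lt_measure fund hsymm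
    hconv hlt
  have hxL : (x : Fin d → ℝ) ∈ Submodule.span ℤ (Set.range b) := x.2
  rw [Module.Basis.mem_span_iff_repr_mem] at hxL
  choose k hk using hxL
  have hkx : (fun i => (k i : ℝ)) = (x : Fin d → ℝ) := by
    ext i
    have := hk i
    simpa [hb] using this
  refine ⟨k, ?_, ?_⟩
  · intro hk0
    apply hx0
    have : (x : Fin d → ℝ) = 0 := by
      rw [← hkx, hk0]
      ext i
      simp
    exact Subtype.ext this
  · intro j
    rw [hkx]
    exact hxs j

/-- duality pairing between `A ℤ^d` and its dual lattice -/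
theorem pairing {d : ℕ} (A : Matrix (Fin d) (Fin d) ℝ) (hA : A.det ≠ 0) (k m : Fin d → ℤ) :
    ∑ j, (A⁻¹).transpose.mulVec (fun i => (m i : ℝ)) j * A.mulVec (fun i => (k i : ℝ)) j =
      ((∑ i, m i * k i : ℤ) : ℝ) := by
  have h1 : ∑ j, (A⁻¹).transpose.mulVec (fun i => (m i : ℝ)) j *
      A.mulVec (fun i => (k i : ℝ)) j =
      dotProduct ((A⁻¹).transpose.mulVec (fun i => (m i : ℝ)))
        (A.mulVec (fun i => (k i : ℝ))) := rfl
  rw [h1, Matrix.mulVec_transpose, ← Matrix.dotProduct_mulVec, Matrix.mulVec_mulVec,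
    Matrix.nonsing_inv_mul A (isUnit_iff_ne_zero.2 hA), Matrix.one_mulVec]
  unfold dotProduct
  push_cast
  rfl

theorem dual_ne_zero {d : ℕ} (A : Matrix (Fin d) (Fin d) ℝ) (hA : A.det ≠ 0) (m : Fin d → ℤ)
    (hm : m ≠ 0) : ∃ j, (A⁻¹).transpose.mulVec (fun i => (m i : ℝ)) j ≠ 0 := by
  by_contra hcon
  push Not at hcon
  have h0 : (A⁻¹).transpose.mulVec (fun i => (m i : ℝ)) = 0 := funext hcon
  have h1 : (A.transpose).mulVec ((A⁻¹).transpose.mulVec (fun i => (m i : ℝ))) =
      fun i => (m i : ℝ) := by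
    rw [Matrix.mulVec_mulVec, ← Matrix.transpose_mul,
      Matrix.nonsing_inv_mul A (isUnit_iff_ne_zero.2 hA), Matrix.transpose_one, Matrix.one_mulVec]
  rw [h0, Matrix.mulVec_zero] at h1
  apply hm
  ext i
  have := congrFun h1 i
  simp only [Pi.zero_apply] at this
  exact_mod_cast this.symm

/-- the dual lattice of an admissible lattice is admissible -/
theorem dual_admissible {d : ℕ} (hd : 2 ≤ d) (A : Matrix (Fin d) (Fin d) ℝ) (hA : A.det ≠ 0)
    (h1 : ∀ m : Fin d → ℤ, m ≠ 0 → 1 ≤ |∏ j, A.mulVec (fun i => (m i : ℝ)) j|) :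
    ∃ κ : ℝ, 0 < κ ∧ ∀ m : Fin d → ℤ, m ≠ 0 →
      κ ≤ |∏ j, (A⁻¹).transpose.mulVec (fun i => (m i : ℝ)) j| := by
  classical
  have hdet : 0 < |A.det| := abs_pos.2 hA
  have hd1 : (0 : ℝ) < (d : ℝ) - 1 := by
    have : (2 : ℝ) ≤ d := by exact_mod_cast hd
    linarith
  have hdn : (0 : ℕ) < d - 1 := by omega
  have hcast : ((d - 1 : ℕ) : ℝ) = (d : ℝ) - 1 := by
    rw [Nat.cast_sub (by omega)]; simp
  set κ : ℝ := (((d : ℝ) - 1) ^ (d - 1) * (2 * |A.det|) ^ d)⁻¹ with hκ
  refine ⟨κ, by positivity, fun m hm => ?_⟩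
  set v : Fin d → ℝ := (A⁻¹).transpose.mulVec (fun i => (m i : ℝ)) with hv
  obtain ⟨j0, hj0⟩ := dual_ne_zero A hA m hm
  have hvj0 : 0 < |v j0| := abs_pos.2 hj0
  have key : ∀ ε : ℝ, 0 < ε → κ ≤ |v j0| * ∏ j ∈ Finset.univ.erase j0, (|v j| + ε) := by
    intro ε hε
    obtain ⟨w, hw⟩ : ∃ w : Fin d → ℝ, w = fun j => |v j| + ε := ⟨_, rfl⟩
    have hwgoal : |v j0| * ∏ j ∈ Finset.univ.erase j0, (|v j| + ε) =
        |v j0| * ∏ j ∈ Finset.univ.erase j0, w j := by rw [hw]
    rw [hwgoal]
    have hwpos : ∀ j, 0 < w j := fun j => by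
      have := abs_nonneg (v j)
      simp only [hw]; linarith
    obtain ⟨Q, hQ⟩ : ∃ Q : ℝ, Q = ∏ j ∈ Finset.univ.erase j0, w j := ⟨_, rfl⟩
    have hQpos : 0 < Q := by rw [hQ]; exact Finset.prod_pos fun j _ => hwpos j
    rw [← hQ]
    obtain ⟨Pr, hPr⟩ : ∃ Pr : ℝ, Pr = |v j0| * Q := ⟨_, rfl⟩
    rw [← hPr]
    have hPpos : 0 < Pr := by rw [hPr]; positivity
    have hbase : 0 < 2 * |A.det| * Pr := by positivity
    obtain ⟨τ, hτpos, hτpow⟩ : ∃ τ : ℝ, 0 < τ ∧ τ ^ (d - 1) = 2 * |A.det| * Pr :=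
      ⟨(2 * |A.det| * Pr) ^ (((d - 1 : ℕ) : ℝ)⁻¹), Real.rpow_pos_of_pos hbase _,
        Real.rpow_inv_natCast_pow hbase.le hdn.ne'⟩
    obtain ⟨M, hM⟩ : ∃ M : Matrix (Fin d) (Fin d) ℝ, M = A.updateRow j0 (∑ k, v k • A k) :=
      ⟨_, rfl⟩
    have hMdet : M.det = v j0 * A.det := by
      rw [hM, Matrix.det_updateRow_sum]
      simp
    obtain ⟨c, hc⟩ : ∃ c : Fin d → ℝ, c = fun j => if j = j0 then 1 else τ / w j := ⟨_, rfl⟩
    have hcpos : ∀ j, 0 < c j := by
      intro j
      simp only [hc]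
      split_ifs
      · norm_num
      · exact div_pos hτpos (hwpos j)
    have hprod1 : ∏ j, c j = τ ^ (d - 1) / Q := by
      rw [← Finset.mul_prod_erase Finset.univ c (Finset.mem_univ j0)]
      have e1 : c j0 = 1 := by simp [hc]
      have e2 : ∏ j ∈ Finset.univ.erase j0, c j = ∏ j ∈ Finset.univ.erase j0, (τ / w j) := by
        refine Finset.prod_congr rfl fun j hj => ?_
        simp only [hc, if_neg (Finset.ne_of_mem_erase hj)]
      rw [e1, e2, one_mul, Finset.prod_div_distrib, Finset.prod_const,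
        Finset.card_erase_of_mem (Finset.mem_univ j0), Finset.card_univ, Fintype.card_fin, hQ]
    have hcprod : |M.det| < ∏ j, c j := by
      rw [hprod1, hτpow, hMdet, abs_mul, lt_div_iff₀ hQpos, hPr]
      have : 0 < |v j0| * |A.det| * Q := by positivity
      nlinarith
    obtain ⟨k, hk0, hk⟩ := linear_forms M (by rw [hMdet]; exact mul_ne_zero hj0 hA) c hcpos hcprod
    have hrow : ∀ j, j ≠ j0 → M.mulVec (fun i => (k i : ℝ)) j =
        A.mulVec (fun i => (k i : ℝ)) j := by
      intro j hj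
      simp only [Matrix.mulVec, hM]
      rw [Matrix.updateRow_ne hj]
    have hrow0 : M.mulVec (fun i => (k i : ℝ)) j0 =
        ∑ j, v j * A.mulVec (fun i => (k i : ℝ)) j := by
      simp only [Matrix.mulVec, hM]
      rw [Matrix.updateRow_self]
      simp only [dotProduct, Finset.sum_apply, Pi.smul_apply, smul_eq_mul, Finset.sum_mul,
        Finset.mul_sum]
      rw [Finset.sum_comm]
      refine Finset.sum_congr rfl fun j _ => Finset.sum_congr rfl fun i _ => ?_
      ring
    have hzero : ∑ j, v j * A.mulVec (fun i => (k i : ℝ)) j = 0 := by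
      have h2 := hk j0
      rw [hrow0] at h2
      simp only [hc, if_true] at h2
      rw [hv, pairing A hA k m] at h2 ⊢
      have h3 : |(∑ i, m i * k i : ℤ)| < 1 := by exact_mod_cast h2
      have h4 : (∑ i, m i * k i : ℤ) = 0 := Int.abs_lt_one_iff.1 h3
      rw [h4]; simp
    obtain ⟨a, ha⟩ : ∃ a : Fin d → ℝ, a = fun j => A.mulVec (fun i => (k i : ℝ)) j := ⟨_, rfl⟩
    have haj : ∀ j, j ≠ j0 → |a j| < τ / w j := by
      intro j hj
      have h2 := hk j
      rw [hrow j hj] at h2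
      rw [ha]
      simpa only [hc, if_neg hj] using h2
    have haj0 : |v j0| * |a j0| ≤ ((d : ℝ) - 1) * τ := by
      have h2 : v j0 * a j0 = -∑ j ∈ Finset.univ.erase j0, v j * a j := by
        have h3 := Finset.add_sum_erase Finset.univ (fun j => v j * a j) (Finset.mem_univ j0)
        simp only [ha] at h3 ⊢
        linarith [hzero]
      rw [← abs_mul, h2, abs_neg]
      calc |∑ j ∈ Finset.univ.erase j0, v j * a j|
          ≤ ∑ j ∈ Finset.univ.erase j0, |v j * a j| := Finset.abs_sum_le_sum_abs _ _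
        _ ≤ ∑ _j ∈ Finset.univ.erase j0, τ := by
            refine Finset.sum_le_sum fun j hj => ?_
            rw [abs_mul]
            have h4 := (haj j (Finset.ne_of_mem_erase hj)).le
            calc |v j| * |a j| ≤ |v j| * (τ / w j) := by gcongr
              _ = τ * (|v j| / w j) := by ring
              _ ≤ τ * 1 := by
                  gcongr
                  rw [div_le_one (hwpos j)]
                  simp only [hw]; linarith
              _ = τ := mul_one _
        _ = ((d : ℝ) - 1) * τ := by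
            rw [Finset.sum_const, Finset.card_erase_of_mem (Finset.mem_univ j0),
              Finset.card_univ, Fintype.card_fin, nsmul_eq_mul, hcast]
    have hA1 := h1 k hk0
    rw [Finset.abs_prod] at hA1
    have hA1' : 1 ≤ ∏ j, |a j| := by rw [ha]; exact hA1
    have hprodle : |v j0| * ∏ j, |a j| ≤ ((d : ℝ) - 1) * τ * (τ ^ (d - 1) / Q) := by
      rw [← Finset.mul_prod_erase Finset.univ (fun j => |a j|) (Finset.mem_univ j0), ← mul_assoc]
      have h5 : ∏ j ∈ Finset.univ.erase j0, |a j| ≤ τ ^ (d - 1) / Q := by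
        calc ∏ j ∈ Finset.univ.erase j0, |a j| ≤ ∏ j ∈ Finset.univ.erase j0, (τ / w j) :=
              Finset.prod_le_prod (fun j _ => abs_nonneg _)
                fun j hj => (haj j (Finset.ne_of_mem_erase hj)).le
          _ = _ := by
              rw [Finset.prod_div_distrib, Finset.prod_const,
                Finset.card_erase_of_mem (Finset.mem_univ j0), Finset.card_univ, Fintype.card_fin,
                hQ]
      exact mul_le_mul haj0 h5 (Finset.prod_nonneg fun j _ => abs_nonneg _) (by positivity)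
    -- conclusion
    have h6 : Pr ≤ ((d : ℝ) - 1) * τ ^ d := by
      have h7 : |v j0| ≤ ((d : ℝ) - 1) * τ * (τ ^ (d - 1) / Q) := by
        calc |v j0| = |v j0| * 1 := (mul_one _).symm
          _ ≤ |v j0| * ∏ j, |a j| := by gcongr
          _ ≤ _ := hprodle
      have h8 : τ ^ d = τ * τ ^ (d - 1) := by
        rw [← pow_succ']
        congr 1
        omega
      rw [hPr, h8]
      calc |v j0| * Q ≤ (((d : ℝ) - 1) * τ * (τ ^ (d - 1) / Q)) * Q := by gcongr
        _ = _ := by field_simp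
    have h9 : Pr ^ (d - 1) ≤ ((d : ℝ) - 1) ^ (d - 1) * (2 * |A.det| * Pr) ^ d := by
      calc Pr ^ (d - 1) ≤ (((d : ℝ) - 1) * τ ^ d) ^ (d - 1) := by gcongr
        _ = ((d : ℝ) - 1) ^ (d - 1) * (τ ^ (d - 1)) ^ d := by
            rw [mul_pow, ← pow_mul, ← pow_mul, mul_comm d (d - 1)]
        _ = _ := by rw [hτpow]
    have h10 : (2 * |A.det| * Pr) ^ d = (2 * |A.det|) ^ d * (Pr ^ (d - 1) * Pr) := by
      rw [mul_pow]
      congr 1
      rw [← pow_succ]
      congr 1
      omega
    rw [h10] at h9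
    have h11 : 0 < Pr ^ (d - 1) := by positivity
    rw [hκ, inv_le_iff_one_le_mul₀ (by positivity)]
    have h12 : Pr ^ (d - 1) * 1 ≤ Pr ^ (d - 1) *
        (Pr * (((d : ℝ) - 1) ^ (d - 1) * (2 * |A.det|) ^ d)) := by
      calc Pr ^ (d - 1) * 1 = Pr ^ (d - 1) := mul_one _
        _ ≤ _ := h9
        _ = _ := by ring
    exact le_of_mul_le_mul_left h12 h11
  have hlim : Filter.Tendsto (fun ε : ℝ => |v j0| * ∏ j ∈ Finset.univ.erase j0, (|v j| + ε))
      (nhdsWithin 0 (Set.Ioi 0)) (nhds (|v j0| * ∏ j ∈ Finset.univ.erase j0, (|v j| + 0))) := by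
    have hcont : Continuous fun ε : ℝ => |v j0| * ∏ j ∈ Finset.univ.erase j0, (|v j| + ε) := by
      fun_prop
    exact (hcont.tendsto 0).mono_left nhdsWithin_le_nhds
  have h13 : κ ≤ |v j0| * ∏ j ∈ Finset.univ.erase j0, (|v j| + 0) := by
    refine ge_of_tendsto hlim ?_
    filter_upwards [self_mem_nhdsWithin] with ε hε
    exact key ε hε
  simp only [add_zero] at h13
  rw [Finset.abs_prod, ← Finset.mul_prod_erase Finset.univ (fun j => |v j|) (Finset.mem_univ j0)]
  exact h13

end Pool.Agent.Helper150.Lattice
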