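import Mathlib

namespace Pool.Agent.Helper150.Shapes

/-- Shapes `s` with all entries at least two and `n ≤ |s| ≤ N`. -/
def shapes (d n N : ℕ) : Finset (Fin d → ℕ) :=
  (Fintype.piFinset (fun _ : Fin d => Finset.range (N + 1))).filter
    (fun s => (∀ j, 2 ≤ s j) ∧ n ≤ ∑ j, s j ∧ ∑ j, s j ≤ N)

theorem mem_shapes {d n N : ℕ} {s : Fin d → ℕ} :
    s ∈ shapes d n N ↔ (∀ j, 2 ≤ s j) ∧ n ≤ ∑ j, s j ∧ ∑ j, s j ≤ N := by
  unfold shapes
  rw [Finset.mem_filter, Fintype.mem_piFinset]
  constructor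
  · exact fun h => h.2
  · intro h
    refine ⟨fun j => ?_, h⟩
    rw [Finset.mem_range]
    have := Finset.single_le_sum (f := s) (fun i _ => Nat.zero_le _) (Finset.mem_univ j)
    omega

theorem card_shapes (e n N q : ℕ) (he : 1 ≤ e) (hq : (e + 1) * (q + 1) ≤ n) (hnN : n ≤ N) :
    (N - n + 1) * q ^ e ≤ (shapes (e + 1) n N).card := by
  classical
  have h1 : (N - n + 1) * q ^ e =
    (Finset.range (N - n + 1) ×ˢ
      Fintype.piFinset (fun _ : Fin e => Finset.range q)).card := by
    rw [Finset.card_product, Finset.card_range, Fintype.card_piFinset]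
    simp
  have key : ∀ p : ℕ × (Fin e → ℕ), p ∈ (Finset.range (N - n + 1) ×ˢ
      Fintype.piFinset (fun _ : Fin e => Finset.range q)) →
      p.1 < N - n + 1 ∧ (∀ c, p.2 c < q) ∧ 2 + ∑ c, (2 + p.2 c) ≤ n := by
    intro p hp
    rw [Finset.mem_product, Finset.mem_range, Fintype.mem_piFinset] at hp
    have h2 : ∀ c, p.2 c < q := fun c => Finset.mem_range.1 (hp.2 c)
    refine ⟨hp.1, h2, ?_⟩
    have h3 : ∑ c : Fin e, (2 + p.2 c) ≤ ∑ _c : Fin e, (q + 1) :=
      Finset.sum_le_sum fun c _ => by have := h2 c; omega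
    rw [Finset.sum_const, Finset.card_univ, Fintype.card_fin, smul_eq_mul] at h3
    have h4 : 1 ≤ q := by
      have := h2 ⟨0, he⟩
      omega
    have h5 : (e + 1) * (q + 1) = e * (q + 1) + (q + 1) := by ring
    omega
  rw [h1]
  apply Finset.card_le_card_of_injOn
    (fun p => Fin.cons (n + p.1 - ∑ c, (2 + p.2 c)) (fun c => 2 + p.2 c))
  · intro p hp
    obtain ⟨k1, k2, k3⟩ := key p hp
    rw [Finset.mem_coe, mem_shapes]
    refine ⟨?_, ?_, ?_⟩
    · intro j
      refine Fin.cases ?_ (fun c => ?_) j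
      · simp only [Fin.cons_zero]
        omega
      · simp only [Fin.cons_succ]
        omega
    · rw [Fin.sum_univ_succ]
      simp only [Fin.cons_zero, Fin.cons_succ]
      omega
    · rw [Fin.sum_univ_succ]
      simp only [Fin.cons_zero, Fin.cons_succ]
      omega
  · intro p hp p' hp' h
    obtain ⟨k1, k2, k3⟩ := key p hp
    obtain ⟨k1', k2', k3'⟩ := key p' hp'
    have h0 : ∀ c, p.2 c = p'.2 c := by
      intro c
      have := congrFun h c.succ
      simp only [Fin.cons_succ] at this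
      omega
    have h2 : p.2 = p'.2 := funext h0
    have h3 := congrFun h 0
    simp only [Fin.cons_zero] at h3
    rw [← h2] at h3 k3'
    have h4 : p.1 = p'.1 := by omega
    exact Prod.ext h4 h2

end Pool.Agent.Helper150.Shapes
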