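import Mathlib
import Pool.Agent.Helper150.Core

namespace Pool.Agent.Helper150.Small

open MeasureTheory Complex
open scoped ENNReal ContDiff
open Pool.Agent.Helper150.Frolov Pool.Agent.Helper150.Avg Pool.Agent.Helper150.Blocks
open Pool.Agent.Helper150.SquareFn Pool.Agent.Helper150.Nodes Pool.Agent.Helper150.Moment
open Pool.Agent.Helper150.Select Pool.Agent.Helper150.NodesExist Pool.Agent.Helper150.Core

/-- a nonnegative bump of half width `1/lam` -/
theorem plain_bump (φ : ℕ → ℝ → ℝ) (hφ : IsDyadicResolution φ) {lam : ℝ} (hlam : 0 < lam) :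
    ∃ (β H : ℝ → ℂ) (C I0 : ℝ), 0 ≤ C ∧ 0 < I0 ∧ Continuous β ∧ (∀ x, β x ≠ 0 → |x| < 1 / lam) ∧
      (∫ x, β x = (I0 : ℂ)) ∧ Continuous H ∧
      (∀ ξ : ℝ, ∫ x : ℝ, cexp (-(2 * Real.pi * I * (x * ξ))) * β x = H ξ) ∧
      (∀ (k : ℕ) (t : ℝ), ‖factor φ H k 0 t‖ ≤
        C * (1 / 8) ^ (Nat.dist k 0) * (1 / (1 + (2 ^ 0 * t) ^ 2))) := by
  obtain ⟨χ, hχ⟩ : ∃ χ : ContDiffBump (0 : ℝ), χ.rOut = 1 / lam :=
    ⟨⟨1 / (2 * lam), 1 / lam, by positivity, by
      rw [div_lt_div_iff₀ (by positivity) hlam]; linarith⟩, rfl⟩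
  have hsm : ContDiff ℝ ∞ (fun x : ℝ => (χ x : ℂ)) :=
    Complex.ofRealCLM.contDiff.comp χ.contDiff
  have hne : ∀ x : ℝ, (χ x : ℂ) ≠ 0 → |x| < 1 / lam := by
    intro x hx
    by_contra h
    rw [not_lt, ← hχ] at h
    apply hx
    have : χ x = 0 := χ.zero_of_le_dist (by simpa using h)
    rw [this]
    simp
  have hcs : HasCompactSupport (fun x : ℝ => (χ x : ℂ)) := by
    refine HasCompactSupport.intro (isCompact_Icc (a := -(1 / lam)) (b := 1 / lam)) fun x hx => ?_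
    by_contra h
    apply hx
    have := hne x h
    rw [abs_lt] at this
    exact ⟨this.1.le, this.2.le⟩
  obtain ⟨H, H1, H2, C1, hC1, hFT, hd1, hd2, hcont, hdec⟩ :=
    Pool.Agent.Helper150.Bump.symbol_of_smooth _ hsm hcs
  obtain ⟨b, hb, hker⟩ := Pool.Agent.Helper150.Kernel.kernel_bound φ hφ
  obtain ⟨C, hC, hk⟩ := hker (C1 * (1 + b ^ 4)) (by positivity)
  have hHc : Continuous H := by
    have : Differentiable ℝ H := fun x => (hd1 x).differentiableAt
    exact this.continuous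
  have aux : ∀ f : ℝ → ℝ, (∀ ξ, f ξ ≤ C1) → (∀ ξ, |ξ| ^ 4 * f ξ ≤ C1) → ∀ (k : ℕ) (ξ : ℝ),
      (1 ≤ k → b⁻¹ * 2 ^ k ≤ |ξ|) →
      f (((2 : ℝ) ^ 0)⁻¹ * ξ) ≤ C1 * (1 + b ^ 4) * (1 / 16) ^ (Nat.dist k 0) := by
    intro f h1 h2 k ξ hge
    rw [pow_zero, inv_one, one_mul]
    have hdist : Nat.dist k 0 = k := by unfold Nat.dist; omega
    rw [hdist]
    rcases Nat.eq_zero_or_pos k with h0 | h0
    · rw [h0, pow_zero, mul_one]
      refine (h1 ξ).trans ?_
      have : 0 ≤ C1 * b ^ 4 := by positivity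
      nlinarith
    · have hge' := hge h0
      rcases le_or_gt (f ξ) 0 with h3 | h3
      · exact h3.trans (by positivity)
      · have h4 : (b⁻¹ * 2 ^ k) ^ 4 * f ξ ≤ C1 := by
          refine le_trans ?_ (h2 ξ)
          gcongr
        have h5 : f ξ ≤ C1 / (b⁻¹ * 2 ^ k) ^ 4 := by
          rw [le_div_iff₀ (by positivity), mul_comm]
          exact h4
        refine h5.trans ?_
        have h6 : (1 / 16 : ℝ) ^ k = (((2 : ℝ) ^ k) ^ 4)⁻¹ := by
          rw [← pow_mul, mul_comm k 4, pow_mul, one_div, inv_pow]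
          norm_num
        have h7 : C1 / (b⁻¹ * 2 ^ k) ^ 4 = C1 * b ^ 4 * (1 / 16) ^ k := by
          rw [h6, mul_pow, inv_pow]
          field_simp
        rw [h7]
        gcongr
        linarith
  refine ⟨fun x => (χ x : ℂ), H, C, ∫ x, χ x, hC, χ.integral_pos, hsm.continuous, hne,
    integral_ofReal, hHc, hFT, fun k t => ?_⟩
  have h := hk H H1 H2 hd1 hd2 hcont 0 (fun k ξ _ hge =>
    ⟨aux (fun ξ => ‖H ξ‖) (fun ξ => by simpa using (hdec 0 (by norm_num) ξ).1)
      (fun ξ => (hdec 4 (by norm_num) ξ).1) k ξ hge,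
    aux (fun ξ => ‖H1 ξ‖) (fun ξ => by simpa using (hdec 0 (by norm_num) ξ).2.1)
      (fun ξ => (hdec 4 (by norm_num) ξ).2.1) k ξ hge,
    aux (fun ξ => ‖H2 ξ‖) (fun ξ => by simpa using (hdec 0 (by norm_num) ξ).2.2)
      (fun ξ => (hdec 4 (by norm_num) ξ).2.2) k ξ hge⟩) k t
  unfold factor
  rw [norm_mul, Complex.norm_real, Real.norm_eq_abs, abs_of_pos (by positivity)]
  exact h

/-- some strip of width `1/M` in the first coordinate contains no node of the unit cube -/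
theorem free_strip {d : ℕ} (hd : 0 < d) {α : Type} [Nonempty α] (nd : α → Fin d → ℝ) {δ : ℝ} (hδ : 0 < δ)
    (hsep : Sep nd δ) (M : ℕ) (hM : 2 + 1 / δ < M) :
    ∃ i : ℕ, i < M ∧ ∀ m : α, (∀ j, 0 ≤ nd m j ∧ nd m j ≤ 1) →
      ¬ ((i : ℝ) / M < nd m ⟨0, hd⟩ ∧ nd m ⟨0, hd⟩ < ((i : ℝ) + 1) / M) := by
  classical
  by_contra hcon
  push Not at hcon
  have hMpos : (0 : ℝ) < M := by
    have : 0 < 1 / δ := by positivity
    linarith
  choose! g hg1 hg2 hg3 using hcon
  have hinj : Set.InjOn g (↑(Finset.range M) : Set ℕ) := by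
    intro i hi i' hi' h
    have hi2 := Finset.mem_range.1 hi
    have hi2' := Finset.mem_range.1 hi'
    have k1 := hg2 i hi2
    have k2 := hg3 i hi2
    have k1' := hg2 i' hi2'
    have k2' := hg3 i' hi2'
    rw [← h] at k1' k2'
    have e1 : (i : ℝ) / M < ((i' : ℝ) + 1) / M := k1.trans k2'
    have e2 : (i' : ℝ) / M < ((i : ℝ) + 1) / M := k1'.trans k2
    rw [div_lt_div_iff_of_pos_right hMpos] at e1 e2
    have e3 : i < i' + 1 := by exact_mod_cast e1
    have e4 : i' < i + 1 := by exact_mod_cast e2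
    omega
  have hcount := count_box hd nd hδ hsep (fun _ => 0) (fun _ => 1) (fun _ => one_pos)
    ((Finset.range M).image g) (by
      intro m hm j
      obtain ⟨i, hi, rfl⟩ := Finset.mem_image.1 hm
      have := hg1 i (Finset.mem_range.1 hi) j
      constructor <;> linarith [this.1, this.2])
  rw [Finset.card_image_of_injOn hinj, Finset.card_range, Finset.prod_const_one] at hcount
  linarith

theorem W_le_one {d : ℕ} (s : Fin d → ℕ) (y x : Fin d → ℝ) : W s y x ≤ 1 := by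
  unfold W
  exact Finset.prod_le_one' fun j _ => wt_le_one _

/-- for bounded `a` the error is bounded from below -/
theorem small {d : ℕ} (hd : 0 < d) (φ : ℕ → ℝ → ℝ) (hφ : IsDyadicResolution φ) {r p : ℝ}
    (hr0 : 0 < r) (hr : r ≤ 1 / 2) (hp : 2 < p) (A : Matrix (Fin d) (Fin d) ℝ) {κ : ℝ}
    (hκ : 0 < κ) (hdual : ∀ m : Fin d → ℤ, m ≠ 0 →
      κ ≤ |∏ j, (A⁻¹).transpose.mulVec (fun i => (m i : ℝ)) j|) (a0 : ℝ) :
    ∃ c : ℝ, 0 < c ∧ ∀ a : ℝ, 0 < a → a ≤ a0 → ENNReal.ofReal c ≤ worstError φ r p A a := by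
  classical
  obtain ⟨M, hM⟩ := exists_nat_gt (2 + (max a0 1) ^ d / κ)
  have hM0 : 0 < (max a0 1) ^ d / κ := by positivity
  have hMpos : (0 : ℝ) < M := by linarith
  have hM2 : (2 : ℝ) < M := by linarith
  obtain ⟨β, H, C, I0, hC, hI0, hβ, hsupp, hint, hHc, hFT, hfac⟩ :=
    plain_bump φ hφ (lam := 2 * M) (by positivity)
  have hle1 : 1 / (2 * (M : ℝ)) ≤ 1 / 2 := by
    apply one_div_le_one_div_of_le (by norm_num)
    linarith
  have hsupp1 : ∀ x, β x ≠ 0 → |x| ≤ 1 := fun x hx => by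
    have := hsupp x hx
    linarith
  have hKtop : K (p / 2) ≠ ⊤ := K_ne_top (by linarith)
  obtain ⟨Q, hQ⟩ : ∃ Q : ℝ≥0∞, Q = (ENNReal.ofReal (C ^ d)) ^ 2 * 1 * 4 ^ d *
    (2 ^ d * (8 * K (p / 2)) ^ d * 1) := ⟨_, rfl⟩
  have hQtop : Q ≠ ⊤ := by
    rw [hQ]
    finiteness
  obtain ⟨B, hB⟩ : ∃ B : ℝ, B = Q.toReal + 1 := ⟨_, rfl⟩
  have hBpos : 0 < B := by
    rw [hB]
    have : 0 ≤ Q.toReal := ENNReal.toReal_nonneg
    linarith
  have hQB : Q ≤ ENNReal.ofReal B := by
    rw [ENNReal.le_ofReal_iff_toReal_le hQtop hBpos.le, hB]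
    linarith
  obtain ⟨c, hc⟩ : ∃ c : ℝ, c = (Real.sqrt B)⁻¹ := ⟨_, rfl⟩
  have hcpos : 0 < c := by rw [hc]; positivity
  have hc2 : c ^ 2 * B ≤ 1 := by
    rw [hc, inv_pow, Real.sq_sqrt hBpos.le]
    apply le_of_eq
    field_simp
  refine ⟨c * I0 ^ d, by positivity, fun a ha haa => ?_⟩
  have hδ : 0 < κ / a ^ d := by positivity
  have hsep := sep_nd A hdual ha
  have hMd : 2 + 1 / (κ / a ^ d) < M := by
    refine lt_of_le_of_lt ?_ hM
    rw [one_div_div]
    have : a ^ d ≤ (max a0 1) ^ d := pow_le_pow_left₀ ha.le (haa.trans (le_max_left _ _)) d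
    gcongr
  obtain ⟨i, hiM, hfree⟩ := free_strip hd (nd A a) hδ hsep M hMd
  obtain ⟨y, hy⟩ : ∃ y : Fin d → ℝ,
    y = fun j => if j = ⟨0, hd⟩ then ((i : ℝ) + 1 / 2) / M else 1 / 2 := ⟨_, rfl⟩
  have hy0 : y ⟨0, hd⟩ = ((i : ℝ) + 1 / 2) / M := by rw [hy]; simp
  have hiM' : (i : ℝ) + 1 ≤ M := by exact_mod_cast hiM
  have hi0 : (0 : ℝ) ≤ i := Nat.cast_nonneg _
  have hyin : ∀ j, 1 / (2 * (M : ℝ)) ≤ y j ∧ y j ≤ 1 - 1 / (2 * (M : ℝ)) := by
    intro j
    by_cases hj : j = ⟨0, hd⟩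
    · rw [hj, hy0]
      constructor
      · rw [div_le_div_iff₀ (by positivity) hMpos]
        nlinarith
      · rw [le_sub_iff_add_le, show ((i : ℝ) + 1 / 2) / M + 1 / (2 * (M : ℝ)) = (i + 1) / M by
          field_simp; ring, div_le_one hMpos]
        exact hiM'
    · have : y j = 1 / 2 := by rw [hy]; simp [hj]
      rw [this]
      constructor <;> linarith
  have hy01 : ∀ j, 0 ≤ y j ∧ y j ≤ 1 := by
    intro j
    have h1 := hyin j
    have h2 : 0 < 1 / (2 * (M : ℝ)) := by positivity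
    constructor <;> linarith [h1.1, h1.2]
  -- the test function
  have hb : ∀ x : Fin d → ℝ, prodBump β (fun _ => 0) y x ≠ 0 →
      ∀ j, |x j - y j| < 1 / (2 * (M : ℝ)) := by
    intro x hx j
    unfold prodBump at hx
    rw [Finset.prod_ne_zero_iff] at hx
    have h1 := hsupp _ (hx j (Finset.mem_univ j))
    rwa [pow_zero, one_mul] at h1
  obtain ⟨f, hf⟩ : ∃ f : (Fin d → ℝ) → ℂ,
    f = fun z => (c : ℂ) * ∑ _i ∈ ({()} : Finset Unit), prodBump β (fun _ => 0) y z := ⟨_, rfl⟩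
  have hf' : ∀ z, f z = c * prodBump β (fun _ => 0) y z := by
    intro z
    rw [hf]
    simp
  have hfcont : Continuous f := by
    have : f = fun z => (c : ℂ) * prodBump β (fun _ => 0) y z := funext hf'
    rw [this]
    exact continuous_const.mul (continuous_prodBump hβ _ _)
  have hfsupp : ∀ x, f x ≠ 0 → ∀ j, 0 ≤ x j ∧ x j ≤ 1 := by
    intro x hx j
    rw [hf'] at hx
    have h1 := abs_lt.1 (hb x (right_ne_zero_of_mul hx) j)
    have h2 := hyin j
    constructor <;> linarith [h1.1, h1.2, h2.1, h2.2]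
  have hnorm : mixedNorm φ r p f ≤ 1 := by
    have hnb := norm_bound (r := r) φ hφ hβ hsupp1 hHc hFT hr0 hr hp ({()} : Finset Unit)
      (fun _ _ => 0) (fun _ => y)
      hC (fun i _ j k t => hfac k t) (C0 := 1)
      (fun x s' => by
        rw [Finset.sum_singleton]
        refine mul_le_one' (Finset.prod_le_one' fun j _ => ?_) (W_le_one _ _ _)
        exact pow_le_one' (by norm_num) _)
      (fun _ => Set.Icc (0 : Fin d → ℝ) 1)
      (fun i _ => measurableSet_Icc)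
      (fun i _ x hx j => by
        have h1 := hx.1 j
        have h2 := hx.2 j
        have h3 := hy01 j
        simp only [Pi.zero_apply, Pi.one_apply] at h1 h2
        rw [pow_zero, inv_one, abs_le]
        constructor <;> linarith [h3.1, h3.2])
      (fun i hi x hx j => ⟨by simpa using hx.1 j, by simpa using hx.2 j⟩)
      (D := 2 ^ d) (fun i hi => by
        rw [volcube, mul_one]
        simp)
      (T := 1) (fun x => by
        rw [Finset.sum_singleton]
        refine mul_le_one' ?_ ?_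
        · unfold rho
          simp
        · refine Set.indicator_le_indicator_of_subset (Set.subset_univ _)
            (fun _ => zero_le) x |>.trans ?_
          simp) hcpos.le
    rw [hf]
    refine hnb.trans ?_
    apply ENNReal.rpow_le_one _ (by norm_num)
    rw [ENNReal.ofReal_mul hcpos.le]
    calc (ENNReal.ofReal c * ENNReal.ofReal (C ^ d)) ^ 2 * 1 * 4 ^ d *
          (2 ^ d * (8 * K (p / 2)) ^ d * 1)
        = ENNReal.ofReal c ^ 2 * Q := by rw [hQ]; ring
      _ ≤ ENNReal.ofReal c ^ 2 * ENNReal.ofReal B := by gcongr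
      _ = ENNReal.ofReal (c ^ 2 * B) := by
          rw [ENNReal.ofReal_mul (by positivity), ENNReal.ofReal_pow hcpos.le]
      _ ≤ 1 := by
          rw [← ENNReal.ofReal_one]
          exact ENNReal.ofReal_le_ofReal hc2
  have hmem : f ∈ unitBall φ r p := ⟨hfcont, hfsupp, hnorm⟩
  have hI : ∫ x, f x = c * (I0 : ℂ) ^ d := by
    simp_rw [hf']
    rw [integral_const_mul]
    congr 1
    unfold prodBump
    rw [integral_fintype_prod_volume_eq_prod (fun j (t : ℝ) => β (2 ^ 0 * (t - y j)))]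
    have h2 : ∀ j : Fin d, ∫ x : ℝ, β (2 ^ 0 * (x - y j)) = I0 := by
      intro j
      rw [← hint]
      simp only [pow_zero, one_mul]
      exact integral_sub_right_eq_self (fun x => β x) (y j)
    rw [Finset.prod_congr rfl fun j _ => h2 j]
    simp
  have hrule : frolovRule A a f = 0 := by
    unfold frolovRule
    have h0 : ∀ m : Fin d → ℤ, f (a⁻¹ • (A⁻¹).transpose.mulVec (fun j => (m j : ℝ))) = 0 := by
      intro m
      by_contra hne
      have h1 := hfsupp _ hne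
      rw [hf'] at hne
      have h2 := hb _ (right_ne_zero_of_mul hne) ⟨0, hd⟩
      apply hfree m h1
      rw [hy0, abs_lt] at h2
      have e1 : (i : ℝ) / M = ((i : ℝ) + 1 / 2) / M - 1 / (2 * (M : ℝ)) := by field_simp; ring
      have e2 : ((i : ℝ) + 1) / M = ((i : ℝ) + 1 / 2) / M + 1 / (2 * (M : ℝ)) := by
        field_simp; ring
      rw [e1, e2]
      unfold nd
      constructor <;> linarith [h2.1, h2.2]
    simp_rw [h0]
    simp
  have hval : ‖frolovRule A a f - ∫ x, f x‖ = c * I0 ^ d := by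
    rw [hI, hrule, zero_sub, norm_neg, norm_mul, norm_pow, Complex.norm_of_nonneg hcpos.le,
      Complex.norm_of_nonneg hI0.le]
  unfold worstError
  refine le_iSup₂_of_le f hmem ?_
  apply ENNReal.ofReal_le_ofReal
  rw [hval]

end Pool.Agent.Helper150.Small
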