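import Mathlib
import Pool.Agent.Helper150.Shapes
import Pool.Agent.Helper150.Small
import Pool.Agent.Helper150.Lattice

namespace Pool.Agent.Helper150.Final

open MeasureTheory
open scoped ENNReal
open Pool.Agent.Helper150.Frolov Pool.Agent.Helper150.Shapes Pool.Agent.Helper150.Nodes
open Pool.Agent.Helper150.NodesExist Pool.Agent.Helper150.Core

theorem mul_inv_sqrt {x y : ℝ} (hx : 0 ≤ x) : x * (Real.sqrt y)⁻¹ = Real.sqrt (x ^ 2 / y) := by
  rw [Real.sqrt_div (sq_nonneg x), Real.sqrt_sq hx, div_eq_mul_inv]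

/-- the lower bound in terms of the number of shapes -/
theorem big {d : ℕ} (hd : 0 < d) (φ : ℕ → ℝ → ℝ) (hφ : IsDyadicResolution φ) {r p : ℝ}
    (hr0 : 0 < r) (hr : r ≤ 1 / 2) (hp : 2 < p) (A : Matrix (Fin d) (Fin d) ℝ)
    (hA : A.det ≠ 0) {κ : ℝ} (hκ : 0 < κ) (hdual : ∀ m : Fin d → ℤ, m ≠ 0 →
      κ ≤ |∏ j, (A⁻¹).transpose.mulVec (fun i => (m i : ℝ)) j|) {Γ : ℝ} (hΓ : 0 < Γ) :
    ∃ c a1 : ℝ, 0 < c ∧ 0 < a1 ∧ ∀ (a R : ℝ) (S : Finset (Fin d → ℕ)) (N : ℕ), a1 ≤ a →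
      S.Nonempty → (∀ s ∈ S, ∀ j, 2 ≤ s j) → (∀ s ∈ S, ∑ j, s j ≤ N) →
      (∀ s ∈ S, ∏ j, ((2 : ℝ) ^ (s j))⁻¹ < κ / a ^ d) →
      (2 : ℝ) ^ N ≤ Γ * (S.card / (κ / a ^ d)) → 0 < R →
      (∀ s ∈ S, (2 : ℝ) ^ (2 * r * ∑ j, (s j : ℝ)) ≤ R * 2 ^ (∑ j, s j)) →
      ENNReal.ofReal (c * Real.sqrt (S.card / (R * a ^ d))) ≤ worstError φ r p A a := by
  obtain ⟨M, hM, hcore⟩ := core hd φ hφ hr0 hr hp A hΓ
  obtain ⟨ρ, hρ, hnodes⟩ := nodes_exist A hA
  have hdet : 0 < |A.det| := abs_pos.2 hA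
  refine ⟨Real.sqrt (κ / M) / (2 * (12 * ρ) ^ d * |A.det|), 6 * ρ, by positivity, by positivity,
    ?_⟩
  intro a R S N ha hSne hS2 hSN hSδ hN hR hrho
  have hapos : 0 < a := by linarith
  obtain ⟨Y, hY, hYcard⟩ := hnodes a ha
  have hδ : 0 < κ / a ^ d := by positivity
  have h := hcore a (κ / a ^ d) R S Y N hapos hδ (sep_nd A hdual hapos) hSne hS2 hSN hSδ hY hN
    hR hrho
  refine le_trans (ENNReal.ofReal_le_ofReal ?_) h
  have hScard : (0 : ℝ) < S.card := by exact_mod_cast hSne.card_pos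
  obtain ⟨x, hx⟩ : ∃ x : ℝ, x = (S.card : ℝ) := ⟨_, rfl⟩
  rw [← hx] at hScard ⊢
  have e1 : Real.sqrt (κ / M) * Real.sqrt (x / (R * a ^ d)) =
      x * (Real.sqrt (M * (R * (x / (κ / a ^ d)))))⁻¹ := by
    rw [mul_inv_sqrt hScard.le, ← Real.sqrt_mul (by positivity)]
    congr 1
    field_simp
  calc Real.sqrt (κ / M) / (2 * (12 * ρ) ^ d * |A.det|) * Real.sqrt (x / (R * a ^ d))
      = (Real.sqrt (κ / M) * Real.sqrt (x / (R * a ^ d))) / (2 * (12 * ρ) ^ d * |A.det|) := by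
        ring
    _ = (Real.sqrt (M * (R * (x / (κ / a ^ d)))))⁻¹ *
          (x * (a / (12 * ρ)) ^ d / (2 * (a ^ d * |A.det|))) := by
        rw [e1, div_pow]
        field_simp
    _ ≤ (Real.sqrt (M * (R * (x / (κ / a ^ d)))))⁻¹ *
          (x * Y.card / (2 * (a ^ d * |A.det|))) := by
        gcongr

/-- power identity for `r < 1/2` -/
theorem alg1 {a L r : ℝ} (ha : 0 < a) (hL : 0 < L) (e : ℕ) :
    (a ^ (-(r * ((e + 1 : ℕ) : ℝ))) * L ^ ((((e + 1 : ℕ) : ℝ) - 1) * (1 - r))) ^ 2 =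
      L ^ e / ((a ^ (e + 1) * L ^ e) ^ (2 * r - 1) * a ^ (e + 1)) := by
  obtain ⟨x, hx⟩ : ∃ x, a = Real.exp x := ⟨Real.log a, (Real.exp_log ha).symm⟩
  obtain ⟨y, hy⟩ : ∃ y, L = Real.exp y := ⟨Real.log L, (Real.exp_log hL).symm⟩
  rw [hx, hy]
  simp only [← Real.exp_mul, ← Real.exp_nat_mul, ← Real.exp_add, ← Real.exp_sub]
  congr 1
  push_cast
  ring

theorem alg2 {a L r : ℝ} (ha : 0 < a) (hL : 0 < L) (hr : r = 1 / 2) (e : ℕ) :
    (a ^ (-(r * ((e + 1 : ℕ) : ℝ))) * L ^ ((((e + 1 : ℕ) : ℝ) - 1) / 2)) ^ 2 =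
      L ^ e / a ^ (e + 1) := by
  obtain ⟨x, hx⟩ : ∃ x, a = Real.exp x := ⟨Real.log a, (Real.exp_log ha).symm⟩
  obtain ⟨y, hy⟩ : ∃ y, L = Real.exp y := ⟨Real.log L, (Real.exp_log hL).symm⟩
  rw [hx, hy, hr]
  simp only [← Real.exp_mul, ← Real.exp_nat_mul, ← Real.exp_add, ← Real.exp_sub]
  congr 1
  push_cast
  ring

/-- facts on large `a` -/
theorem facts {κ a : ℝ} (hκ : 0 < κ) (hL : 0 < Real.log a)
    (hl : 4 + 2 * |Real.log κ| ≤ Real.log (Real.log a)) :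
    5 + 2 * |Real.log κ| ≤ Real.log a ∧ 2 / κ ≤ Real.log a := by
  have h1 : Real.exp (4 + 2 * |Real.log κ|) ≤ Real.log a := by
    rw [← Real.exp_log hL]
    exact Real.exp_le_exp.2 hl
  have h2 := Real.add_one_le_exp (4 + 2 * |Real.log κ|)
  refine ⟨by linarith, ?_⟩
  have h3 : Real.exp (1 + (-Real.log κ)) ≤ Real.exp (4 + 2 * |Real.log κ|) := by
    apply Real.exp_le_exp.2
    have := neg_le_abs (Real.log κ)
    have := abs_nonneg (Real.log κ)
    linarith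
  rw [Real.exp_add, Real.exp_neg, Real.exp_log hκ] at h3
  have h4 := Real.add_one_le_exp 1
  have h5 : 2 / κ ≤ Real.exp 1 * κ⁻¹ := by
    rw [div_eq_mul_inv]
    gcongr
    linarith
  linarith

theorem prod_inv_lt {d : ℕ} {s : Fin d → ℕ} {n : ℕ} {δ : ℝ} (hn : n ≤ ∑ j, s j)
    (h : ((2 : ℝ) ^ n)⁻¹ < δ) : ∏ j, ((2 : ℝ) ^ (s j))⁻¹ < δ := by
  rw [Finset.prod_inv_distrib, Finset.prod_pow_eq_pow_sum]
  refine lt_of_le_of_lt ?_ h
  apply inv_anti₀ (by positivity)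
  exact pow_le_pow_right₀ (by norm_num) hn

theorem exists_shapes {e : ℕ} (he : 1 ≤ e) {κ : ℝ} (hκ : 0 < κ) {r : ℝ} (hr0 : 0 < r)
    (hr : r ≤ 1 / 2)
    {a : ℝ} (ha : 0 < a) (hL : 0 < Real.log a)
    (hl : 4 + 2 * |Real.log κ| ≤ Real.log (Real.log a)) :
    ∃ (R : ℝ) (S : Finset (Fin (e + 1) → ℕ)) (N : ℕ), S.Nonempty ∧
      (∀ s ∈ S, ∀ j, 2 ≤ s j) ∧ (∀ s ∈ S, ∑ j, s j ≤ N) ∧
      (∀ s ∈ S, ∏ j, ((2 : ℝ) ^ (s j))⁻¹ < κ / a ^ (e + 1)) ∧
      (2 : ℝ) ^ N ≤ κ * 4 ^ e * (S.card / (κ / a ^ (e + 1))) ∧ 0 < R ∧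
      (∀ s ∈ S, (2 : ℝ) ^ (2 * r * ∑ j, (s j : ℝ)) ≤ R * 2 ^ (∑ j, s j)) ∧
      rate (e + 1) r a ^ 2 / (2 * 4 ^ e) ≤ S.card / (R * a ^ (e + 1)) := by
  obtain ⟨hf1, hf2⟩ := facts hκ hL hl
  obtain ⟨L, hLdef⟩ : ∃ L : ℝ, L = Real.log a := ⟨_, rfl⟩
  have haexp : a = Real.exp L := by rw [hLdef, Real.exp_log ha]
  have habs := abs_nonneg (Real.log κ)
  have habs1 := neg_le_abs (Real.log κ)
  have habs2 := le_abs_self (Real.log κ)
  rw [← hLdef] at hf1 hf2 hL hl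
  have hL5 : 5 ≤ L := by linarith
  have hlog5 : 4 ≤ Real.log L := by linarith
  have hLe : L ≤ L ^ e := le_self_pow₀ (by linarith) (by omega)
  have hLe1 : 1 ≤ L ^ e := by linarith
  have ha1 : 1 ≤ a := by rw [haexp]; exact Real.one_le_exp hL.le
  have had1 : 1 ≤ a ^ (e + 1) := one_le_pow₀ ha1
  obtain ⟨X, hX⟩ : ∃ X : ℝ, X = a ^ (e + 1) * L ^ e := ⟨_, rfl⟩
  have hX1 : 1 ≤ X := by
    rw [hX]
    nlinarith
  have hXpos : 0 < X := by linarith
  obtain ⟨N, hN1, hN2⟩ := exists_nat_pow_near hX1 (by norm_num : (1 : ℝ) < 2)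
  obtain ⟨q, hq⟩ : ∃ q : ℕ, q = ⌊L / 2⌋₊ := ⟨_, rfl⟩
  have hq1 : (q : ℝ) ≤ L / 2 := by rw [hq]; exact Nat.floor_le (by positivity)
  have hq2 : L / 4 ≤ q := by
    have : L / 2 < q + 1 := by rw [hq]; exact Nat.lt_floor_add_one _
    linarith
  have hqe : (L / 4) ^ e ≤ (q : ℝ) ^ e := pow_le_pow_left₀ (by positivity) hq2 e
  have he' : (1 : ℝ) ≤ e := by exact_mod_cast he
  have h2e : ∀ k : ℕ, (2 : ℝ) ^ k ≤ Real.exp k := by
    intro k
    have h1 := Real.add_one_le_exp 1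
    calc (2 : ℝ) ^ k ≤ (Real.exp 1) ^ k := pow_le_pow_left₀ (by norm_num) (by linarith) k
      _ = Real.exp k := by rw [← Real.exp_nat_mul, mul_one]
  have hadexp : a ^ (e + 1) = Real.exp (((e : ℝ) + 1) * L) := by
    rw [haexp, ← Real.exp_nat_mul]
    push_cast
    rfl
  have hqN : (e + 1) * (q + 1) ≤ N := by
    have h1 : Real.exp (((e : ℝ) + 1) * L) < Real.exp ((N + 1 : ℕ) : ℝ) := by
      rw [← hadexp]
      calc a ^ (e + 1) ≤ X := by rw [hX]; exact le_mul_of_one_le_right (by positivity) hLe1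
        _ < 2 ^ (N + 1) := hN2
        _ ≤ _ := h2e _
    have h2 := Real.exp_lt_exp.1 h1
    push_cast at h2
    have h3 : (((e + 1) * (q + 1) : ℕ) : ℝ) < ((N + 1 : ℕ) : ℝ) := by
      push_cast
      nlinarith
    have h4 : (e + 1) * (q + 1) < N + 1 := by exact_mod_cast h3
    omega
  have hqpos : 0 < (L / 4) ^ e := by positivity
  have h4e : 4 ^ e * (L / 4) ^ e = L ^ e := by
    rw [← mul_pow]; congr 1; ring
  by_cases hrlt : r < 1 / 2
  · -- small smoothness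
    have hcard := card_shapes e N N q he hqN le_rfl
    rw [Nat.sub_self, zero_add, one_mul] at hcard
    have hcard' : (L / 4) ^ e ≤ ((shapes (e + 1) N N).card : ℝ) := by
      refine hqe.trans ?_
      exact_mod_cast hcard
    have hmem : ∀ s ∈ shapes (e + 1) N N, (∀ j, 2 ≤ s j) ∧ ∑ j, s j = N := by
      intro s hs
      obtain ⟨h1, h2, h3⟩ := mem_shapes.1 hs
      exact ⟨h1, le_antisymm h3 h2⟩
    obtain ⟨x, hx⟩ : ∃ x : ℝ, x = ((shapes (e + 1) N N).card : ℝ) := ⟨_, rfl⟩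
    rw [← hx] at hcard'
    have hNlow : X / 2 < 2 ^ N := by
      rw [pow_succ] at hN2
      linarith
    have hx0 : 0 ≤ x := by linarith
    refine ⟨((2 : ℝ) ^ N) ^ (2 * r - 1), shapes (e + 1) N N, N, ?_, fun s hs => (hmem s hs).1,
      fun s hs => (hmem s hs).2.le, fun s hs => ?_, ?_, by positivity, fun s hs => ?_, ?_⟩
    · rw [← Finset.card_pos]
      have : (0 : ℝ) < ((shapes (e + 1) N N).card : ℝ) := by rw [← hx]; linarith
      exact_mod_cast this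
    · refine prod_inv_lt (hmem s hs).2.ge ?_
      rw [lt_div_iff₀ (by positivity), ← div_eq_inv_mul, div_lt_iff₀ (by positivity)]
      have h1 : a ^ (e + 1) ≤ κ * (X / 2) := by
        have h2 : 2 / κ ≤ L ^ e := hf2.trans hLe
        rw [div_le_iff₀ hκ] at h2
        rw [hX]
        nlinarith
      have h3 : κ * (X / 2) < κ * 2 ^ N := by gcongr
      linarith
    · rw [← hx]
      calc (2 : ℝ) ^ N ≤ X := hN1
        _ = a ^ (e + 1) * (4 ^ e * (L / 4) ^ e) := by rw [h4e, hX]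
        _ ≤ a ^ (e + 1) * (4 ^ e * x) := by gcongr
        _ = _ := by field_simp
    · have h1 : ∑ j, (s j : ℝ) = (N : ℝ) := by exact_mod_cast (hmem s hs).2
      rw [h1, (hmem s hs).2]
      apply le_of_eq
      rw [← Real.rpow_natCast, ← Real.rpow_mul (by norm_num), ← Real.rpow_add (by norm_num)]
      congr 1
      ring
    · rw [← hx]
      unfold rate
      rw [if_pos hrlt, ← hLdef, alg1 ha hL e, ← hX]
      have hR : ((2 : ℝ) ^ N) ^ (2 * r - 1) ≤ 2 * X ^ (2 * r - 1) := by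
        calc ((2 : ℝ) ^ N) ^ (2 * r - 1) ≤ (X / 2) ^ (2 * r - 1) :=
              Real.rpow_le_rpow_of_nonpos (by positivity) hNlow.le (by linarith)
          _ = X ^ (2 * r - 1) * 2 ^ (-(2 * r - 1)) := by
              rw [Real.div_rpow hXpos.le (by norm_num), Real.rpow_neg (by norm_num)]
              rfl
          _ ≤ X ^ (2 * r - 1) * 2 ^ (1 : ℝ) := by
              gcongr
              · norm_num
              · linarith
          _ = _ := by rw [Real.rpow_one, mul_comm]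
      calc L ^ e / (X ^ (2 * r - 1) * a ^ (e + 1)) / (2 * 4 ^ e)
          = (L / 4) ^ e / ((2 * X ^ (2 * r - 1)) * a ^ (e + 1)) := by
            rw [div_pow]
            field_simp
        _ ≤ x / (((2 : ℝ) ^ N) ^ (2 * r - 1) * a ^ (e + 1)) := by gcongr
  · -- critical smoothness
    have hr12 : r = 1 / 2 := le_antisymm hr (not_lt.1 hrlt)
    have hadκ : 1 ≤ a ^ (e + 1) / κ := by
      rw [le_div_iff₀ hκ, one_mul, hadexp]
      calc κ = Real.exp (Real.log κ) := (Real.exp_log hκ).symm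
        _ ≤ _ := Real.exp_le_exp.2 (by nlinarith)
    obtain ⟨n', hn1, hn2⟩ := exists_nat_pow_near hadκ (by norm_num : (1 : ℝ) < 2)
    obtain ⟨n, hn⟩ : ∃ n, n = n' + 1 := ⟨_, rfl⟩
    rw [← hn] at hn2
    have hqn : (e + 1) * (q + 1) ≤ n := by
      have h1 : Real.exp (((e : ℝ) + 1) * L) < Real.exp ((n : ℝ) + Real.log κ) := by
        rw [← hadexp, Real.exp_add, Real.exp_log hκ]
        rw [div_lt_iff₀ hκ] at hn2
        calc a ^ (e + 1) < 2 ^ n * κ := hn2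
          _ ≤ _ := by
            have := h2e n
            gcongr
      have h2 := Real.exp_lt_exp.1 h1
      have h3 : (((e + 1) * (q + 1) : ℕ) : ℝ) < (n : ℝ) := by
        push_cast
        nlinarith
      have h4 : (e + 1) * (q + 1) < n := by exact_mod_cast h3
      omega
    have hgap : Real.log κ + Real.log L < (N : ℝ) + 2 - n := by
      have h1 : κ * L * 2 ^ n < 2 ^ (N + 2) := by
        have h2 : (2 : ℝ) ^ n = 2 * 2 ^ n' := by rw [hn, pow_succ]; ring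
        have h3 : (2 : ℝ) ^ (N + 2) = 2 * 2 ^ (N + 1) := by ring
        rw [le_div_iff₀ hκ] at hn1
        calc κ * L * 2 ^ n = 2 * L * (2 ^ n' * κ) := by rw [h2]; ring
          _ ≤ 2 * L * a ^ (e + 1) := by gcongr
          _ ≤ 2 * L ^ e * a ^ (e + 1) := by gcongr
          _ = 2 * X := by rw [hX]; ring
          _ < _ := by rw [h3]; linarith
      have h4 := Real.log_lt_log (by positivity) h1
      rw [Real.log_mul (by positivity) (by positivity), Real.log_mul hκ.ne' hL.ne',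
        Real.log_pow, Real.log_pow] at h4
      push_cast at h4
      have h5 : Real.log 2 < 1 := by
        have := Real.log_two_lt_d9
        linarith
      have h6 : 0 < Real.log 2 := Real.log_pos (by norm_num)
      have h7 : Real.log κ + Real.log L < ((N : ℝ) + 2 - n) * Real.log 2 := by linarith
      have h8 : 0 < ((N : ℝ) + 2 - n) * Real.log 2 := by linarith
      have h9 : 0 < (N : ℝ) + 2 - n := pos_of_mul_pos_left h8 h6.le
      nlinarith
    have hgap2 : 1 / 2 * Real.log L ≤ (N : ℝ) - n + 1 := by linarith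
    have hnN : n ≤ N := by
      have h1 : (n : ℝ) < (N : ℝ) + 1 := by linarith
      have h2 : n < N + 1 := by exact_mod_cast h1
      omega
    have hgap0 : 0 ≤ (N : ℝ) - n + 1 := by linarith
    have hcard := card_shapes e n N q he hqn hnN
    have hcard' : (1 / 2 * Real.log L) * (L / 4) ^ e ≤ ((shapes (e + 1) n N).card : ℝ) := by
      calc (1 / 2 * Real.log L) * (L / 4) ^ e ≤ ((N : ℝ) - n + 1) * (q : ℝ) ^ e := by gcongr
        _ = (((N - n + 1) * q ^ e : ℕ) : ℝ) := by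
            push_cast [Nat.cast_sub hnN]
            ring
        _ ≤ _ := by exact_mod_cast hcard
    obtain ⟨x, hx⟩ : ∃ x : ℝ, x = ((shapes (e + 1) n N).card : ℝ) := ⟨_, rfl⟩
    rw [← hx] at hcard'
    have hcard'' : (L / 4) ^ e ≤ x := by
      refine le_trans ?_ hcard'
      nlinarith
    refine ⟨1, shapes (e + 1) n N, N, ?_, fun s hs => (mem_shapes.1 hs).1,
      fun s hs => (mem_shapes.1 hs).2.2, fun s hs => ?_, ?_, by positivity, fun s hs => ?_, ?_⟩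
    · rw [← Finset.card_pos]
      have : (0 : ℝ) < ((shapes (e + 1) n N).card : ℝ) := by rw [← hx]; linarith
      exact_mod_cast this
    · refine prod_inv_lt (mem_shapes.1 hs).2.1 ?_
      rw [lt_div_iff₀ (by positivity), ← div_eq_inv_mul, div_lt_iff₀ (by positivity)]
      rw [div_lt_iff₀ hκ] at hn2
      linarith
    · rw [← hx]
      calc (2 : ℝ) ^ N ≤ X := hN1
        _ = a ^ (e + 1) * (4 ^ e * (L / 4) ^ e) := by rw [h4e, hX]
        _ ≤ a ^ (e + 1) * (4 ^ e * x) := by gcongr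
        _ = _ := by field_simp
    · rw [hr12, one_mul]
      apply le_of_eq
      rw [← Real.rpow_natCast]
      congr 1
      push_cast
      ring
    · rw [← hx]
      unfold rate
      rw [if_neg hrlt, ← hLdef, mul_pow, alg2 ha hL hr12 e, Real.sq_sqrt (by linarith), one_mul]
      calc L ^ e / a ^ (e + 1) * Real.log L / (2 * 4 ^ e)
          = ((1 / 2 * Real.log L) * (L / 4) ^ e) / a ^ (e + 1) := by
            rw [div_pow]
            field_simp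
        _ ≤ x / a ^ (e + 1) := by gcongr

theorem rate_nonneg {d : ℕ} {r a : ℝ} (ha : 1 ≤ a) : 0 ≤ rate d r a := by
  unfold rate
  have : 0 ≤ Real.log a := Real.log_nonneg ha
  split_ifs <;> positivity

/-- the lower bound for large `a` -/
theorem large {e : ℕ} (he : 1 ≤ e) (φ : ℕ → ℝ → ℝ) (hφ : IsDyadicResolution φ) {r p : ℝ}
    (hr0 : 0 < r) (hr : r ≤ 1 / 2) (hp : 2 < p) (A : Matrix (Fin (e + 1)) (Fin (e + 1)) ℝ)
    (hA : A.det ≠ 0) {κ : ℝ} (hκ : 0 < κ) (hdual : ∀ m : Fin (e + 1) → ℤ, m ≠ 0 →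
      κ ≤ |∏ j, (A⁻¹).transpose.mulVec (fun i => (m i : ℝ)) j|) :
    ∃ c a1 : ℝ, 0 < c ∧ 1 ≤ a1 ∧ ∀ a : ℝ, a1 ≤ a →
      ENNReal.ofReal (c * rate (e + 1) r a) ≤ worstError φ r p A a := by
  obtain ⟨c, a1, hc, ha1, hbig⟩ := big (Nat.succ_pos e) φ hφ hr0 hr hp A hA hκ hdual
    (Γ := κ * 4 ^ e) (by positivity)
  obtain ⟨l0, hl0⟩ : ∃ l0 : ℝ, l0 = 4 + 2 * |Real.log κ| := ⟨_, rfl⟩
  refine ⟨c * Real.sqrt (1 / (2 * 4 ^ e)), max a1 (Real.exp (Real.exp l0)), by positivity,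
    le_max_of_le_right (Real.one_le_exp (Real.exp_nonneg _)), fun a ha => ?_⟩
  have haa1 : a1 ≤ a := (le_max_left _ _).trans ha
  have hae : Real.exp (Real.exp l0) ≤ a := (le_max_right _ _).trans ha
  have hapos : 0 < a := by linarith
  have hLge : Real.exp l0 ≤ Real.log a := (Real.le_log_iff_exp_le hapos).2 hae
  have hL : 0 < Real.log a := lt_of_lt_of_le (Real.exp_pos _) hLge
  have hl : l0 ≤ Real.log (Real.log a) := (Real.le_log_iff_exp_le hL).2 hLge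
  rw [hl0] at hl
  obtain ⟨R, S, N, h1, h2, h3, h4, h5, h6, h7, h8⟩ := exists_shapes he hκ hr0 hr hapos hL hl
  have hR := hbig a R S N haa1 h1 h2 h3 h4 h5 h6 h7
  refine le_trans (ENNReal.ofReal_le_ofReal ?_) hR
  have ha1' : 1 ≤ a := by
    refine le_trans (Real.one_le_exp (Real.exp_nonneg _)) hae
  have hrate : 0 ≤ rate (e + 1) r a := rate_nonneg ha1'
  rw [mul_assoc]
  apply mul_le_mul_of_nonneg_left _ hc.le
  calc Real.sqrt (1 / (2 * 4 ^ e)) * rate (e + 1) r a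
      = Real.sqrt (1 / (2 * 4 ^ e)) * Real.sqrt (rate (e + 1) r a ^ 2) := by
        rw [Real.sqrt_sq hrate]
    _ = Real.sqrt (rate (e + 1) r a ^ 2 / (2 * 4 ^ e)) := by
        rw [← Real.sqrt_mul (by positivity)]
        congr 1
        ring
    _ ≤ _ := Real.sqrt_le_sqrt h8

/-- the rate is bounded on bounded sets -/
theorem rate_bdd {e : ℕ} {r : ℝ} (hr0 : 0 < r) (hr : r ≤ 1 / 2) (a1 : ℝ) :
    ∃ B : ℝ, 0 < B ∧ ∀ a : ℝ, 2 < a → a ≤ a1 → rate (e + 1) r a ≤ B := by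
  obtain ⟨b, hb⟩ : ∃ b : ℝ, b = max (Real.log a1) 0 := ⟨_, rfl⟩
  have hb0 : 0 ≤ b := by rw [hb]; exact le_max_right _ _
  refine ⟨1 + b ^ ((((e + 1 : ℕ) : ℝ) - 1) * (1 - r)) +
    b ^ ((((e + 1 : ℕ) : ℝ) - 1) / 2) * Real.sqrt b, by positivity, fun a ha haa => ?_⟩
  have hLpos : 0 < Real.log a := Real.log_pos (by linarith)
  have hLb : Real.log a ≤ b := by
    rw [hb]
    exact (Real.log_le_log (by linarith) haa).trans (le_max_left _ _)
  have he : 0 ≤ ((e + 1 : ℕ) : ℝ) - 1 := by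
    push_cast
    have : (0 : ℝ) ≤ e := Nat.cast_nonneg _
    linarith
  have ha1 : a ^ (-(r * ((e + 1 : ℕ) : ℝ))) ≤ 1 := by
    apply Real.rpow_le_one_of_one_le_of_nonpos (by linarith)
    have : 0 ≤ r * ((e + 1 : ℕ) : ℝ) := by positivity
    linarith
  have ha0 : 0 ≤ a ^ (-(r * ((e + 1 : ℕ) : ℝ))) := by
    have : 0 < a := by linarith
    positivity
  have h1 : Real.log a ^ ((((e + 1 : ℕ) : ℝ) - 1) * (1 - r)) ≤
      b ^ ((((e + 1 : ℕ) : ℝ) - 1) * (1 - r)) :=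
    Real.rpow_le_rpow hLpos.le hLb (mul_nonneg he (by linarith))
  have h2 : Real.log a ^ ((((e + 1 : ℕ) : ℝ) - 1) / 2) ≤
      b ^ ((((e + 1 : ℕ) : ℝ) - 1) / 2) :=
    Real.rpow_le_rpow hLpos.le hLb (by positivity)
  have h3 : Real.sqrt (Real.log (Real.log a)) ≤ Real.sqrt b := by
    apply Real.sqrt_le_sqrt
    have := Real.log_le_sub_one_of_pos hLpos
    linarith
  unfold rate
  split_ifs
  · calc a ^ (-(r * ((e + 1 : ℕ) : ℝ))) * Real.log a ^ ((((e + 1 : ℕ) : ℝ) - 1) * (1 - r))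
        ≤ 1 * b ^ ((((e + 1 : ℕ) : ℝ) - 1) * (1 - r)) := by gcongr
      _ ≤ _ := by
        have : 0 ≤ b ^ ((((e + 1 : ℕ) : ℝ) - 1) / 2) * Real.sqrt b := by positivity
        linarith
  · calc a ^ (-(r * ((e + 1 : ℕ) : ℝ))) * Real.log a ^ ((((e + 1 : ℕ) : ℝ) - 1) / 2) *
          Real.sqrt (Real.log (Real.log a))
        ≤ 1 * b ^ ((((e + 1 : ℕ) : ℝ) - 1) / 2) * Real.sqrt b := by gcongr
      _ ≤ _ := by
        have : 0 ≤ b ^ ((((e + 1 : ℕ) : ℝ) - 1) * (1 - r)) := by positivity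
        linarith

/-- the matching lower bound -/
theorem main {d : ℕ} (hd : 2 ≤ d) (A : Matrix (Fin d) (Fin d) ℝ) (hA : A.det ≠ 0)
    (hadm : ∀ m : Fin d → ℤ, m ≠ 0 → 1 ≤ |∏ j, A.mulVec (fun i => (m i : ℝ)) j|)
    (φ : ℕ → ℝ → ℝ) (hφ : IsDyadicResolution φ) {r p : ℝ} (hr0 : 0 < r) (hr : r ≤ 1 / 2)
    (hp : 2 < p) :
    ∃ c : ℝ, 0 < c ∧ ∀ a : ℝ, 2 < a →
      ENNReal.ofReal (c * rate d r a) ≤ worstError φ r p A a := by
  obtain ⟨κ, hκ, hdual⟩ := Pool.Agent.Helper150.Lattice.dual_admissible hd A hA hadm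
  obtain ⟨e, rfl⟩ : ∃ e, d = e + 1 := ⟨d - 1, by omega⟩
  obtain ⟨c, a1, hc, ha1, hlarge⟩ := large (by omega) φ hφ hr0 hr hp A hA hκ hdual
  obtain ⟨c', hc', hsmall⟩ := Pool.Agent.Helper150.Small.small (Nat.succ_pos e) φ hφ hr0 hr hp A
    hκ hdual a1
  obtain ⟨B, hB, hrate⟩ := rate_bdd (e := e) hr0 hr a1
  refine ⟨min c (c' / B), by positivity, fun a ha => ?_⟩
  have hr1 : 0 ≤ rate (e + 1) r a := rate_nonneg (by linarith)
  rcases le_or_gt a1 a with h | h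
  · refine le_trans (ENNReal.ofReal_le_ofReal ?_) (hlarge a h)
    gcongr
    exact min_le_left _ _
  · refine le_trans (ENNReal.ofReal_le_ofReal ?_) (hsmall a (by linarith) h.le)
    calc min c (c' / B) * rate (e + 1) r a ≤ (c' / B) * B := by
          gcongr
          · exact min_le_right _ _
          · exact hrate a ha h.le
      _ = c' := by field_simp

end Pool.Agent.Helper150.Final
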